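import Mathlib

/-!
Determinant and trace of idempotent matrices, and comparison of powers of `ℓ` in the Witt
vectors.
-/

namespace Pool.Agent.LibH97.AffDiff

open Matrix Finset

/-- An idempotent matrix over a field: its trace is a natural number `r`, and the determinant of
`1 + c P` is `(1 + c) ^ r`. -/
theorem idem_det_trace {ι K : Type*} [Fintype ι] [DecidableEq ι] [Field K]
    (P : Matrix ι ι K) (hP : P * P = P) :
    ∃ r : ℕ, P.trace = r ∧ ∀ c : K, (1 + c • P).det = (1 + c) ^ r := by
  classical
  set S := LinearMap.range P.mulVecLin with hS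
  set r := Module.finrank K S with hr
  let b : Module.Basis (Fin r) K S := Module.finBasis K S
  let U : Matrix ι (Fin r) K := fun i t => (b t : ι → K) i
  let V : Matrix (Fin r) ι K := fun t j =>
    b.repr ⟨P.mulVec (Pi.single j 1), LinearMap.mem_range_self P.mulVecLin _⟩ t
  have hUV : U * V = P := by
    ext i j
    rw [Matrix.mul_apply]
    have h1 := b.sum_repr ⟨P.mulVec (Pi.single j 1), LinearMap.mem_range_self P.mulVecLin _⟩
    have h2 := congrFun (congrArg Subtype.val h1) i
    simp only [Submodule.coe_sum, Submodule.coe_smul, Finset.sum_apply, Pi.smul_apply,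
      smul_eq_mul] at h2
    have h3 : (P.mulVec (Pi.single j 1)) i = P i j := by simp
    rw [h3] at h2
    rw [← h2]
    refine Finset.sum_congr rfl fun t _ => ?_
    simp only [U, V]
    ring
  have hfix : ∀ t, P.mulVec (b t : ι → K) = (b t : ι → K) := by
    intro t
    obtain ⟨y, hy⟩ := (b t).2
    rw [← hy, mulVecLin_apply, mulVec_mulVec, hP]
  have hVU : V * U = 1 := by
    have h1 : U * (V * U) = U := by
      rw [← Matrix.mul_assoc, hUV]
      ext i t
      have := congrFun (hfix t) i
      rw [Matrix.mul_apply]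
      exact this
    ext s t
    have h2 : ∑ s', ((V * U) s' t - (1 : Matrix (Fin r) (Fin r) K) s' t) • b s' = 0 := by
      apply Subtype.ext
      funext i
      have h3 := congrFun (congrFun h1 i) t
      rw [Matrix.mul_apply] at h3
      simp only [Submodule.coe_sum, Submodule.coe_smul, Finset.sum_apply, Pi.smul_apply,
        smul_eq_mul, Submodule.coe_zero, Pi.zero_apply, sub_mul, Finset.sum_sub_distrib]
      have h4 : ∑ x, (1 : Matrix (Fin r) (Fin r) K) x t * (b x : ι → K) i = U i t := by
        simp [Matrix.one_apply, U]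
      rw [h4, sub_eq_zero, ← h3]
      refine Finset.sum_congr rfl fun x _ => ?_
      simp only [U]
      ring
    have h5 := Fintype.linearIndependent_iff.mp b.linearIndependent _ h2 s
    exact sub_eq_zero.mp h5
  refine ⟨r, ?_, fun c => ?_⟩
  · rw [← hUV, Matrix.trace_mul_comm, hVU, Matrix.trace_one, Fintype.card_fin]
  · rw [← hUV, ← Matrix.smul_mul, Matrix.det_one_add_mul_comm, Matrix.mul_smul, hVU]
    have : (1 : Matrix (Fin r) (Fin r) K) + c • (1 : Matrix (Fin r) (Fin r) K) =
        (1 + c) • (1 : Matrix (Fin r) (Fin r) K) := by rw [add_smul, one_smul]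
    rw [this, Matrix.det_smul, Matrix.det_one, mul_one, Fintype.card_fin]

/-- The same for a commutative domain. -/
theorem idem_det_trace' {ι R : Type*} [Fintype ι] [DecidableEq ι] [CommRing R] [IsDomain R]
    (P : Matrix ι ι R) (hP : P * P = P) :
    ∃ r : ℕ, P.trace = r ∧ ∀ c : R, (1 + c • P).det = (1 + c) ^ r := by
  classical
  let f : R →+* FractionRing R := algebraMap R (FractionRing R)
  have hf : Function.Injective f := IsFractionRing.injective R (FractionRing R)
  have hP' : P.map f * P.map f = P.map f := by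
    rw [← RingHom.mapMatrix_apply, ← map_mul, hP]
  obtain ⟨r, h1, h2⟩ := idem_det_trace (P.map f) hP'
  refine ⟨r, ?_, fun c => ?_⟩
  · apply hf
    rw [map_natCast, ← h1]
    simp [Matrix.trace, map_sum]
  · apply hf
    have h3 : f ((1 + c) ^ r) = (1 + f c) ^ r := by rw [map_pow, map_add, map_one]
    rw [h3, ← h2 (f c), RingHom.map_det]
    congr 1
    rw [map_add, map_one]
    congr 1
    ext i j
    simp

/-- Comparing powers. -/
theorem pow_mul_unit_inj {R : Type*} [CommRing R] [IsDomain R] (x : R) (hx0 : x ≠ 0)
    (hx : ¬ IsUnit x) (a b : ℕ) (u v : Rˣ) (h : x ^ a * (u : R) = x ^ b * (v : R)) : a = b := by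
  wlog hab : a ≤ b generalizing a b u v
  · exact (this b a v u h.symm (by omega)).symm
  obtain ⟨c, rfl⟩ := Nat.exists_eq_add_of_le hab
  rcases c with _ | c
  · rfl
  · exfalso
    apply hx
    rw [pow_add, mul_assoc] at h
    have h1 := mul_left_cancel₀ (pow_ne_zero a hx0) h
    have h2 : IsUnit (x ^ (c + 1) * (v : R)) := by rw [← h1]; exact u.isUnit
    have h3 : IsUnit (x ^ (c + 1)) := isUnit_of_mul_isUnit_left h2
    exact (isUnit_pow_iff (Nat.succ_ne_zero c)).mp h3

/-- A natural number prime to `ℓ` is a unit in the Witt vectors. -/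
theorem isUnit_natCast {k : Type*} [Field k] (l : ℕ) [Fact l.Prime] [CharP k l]
    (m : ℕ) (hm : ¬ l ∣ m) : IsUnit (m : WittVector l k) := by
  apply WittVector.isUnit_of_coeff_zero_ne_zero
  have h1 : (m : WittVector l k).coeff 0 = (m : k) := by
    have : WittVector.constantCoeff (m : WittVector l k) = (m : k) := map_natCast _ _
    exact this
  rw [h1]
  intro h2
  exact hm ((CharP.cast_eq_zero_iff k l m).mp h2)

/-- The prime `ℓ` is not a unit in the Witt vectors. -/
theorem not_isUnit_prime {k : Type*} [Field k] (l : ℕ) [Fact l.Prime] [CharP k l] :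
    ¬ IsUnit (l : WittVector l k) := by
  intro h
  have h1 := h.map (WittVector.constantCoeff : WittVector l k →+* k)
  rw [map_natCast, CharP.cast_eq_zero] at h1
  exact not_isUnit_zero h1

end Pool.Agent.LibH97.AffDiff
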