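import Mathlib
import Pool.Agent.Lib_helper97.AffDiff.Idem

/-!
The parity theorem (in the spirit of Aschbacher and Lander): let `D` be an affine difference set
of even order `n` in `G` relative to `N`, let `ℓ` be a prime dividing `n` to an odd power, and
let `B` be a subgroup of `G` of prime order `p` dividing `n - 1` such that `-1` is a power of `ℓ`
modulo `p`. Then the number of `x` in `G` with `x B x⁻¹ ≤ N` is even.
-/

namespace Pool.Agent.LibH97.AffDiff

open Matrix Finset

section Left

variable {G R : Type*} [Group G] [Fintype G] [DecidableEq G] [CommRing R]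

/-- Left multiplication by the function `f` on the group. -/
def leftMat (f : G → R) : Matrix G G R := fun g h => f (g * h⁻¹)

/-- The permutation matrix of right multiplication by `x`. -/
def rightMat (R : Type*) [CommRing R] (x : G) : Matrix G G R :=
  fun g h => if h = g * x then 1 else 0

theorem leftMat_mul_rightMat (f : G → R) (x : G) (g h : G) :
    (leftMat f * rightMat R x) g h = f (g * x * h⁻¹) := by
  rw [Matrix.mul_apply]
  simp only [leftMat, rightMat, mul_ite, mul_one, mul_zero]
  rw [Finset.sum_eq_single (h * x⁻¹)]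
  · simp [mul_assoc]
  · intro m _ hm
    rw [if_neg]
    intro h1
    apply hm
    rw [h1]; group
  · intro h1; exact absurd (Finset.mem_univ _) h1

theorem rightMat_mul_leftMat (f : G → R) (x : G) (g h : G) :
    (rightMat R x * leftMat f) g h = f (g * x * h⁻¹) := by
  rw [Matrix.mul_apply]
  simp only [leftMat, rightMat, ite_mul, one_mul, zero_mul]
  rw [Finset.sum_ite_eq']
  simp

theorem comm_left_right (f : G → R) (x : G) :
    leftMat f * rightMat R x = rightMat R x * leftMat f := by
  ext g h
  rw [leftMat_mul_rightMat, rightMat_mul_leftMat]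

theorem rightMat_mul_rightMat (x y : G) :
    rightMat R x * rightMat R y = rightMat R (x * y) := by
  ext g h
  rw [Matrix.mul_apply]
  simp only [rightMat, ite_mul, one_mul, zero_mul]
  rw [Finset.sum_ite_eq']
  simp [mul_assoc]

omit [Fintype G] in
theorem rightMat_transpose (x : G) : (rightMat R x)ᵀ = rightMat R x⁻¹ := by
  ext g h
  simp only [transpose_apply, rightMat]
  congr 1
  apply propext
  constructor
  · intro h1; rw [h1]; group
  · intro h1; rw [h1]; group

theorem trace_rightMat (x : G) :
    (rightMat R x).trace = if x = 1 then (Fintype.card G : R) else 0 := by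
  simp only [Matrix.trace, Matrix.diag, rightMat]
  by_cases hx : x = 1
  · simp [hx]
  · rw [if_neg hx]
    apply Finset.sum_eq_zero
    intro g _
    rw [if_neg]
    intro h1
    exact hx (by simpa using h1)

end Left

section Proj

variable {G R : Type*} [Group G] [Fintype G] [DecidableEq G] [CommRing R]

/-- The projector belonging to the character `χ` of the subgroup `B`. -/
noncomputable def proj (B : Subgroup G) (c : R) (χ : B → R) [Fintype B] : Matrix G G R :=
  c • ∑ x : B, χ x • rightMat R (x : G)

theorem comm_left_proj (f : G → R) (B : Subgroup G) [Fintype B] (c : R) (χ : B → R) :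
    leftMat f * proj B c χ = proj B c χ * leftMat f := by
  simp only [proj, Matrix.mul_smul, Matrix.smul_mul, Matrix.mul_sum, Matrix.sum_mul,
    comm_left_right]

theorem sum_char_mul (B : Subgroup G) [Fintype B] (χ : B →* R) :
    (∑ x : B, χ x • rightMat R (x : G)) * (∑ x : B, χ x • rightMat R (x : G)) =
      (Fintype.card B : R) • ∑ x : B, χ x • rightMat R (x : G) := by
  rw [Matrix.sum_mul]
  have h3 : ∀ y : B, χ y • rightMat R (y : G) * (∑ x : B, χ x • rightMat R (x : G)) =
      ∑ z : B, χ z • rightMat R (z : G) := by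
    intro y
    rw [Matrix.mul_sum, ← Equiv.sum_comp (Equiv.mulLeft y) (fun z : B => χ z • rightMat R (z : G))]
    refine Finset.sum_congr rfl fun x _ => ?_
    rw [Matrix.smul_mul, Matrix.mul_smul, rightMat_mul_rightMat, smul_smul, Equiv.coe_mulLeft,
      map_mul, Subgroup.coe_mul]
  rw [Finset.sum_congr rfl fun y _ => h3 y, Finset.sum_const, Finset.card_univ,
    ← Nat.cast_smul_eq_nsmul R]

theorem proj_idem (B : Subgroup G) [Fintype B] (c : R) (χ : B →* R)
    (hc : c * (Fintype.card B : R) = 1) : proj B c χ * proj B c χ = proj B c χ := by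
  unfold proj
  rw [Matrix.smul_mul, Matrix.mul_smul, sum_char_mul, smul_smul c (Fintype.card B : R), hc,
    one_smul]

omit [Fintype G] in
theorem proj_transpose (B : Subgroup G) [Fintype B] (c : R) (χ : B → R) :
    (proj B c χ)ᵀ = proj B c (fun x => χ x⁻¹) := by
  simp only [proj, Matrix.transpose_smul, Matrix.transpose_sum, rightMat_transpose]
  congr 1
  rw [← Equiv.sum_comp (Equiv.inv B)]
  refine Finset.sum_congr rfl fun x _ => ?_
  simp

end Proj

section Main

variable {G : Type*} [Group G] [Fintype G] [DecidableEq G]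

open Classical in
/-- The main computation: an integer identity and the product of two determinants. -/
theorem det_mul_det {R : Type*} [CommRing R] [IsDomain R] [CharZero R]
    (N : Subgroup G) (D : Finset G) (n : ℕ) (hn2 : 2 ≤ n)
    (hD : ∀ g h : G, (Finset.univ.filter fun x => g * x⁻¹ ∈ D ∧ h * x⁻¹ ∈ D).card =
      if g = h then n else if g * h⁻¹ ∈ N then 0 else 1)
    (hNcard : Nat.card N = n - 1)
    (B : Subgroup G) [Fintype B] (χ : B →* R) (hχ : χ ≠ 1)
    (c κ : R) (hc : c * (Fintype.card B : R) = 1) (hκ : κ * ((n : R) - 1) = 1)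
    (F : ℕ) (hF : ∀ y : B, y ≠ 1 → Nat.card {x : G // x * (y : G) * x⁻¹ ∈ N} = F) :
    ∃ r : ℕ, Fintype.card B * (n - 1) * r + 2 * Fintype.card G =
        n * Fintype.card G + F ∧
      (leftMat (fun x => if x ∈ D then (1 : R) else 0) * proj B c χ + (1 - proj B c χ)).det *
      (leftMat (fun x => if x ∈ D then (1 : R) else 0) * proj B c (fun x => χ x⁻¹) +
        (1 - proj B c (fun x => χ x⁻¹))).det = (n : R) ^ r := by
  set A : Matrix G G R := leftMat (fun x => if x ∈ D then (1 : R) else 0) with hA
  set E : Matrix G G R := leftMat (fun x => if x ∈ N then (1 : R) else 0) with hE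
  set P : Matrix G G R := proj B c χ with hP
  set J : Matrix G G R := fun _ _ => 1 with hJ
  have hP2 : P * P = P := proj_idem B c χ hc
  have hAP : A * P = P * A := comm_left_proj _ B c χ
  have hEP : E * P = P * E := comm_left_proj _ B c χ
  have hAAT : A * Aᵀ = (n : R) • (1 : Matrix G G R) + J - E := by
    ext g h
    rw [Matrix.mul_apply, Matrix.sub_apply, Matrix.add_apply, Matrix.smul_apply]
    have h1 : ∑ x, A g x * Aᵀ x h =
        ((Finset.univ.filter fun x => g * x⁻¹ ∈ D ∧ h * x⁻¹ ∈ D).card : R) := by
      rw [Finset.card_filter]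
      push_cast
      refine Finset.sum_congr rfl fun x _ => ?_
      simp only [hA, leftMat, transpose_apply]
      by_cases h2 : g * x⁻¹ ∈ D <;> by_cases h3 : h * x⁻¹ ∈ D <;> simp [h2, h3]
    rw [h1, hD g h]
    simp only [hJ, hE, leftMat, smul_eq_mul]
    by_cases hgh : g = h
    · subst hgh
      simp [N.one_mem]
    · rw [if_neg hgh, Matrix.one_apply_ne hgh]
      by_cases h2 : g * h⁻¹ ∈ N
      · simp [h2]
      · simp [h2]
  have hsumχ : ∑ x : B, χ x = 0 := sum_hom_units_eq_zero χ hχ
  have hJP : J * P = 0 := by
    ext g h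
    simp only [hP, proj, Matrix.mul_smul, Matrix.smul_apply, Matrix.mul_sum, Matrix.sum_apply,
      smul_eq_mul, Matrix.zero_apply]
    have h1 : ∀ x : B, (J * rightMat R (x : G)) g h = 1 := by
      intro x
      rw [Matrix.mul_apply]
      simp only [hJ, rightMat, one_mul]
      rw [Finset.sum_eq_single (h * (x : G)⁻¹)]
      · simp
      · intro m _ hm
        rw [if_neg]
        intro h1
        apply hm
        rw [h1]; group
      · intro h1; exact absurd (Finset.mem_univ _) h1
    rw [Finset.sum_congr rfl fun x _ => by rw [h1 x, mul_one], hsumχ, mul_zero]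
  have hE2 : E * E = ((n : R) - 1) • E := by
    ext g h
    rw [Matrix.mul_apply, Matrix.smul_apply, smul_eq_mul]
    simp only [hE, leftMat]
    have h1 : ∀ m : G, (if g * m⁻¹ ∈ N then (1 : R) else 0) * (if m * h⁻¹ ∈ N then 1 else 0) =
        if g * m⁻¹ ∈ N then (if g * h⁻¹ ∈ N then 1 else 0) else 0 := by
      intro m
      by_cases h2 : g * m⁻¹ ∈ N
      · rw [if_pos h2, if_pos h2, one_mul]
        congr 1
        apply propext
        have h3 : g * h⁻¹ = (g * m⁻¹) * (m * h⁻¹) := by group
        rw [h3]
        exact (N.mul_mem_cancel_left h2).symm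
      · rw [if_neg h2, if_neg h2, zero_mul]
    rw [Finset.sum_congr rfl fun m _ => h1 m, ← Finset.sum_filter, Finset.sum_const,
      nsmul_eq_mul]
    congr 1
    have h4 : (Finset.univ.filter fun m : G => g * m⁻¹ ∈ N).card = Nat.card N := by
      rw [← Fintype.card_subtype, ← Nat.card_eq_fintype_card]
      apply Nat.card_congr
      refine
        { toFun := fun m => ⟨g * m.1⁻¹, m.2⟩
          invFun := fun ν => ⟨(ν : G)⁻¹ * g, ?_⟩
          left_inv := ?_
          right_inv := ?_ }
      · have h5 : g * ((ν : G)⁻¹ * g)⁻¹ = ν := by group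
        rw [h5]; exact ν.2
      · intro m
        apply Subtype.ext
        simp
      · intro ν
        apply Subtype.ext
        simp
    rw [h4, hNcard]
    push_cast [Nat.cast_sub (show 1 ≤ n by omega)]
    rfl
  have hPT : (proj B c (fun x => χ x⁻¹) : Matrix G G R) = Pᵀ := (proj_transpose B c χ).symm
  -- the idempotent
  set Q : Matrix G G R := P - κ • (E * P) with hQ
  have hQ2 : Q * Q = Q := by
    have e1 : P * (E * P) = E * P := by
      rw [← Matrix.mul_assoc, ← hEP, Matrix.mul_assoc, hP2]
    have e2 : (E * P) * P = E * P := by rw [Matrix.mul_assoc, hP2]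
    have e3 : (E * P) * (E * P) = ((n : R) - 1) • (E * P) := by
      rw [Matrix.mul_assoc, e1, ← Matrix.mul_assoc, hE2, Matrix.smul_mul]
    have e4 : κ • κ • ((n : R) - 1) • (E * P) = κ • (E * P) := by
      rw [smul_smul κ ((n : R) - 1), hκ, one_smul]
    rw [hQ, Matrix.sub_mul, Matrix.mul_sub, Matrix.mul_sub, hP2, Matrix.mul_smul, e1,
      Matrix.smul_mul, e2, Matrix.smul_mul, Matrix.mul_smul, e3, e4]
    abel
  obtain ⟨r, hr1, hr2⟩ := idem_det_trace' Q hQ2
  have hdet : (A * P + (1 - P)).det * (A * Pᵀ + (1 - Pᵀ)).det = (n : R) ^ r := by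
    have e1 : (A * Pᵀ + (1 - Pᵀ)).det = (Aᵀ * P + (1 - P)).det := by
      rw [← Matrix.det_transpose (Aᵀ * P + (1 - P))]
      congr 1
      rw [Matrix.transpose_add, Matrix.transpose_mul, Matrix.transpose_transpose,
        Matrix.transpose_sub, Matrix.transpose_one]
      congr 1
      have := comm_left_proj (fun x => if x ∈ D then (1 : R) else 0) B c (fun x => χ x⁻¹)
      rw [hPT] at this
      exact this
    have hATP : Aᵀ * P = P * Aᵀ := by
      have h1 := comm_left_proj (fun x => if x ∈ D then (1 : R) else 0) B c (fun x => χ x⁻¹)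
      rw [hPT] at h1
      have h2 := congrArg Matrix.transpose h1
      rw [Matrix.transpose_mul, Matrix.transpose_mul, Matrix.transpose_transpose] at h2
      exact h2.symm
    rw [e1, ← Matrix.det_mul]
    have e2 : (A * P + (1 - P)) * (Aᵀ * P + (1 - P)) = 1 + ((n : R) - 1) • Q := by
      have f1 : (A * P) * (Aᵀ * P) = A * Aᵀ * P := by
        rw [Matrix.mul_assoc, ← Matrix.mul_assoc P, ← hATP, Matrix.mul_assoc Aᵀ, hP2,
          Matrix.mul_assoc]
      have f2 : (A * P) * (1 - P) = 0 := by
        rw [Matrix.mul_sub, Matrix.mul_one, Matrix.mul_assoc, hP2, sub_self]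
      have f3 : (1 - P) * (Aᵀ * P) = 0 := by
        rw [hATP, ← Matrix.mul_assoc, Matrix.sub_mul, Matrix.one_mul, hP2, sub_self,
          Matrix.zero_mul]
      have f4 : (1 - P) * (1 - P) = 1 - P := by
        rw [Matrix.sub_mul, Matrix.one_mul, Matrix.mul_sub, Matrix.mul_one, hP2, sub_self,
          sub_zero]
      rw [Matrix.add_mul, Matrix.mul_add, Matrix.mul_add, f1, f2, f3, f4, hAAT, Matrix.sub_mul,
        Matrix.add_mul, hJP, Matrix.smul_mul, Matrix.one_mul, hQ, smul_sub, smul_smul,
        mul_comm ((n : R) - 1) κ, hκ, one_smul, sub_smul, one_smul]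
      abel
    rw [e2, hr2]
    congr 1
    ring
  refine ⟨r, ?_, ?_⟩
  · have t1 : P.trace = c * (Fintype.card G : R) := by
      simp only [hP, proj, Matrix.trace_smul, Matrix.trace_sum, trace_rightMat, smul_eq_mul]
      congr 1
      rw [Finset.sum_eq_single (1 : B)]
      · simp
      · intro x _ hx
        have : (x : G) ≠ 1 := fun h => hx (Subtype.ext h)
        rw [if_neg this, mul_zero]
      · intro h; exact absurd (Finset.mem_univ _) h
    have t2 : (E * P).trace = c * ((Fintype.card G : R) - F) := by
      have u1 : ∀ x : B, (E * rightMat R (x : G)).trace =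
          (Nat.card {g : G // g * (x : G) * g⁻¹ ∈ N} : R) := by
        intro x
        simp only [Matrix.trace, Matrix.diag, hE, leftMat_mul_rightMat]
        rw [Nat.card_eq_fintype_card, Fintype.card_subtype, Finset.card_filter]
        push_cast
        rfl
      have u2 : ∀ x : B, (Nat.card {g : G // g * (x : G) * g⁻¹ ∈ N} : R) =
          (F : R) + (if x = 1 then (Fintype.card G : R) - F else 0) := by
        intro x
        by_cases hx : x = 1
        · rw [if_pos hx]
          have : Nat.card {g : G // g * (x : G) * g⁻¹ ∈ N} = Fintype.card G := by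
            rw [← Nat.card_eq_fintype_card]
            exact Nat.card_congr (Equiv.subtypeUnivEquiv (fun g => by
              rw [hx]; simp [N.one_mem]))
          rw [this]; ring
        · rw [if_neg hx, hF x hx, add_zero]
      have u3 : (E * P).trace = c * ∑ x : B, χ x *
          ((F : R) + (if x = 1 then (Fintype.card G : R) - F else 0)) := by
        simp only [hP, proj, Matrix.mul_smul, Matrix.mul_sum, Matrix.trace_smul,
          Matrix.trace_sum, smul_eq_mul, u1, u2]
      rw [u3]
      congr 1
      simp only [mul_add, Finset.sum_add_distrib, ← Finset.sum_mul, hsumχ, zero_mul, zero_add,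
        mul_ite, mul_zero, Finset.sum_ite_eq', Finset.mem_univ, if_true, map_one, one_mul]
    have t3 : (r : R) = c * (Fintype.card G : R) - κ * (c * ((Fintype.card G : R) - F)) := by
      rw [← hr1, hQ, Matrix.trace_sub, Matrix.trace_smul, t1, t2, smul_eq_mul]
    have t4 : ((Fintype.card B * (n - 1) * r + 2 * Fintype.card G : ℕ) : R) =
        ((n * Fintype.card G + F : ℕ) : R) := by
      push_cast [Nat.cast_sub (show 1 ≤ n by omega)]
      rw [t3]
      have v1 : (Fintype.card B : R) * ((n : R) - 1) *
          (c * (Fintype.card G : R) - κ * (c * ((Fintype.card G : R) - F))) =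
          (c * (Fintype.card B : R)) * (((n : R) - 1) * (Fintype.card G : R)) -
          (c * (Fintype.card B : R)) * (κ * ((n : R) - 1)) * ((Fintype.card G : R) - F) := by
        ring
      rw [v1, hc, hκ]
      ring
    exact_mod_cast t4
  · rw [hPT]
    exact hdet

end Main

end Pool.Agent.LibH97.AffDiff
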