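import Mathlib
import Pool.Agent.Lib_helper97.AffDiff.Parity

/-!
The parity theorem: for an element `b` of prime order `p ∣ n - 1` the number of `x` with
`x⁻¹ b x ∈ N` is even as soon as some prime `ℓ` dividing `n` to an odd power has a power
congruent to `-1` modulo `p`, `n` even.
-/

namespace Pool.Agent.LibH97.AffDiff

open Matrix Finset

theorem frobenius_pow_teichmuller {k : Type*} [Field k] (l : ℕ) [Fact l.Prime] [CharP k l]
    (j : ℕ) (y : k) :
    ((WittVector.frobenius : WittVector l k →+* WittVector l k) ^ j)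
      (WittVector.teichmuller l y) = WittVector.teichmuller l (y ^ l ^ j) := by
  induction j generalizing y with
  | zero => simp
  | succ j ih =>
    rw [pow_succ, RingHom.mul_def, RingHom.comp_apply]
    have h1 : WittVector.frobenius (WittVector.teichmuller l y) =
        WittVector.teichmuller l (y ^ l) := by
      rw [WittVector.frobenius_eq_map_frobenius, WittVector.map_teichmuller]
      rfl
    rw [h1, ih, ← pow_mul, pow_succ, mul_comm l]

theorem natCast_factor {R : Type*} [CommSemiring R] (n l a m : ℕ) (h : l ^ a * m = n) :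
    (n : R) = (l : R) ^ a * (m : R) := by
  rw [← h]; push_cast; rfl

theorem charZero_witt {k : Type*} [Field k] (l : ℕ) [Fact l.Prime] [CharP k l] :
    CharZero (WittVector l k) := by
  apply charZero_of_inj_zero
  intro m hm
  by_contra hm0
  have hlp : l.Prime := Fact.out
  have h1 : ¬ l ∣ m / l ^ m.factorization l := Nat.not_dvd_ordCompl hlp hm0
  have h2 : l ^ m.factorization l * (m / l ^ m.factorization l) = m :=
    Nat.ordProj_mul_ordCompl_eq_self m l
  have h3 : (l : WittVector l k) ≠ 0 := WittVector.p_nonzero l k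
  have h4 : ((m / l ^ m.factorization l : ℕ) : WittVector l k) ≠ 0 :=
    (isUnit_natCast (k := k) l _ h1).ne_zero
  rw [← h2] at hm
  push_cast at hm
  rcases mul_eq_zero.mp hm with h | h
  · exact h3 (eq_zero_of_pow_eq_zero h)
  · exact h4 (by exact_mod_cast h)

open Classical in
/-- The abstract form of the valuation argument. -/
theorem even_count_abstract {G R : Type*} [Group G] [Fintype G] [DecidableEq G]
    [CommRing R] [IsDomain R] [CharZero R]
    (N : Subgroup G) (D : Finset G) (n : ℕ) (hn2 : 2 ≤ n) (hneven : Even n)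
    (hD : ∀ g h : G, (Finset.univ.filter fun x => g * x⁻¹ ∈ D ∧ h * x⁻¹ ∈ D).card =
      if g = h then n else if g * h⁻¹ ∈ N then 0 else 1)
    (hNcard : Nat.card N = n - 1)
    (B : Subgroup G) [Fintype B] (χ : B →* R) (hχ : χ ≠ 1)
    (c κ : R) (hc : c * (Fintype.card B : R) = 1) (hκ : κ * ((n : R) - 1) = 1)
    (F : ℕ) (hF : ∀ y : B, y ≠ 1 → Nat.card {x : G // x * (y : G) * x⁻¹ ∈ N} = F)
    (Fr : R →+* R) (hFrχ : ∀ x : B, Fr (χ x) = χ x⁻¹)
    (q : ℕ) (hq0 : (q : R) ≠ 0) (hqu : ¬ IsUnit (q : R))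
    (hval : ∀ y : R, y ≠ 0 → ∃ (v : ℕ) (u : Rˣ), y = (q : R) ^ v * u)
    (a : ℕ) (ha : Odd a) (w : Rˣ) (hnfac : (n : R) = (q : R) ^ a * (w : R)) : Even F := by
  obtain ⟨r, hr, hdet⟩ := det_mul_det (R := R) N D n hn2 hD hNcard B χ hχ c κ hc hκ F hF
  have hFrc : Fr c = c := by
    have h1 : Fr c * (Fintype.card B : R) = 1 := by
      have h2 := congrArg Fr hc
      rw [map_mul, map_natCast, map_one] at h2
      exact h2
    have h3 : (Fintype.card B : R) ≠ 0 := by
      intro h; rw [h, mul_zero] at hc; exact zero_ne_one hc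
    exact mul_right_cancel₀ h3 (h1.trans hc.symm)
  set M₁ : Matrix G G R := leftMat (fun x => if x ∈ D then (1 : R) else 0) * proj B c χ +
    (1 - proj B c χ) with hM₁
  set M₂ : Matrix G G R := leftMat (fun x => if x ∈ D then (1 : R) else 0) *
    proj B c (fun x => χ x⁻¹) + (1 - proj B c (fun x => χ x⁻¹)) with hM₂
  have hproj : Fr.mapMatrix (proj B c χ : Matrix G G R) = proj B c (fun x => χ x⁻¹) := by
    ext g h
    simp only [RingHom.mapMatrix_apply, Matrix.map_apply, proj, Matrix.smul_apply,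
      Matrix.sum_apply, smul_eq_mul, map_mul, map_sum, hFrc, hFrχ, rightMat]
    congr 1
    refine Finset.sum_congr rfl fun x _ => ?_
    by_cases h1 : h = g * (x : G) <;> simp [h1]
  have hleft : Fr.mapMatrix (leftMat (fun x => if x ∈ D then (1 : R) else 0) : Matrix G G R) =
      leftMat (fun x => if x ∈ D then (1 : R) else 0) := by
    ext g h
    simp only [RingHom.mapMatrix_apply, Matrix.map_apply, leftMat]
    by_cases h1 : g * h⁻¹ ∈ D <;> simp [h1]
  have hM : M₂.det = Fr M₁.det := by
    rw [RingHom.map_det]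
    congr 1
    rw [hM₁, hM₂, map_add, map_mul, map_sub, map_one, hproj, hleft]
  have hn0 : (n : R) ≠ 0 := by
    have : n ≠ 0 := by omega
    exact_mod_cast this
  have hδ0 : M₁.det ≠ 0 := by
    intro h
    rw [h, zero_mul] at hdet
    exact pow_ne_zero r hn0 hdet.symm
  obtain ⟨v, u, hvu⟩ := hval M₁.det hδ0
  have hval2 : v + v = a * r := by
    have h1 : (q : R) ^ (v + v) * ((u * (Units.map (Fr : R →* R) u) : Rˣ) : R) =
        (q : R) ^ (a * r) * ((w ^ r : Rˣ) : R) := by
      rw [hM, hvu, map_mul, map_pow, map_natCast, hnfac] at hdet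
      rw [pow_add, pow_mul, Units.val_mul, Units.coe_map, Units.val_pow_eq_pow_val]
      calc (q : R) ^ v * (q : R) ^ v * ((u : R) * Fr (u : R)) =
          (q : R) ^ v * (u : R) * ((q : R) ^ v * Fr (u : R)) := by ring
        _ = ((q : R) ^ a * (w : R)) ^ r := hdet
        _ = _ := by rw [mul_pow]
    exact pow_mul_unit_inj (q : R) hq0 hqu _ _ _ _ h1
  have hreven : Even r := by
    have h1 : Even (a * r) := by rw [← hval2]; exact ⟨v, rfl⟩
    rcases Nat.even_mul.mp h1 with h | h
    · exact absurd h (Nat.not_even_iff_odd.mpr ha)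
    · exact h
  have h1 : Even (n * Fintype.card G + F) := by
    rw [← hr]
    exact (hreven.mul_left _).add (even_two_mul _)
  exact (Nat.even_add.mp h1).mp (hneven.mul_right _)

open Classical in
theorem even_count {G : Type*} [Group G] [Fintype G] [DecidableEq G]
    (N : Subgroup G) (D : Finset G) (n : ℕ) (hn2 : 2 ≤ n) (hneven : Even n)
    (hD : ∀ g h : G, (Finset.univ.filter fun x => g * x⁻¹ ∈ D ∧ h * x⁻¹ ∈ D).card =
      if g = h then n else if g * h⁻¹ ∈ N then 0 else 1)
    (hNcard : Nat.card N = n - 1)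
    (l : ℕ) [Fact l.Prime] (hl : Odd (n.factorization l))
    (p : ℕ) [Fact p.Prime] (hp : p ∣ n - 1) (j : ℕ) (hj : (l : ZMod p) ^ j = -1)
    (b : G) (hb : orderOf b = p) : Even (Nat.card {x : G // x⁻¹ * b * x ∈ N}) := by
  classical
  have hlp : l.Prime := Fact.out
  have hpp : p.Prime := Fact.out
  have hln : l ∣ n := by
    by_contra h
    rw [Nat.factorization_eq_zero_of_not_dvd h] at hl
    exact absurd hl (by decide)
  have hlnp : ¬ l ∣ p := by
    intro h
    have h1 : l = p := (Nat.prime_dvd_prime_iff_eq hlp hpp).mp h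
    subst h1
    have h2 : l ∣ 1 := by
      have h3 := Nat.dvd_sub hln hp
      have h4 : n - (n - 1) = 1 := by omega
      rwa [h4] at h3
    exact hlp.one_lt.ne' (Nat.dvd_one.mp h2)
  have hln1 : ¬ l ∣ n - 1 := by
    intro h
    have h3 := Nat.dvd_sub hln h
    have h4 : n - (n - 1) = 1 := by omega
    rw [h4] at h3
    exact hlp.one_lt.ne' (Nat.dvd_one.mp h3)
  let k := AlgebraicClosure (ZMod l)
  let W := WittVector l k
  let B : Subgroup G := Subgroup.zpowers b
  have hBcard : Nat.card B = p := by rw [Nat.card_zpowers, hb]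
  have hBcard' : Fintype.card B = p := by rw [← Nat.card_eq_fintype_card, hBcard]
  have hBcomm : ∀ x y : B, x * y = y * x := by
    rintro ⟨x, hx⟩ ⟨y, hy⟩
    obtain ⟨i, rfl⟩ := Subgroup.mem_zpowers_iff.mp hx
    obtain ⟨i', rfl⟩ := Subgroup.mem_zpowers_iff.mp hy
    apply Subtype.ext
    change b ^ i * b ^ i' = b ^ i' * b ^ i
    rw [← _root_.zpow_add, ← _root_.zpow_add, add_comm]
  have : CharZero W := charZero_witt l
  let _ : CommGroup B := { (inferInstance : Group B) with mul_comm := hBcomm }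
  let b' : B := ⟨b, Subgroup.mem_zpowers b⟩
  have hb' : b' ≠ 1 := by
    intro h
    have : b = 1 := congrArg Subtype.val h
    rw [this, orderOf_one] at hb
    exact hpp.one_lt.ne hb
  have : NeZero ((Monoid.exponent B : ℕ) : k) := by
    constructor
    intro h0
    rw [CharP.cast_eq_zero_iff k l] at h0
    have h3 : l ∣ Nat.card B := h0.trans Group.exponent_dvd_nat_card
    rw [hBcard] at h3
    exact hlnp h3
  obtain ⟨ψ, hψ⟩ := CommGroup.exists_apply_ne_one_of_hasEnoughRootsOfUnity B k hb'
  let χ : B →* W := ((WittVector.teichmuller l).comp (Units.coeHom k)).comp ψ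
  have hχ : χ ≠ 1 := by
    intro h
    apply hψ
    apply Units.ext
    have h1 : WittVector.teichmuller l ((ψ b' : kˣ) : k) = 1 := DFunLike.congr_fun h b'
    have h2 := congrArg (WittVector.constantCoeff) h1
    rw [map_one] at h2
    have h3 : WittVector.constantCoeff (WittVector.teichmuller l ((ψ b' : kˣ) : k)) =
        ((ψ b' : kˣ) : k) := by
      simp [WittVector.constantCoeff, WittVector.teichmuller_coeff_zero]
    rw [h3] at h2
    rw [h2]; rfl
  obtain ⟨cu, hcu⟩ := isUnit_natCast (k := k) l p hlnp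
  obtain ⟨κu, hκu⟩ := isUnit_natCast (k := k) l (n - 1) hln1
  let c : W := ((cu⁻¹ : Wˣ) : W)
  let κ : W := ((κu⁻¹ : Wˣ) : W)
  have hc : c * (Fintype.card B : W) = 1 := by
    rw [hBcard', ← hcu]; exact Units.inv_mul cu
  have hκ : κ * ((n : W) - 1) = 1 := by
    have h1 : ((n : W) - 1) = ((n - 1 : ℕ) : W) := by
      rw [Nat.cast_sub (show 1 ≤ n by omega), Nat.cast_one]
    rw [h1, ← hκu]; exact Units.inv_mul κu
  have hF : ∀ y : B, y ≠ 1 → Nat.card {x : G // x * (y : G) * x⁻¹ ∈ N} =
      Nat.card {x : G // x * b * x⁻¹ ∈ N} := by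
    intro y hy
    apply Nat.card_congr
    apply Equiv.subtypeEquivRight
    intro x
    have hconj : ∀ (z : G) (i : ℤ), x * z ^ i * x⁻¹ = (x * z * x⁻¹) ^ i := by
      intro z i; rw [conj_zpow]
    constructor
    · intro h
      have h1 : b' ∈ Subgroup.zpowers y := mem_zpowers_of_prime_card hBcard hy
      obtain ⟨i, hi⟩ := Subgroup.mem_zpowers_iff.mp h1
      have h2 : (y : G) ^ i = b := by
        have := congrArg (fun z : B => (z : G)) hi
        simpa using this
      rw [← h2, hconj]
      exact N.zpow_mem h i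
    · intro h
      obtain ⟨i, hi⟩ := Subgroup.mem_zpowers_iff.mp y.2
      rw [← hi, hconj]
      exact N.zpow_mem h i
  -- Frobenius
  let Fr : W →+* W := (WittVector.frobenius : WittVector l k →+* WittVector l k) ^ j
  have hψpow : ∀ x : B, ((ψ x : kˣ) : k) ^ l ^ j = ((ψ x⁻¹ : kˣ) : k) := by
    intro x
    have h1 : p ∣ l ^ j + 1 := by
      rw [← ZMod.natCast_eq_zero_iff]
      push_cast
      rw [hj]; ring
    have h2 : x ^ (l ^ j + 1) = 1 := by
      obtain ⟨t, ht⟩ := h1
      have h3 : x ^ p = 1 := by rw [← hBcard']; exact pow_card_eq_one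
      rw [ht, pow_mul, h3, one_pow]
    have h3 : x ^ l ^ j = x⁻¹ := by
      rw [pow_succ] at h2
      exact eq_inv_of_mul_eq_one_left h2
    rw [← h3, map_pow]
    push_cast
    rfl
  have hFrχ : ∀ x : B, Fr (χ x) = χ x⁻¹ := by
    intro x
    change Fr (WittVector.teichmuller l ((ψ x : kˣ) : k)) =
      WittVector.teichmuller l ((ψ x⁻¹ : kˣ) : k)
    rw [frobenius_pow_teichmuller, hψpow]
  have hl0 : (l : W) ≠ 0 := WittVector.p_nonzero l k
  have hlu : ¬ IsUnit (l : W) := not_isUnit_prime l
  have hn' : ¬ l ∣ n / l ^ n.factorization l := Nat.not_dvd_ordCompl hlp (by omega)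
  obtain ⟨w, hw⟩ := isUnit_natCast (k := k) l (n / l ^ n.factorization l) hn'
  have hnfac : (n : W) = (l : W) ^ n.factorization l * (w : W) := by
    have h1 : l ^ n.factorization l * (n / l ^ n.factorization l) = n :=
      Nat.ordProj_mul_ordCompl_eq_self n l
    rw [hw]
    exact natCast_factor n l _ _ h1
  have hFeven : Even (Nat.card {x : G // x * b * x⁻¹ ∈ N}) :=
    even_count_abstract (R := W) N D n hn2 hneven hD hNcard B χ hχ c κ hc hκ _ hF Fr hFrχ
      l hl0 hlu (fun y hy => WittVector.exists_eq_pow_p_mul' y hy) _ hl w hnfac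
  have hfin : Nat.card {x : G // x⁻¹ * b * x ∈ N} = Nat.card {x : G // x * b * x⁻¹ ∈ N} := by
    apply Nat.card_congr
    refine (Equiv.inv G).subtypeEquiv fun x => ?_
    simp
  rw [hfin]
  exact hFeven

end Pool.Agent.LibH97.AffDiff
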