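import Mathlib

/-!
A parity statement for finite solvable groups of odd order: if `N` is a subgroup whose index is
prime to the prime divisor `p` of the order, then some element `g` of order `p` satisfies
`x⁻¹ * g * x ∈ N` for an odd number of `x`.
-/

universe u

namespace Pool.Agent.LibH97.AffDiff

/-- A nontrivial solvable group has a nontrivial normal subgroup which is commutative. -/
theorem exists_abelian_normal {G : Type*} [Group G] [Group.IsSolvable G] [Nontrivial G] :
    ∃ A : Subgroup G, A.Normal ∧ A ≠ ⊥ ∧ ∀ a ∈ A, ∀ b ∈ A, a * b = b * a := by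
  classical
  have hex : ∃ n, derivedSeries G n = ⊥ := Group.IsSolvable.solvable
  have hne : Nat.find hex ≠ 0 := by
    intro h
    have h1 := Nat.find_spec hex
    rw [h, derivedSeries_zero] at h1
    exact top_ne_bot h1
  obtain ⟨m, hm⟩ := Nat.exists_eq_succ_of_ne_zero hne
  refine ⟨derivedSeries G m, derivedSeries_normal G m, ?_, ?_⟩
  · exact Nat.find_min hex (by omega)
  · have h1 := Nat.find_spec hex
    rw [hm, Nat.succ_eq_add_one, derivedSeries_succ] at h1
    intro a ha b hb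
    have h2 := Subgroup.commutator_mem_commutator ha hb
    rw [h1, Subgroup.mem_bot, commutatorElement_eq_one_iff_mul_comm] at h2
    exact h2

/-- If `N` has index prime to `p` in the join with the normal subgroup `A`, then any element of
order `p` of `A ⊔ N` is conjugate by an element of `A` to an element of `N`. -/
theorem exists_conj_mem {G : Type*} [Group G] [Finite G] (A N : Subgroup G) [A.Normal]
    (p : ℕ) [Fact p.Prime] (hN : ¬ p ∣ N.index) (h : G) (hh : orderOf h = p)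
    (hmem : h ∈ A ⊔ N) : ∃ a ∈ A, a⁻¹ * h * a ∈ N := by
  classical
  set M : Subgroup G := A ⊔ N with hM
  have hNM : N ≤ M := le_sup_right
  let h' : M := ⟨h, hmem⟩
  let N' : Subgroup M := N.subgroupOf M
  have hord : orderOf h' = p := by rw [← hh]; exact Subgroup.orderOf_mk h hmem
  have hpg : IsPGroup p (Subgroup.zpowers h') := by
    apply IsPGroup.of_card (n := 1)
    rw [Nat.card_zpowers, hord, pow_one]
  have hidx : ¬ p ∣ Nat.card (M ⧸ N') := by
    intro hd
    apply hN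
    have h1 : N.relIndex M ∣ N.index := Dvd.intro _ (Subgroup.relIndex_mul_index hNM)
    exact dvd_trans hd h1
  obtain ⟨y, hy⟩ := hpg.nonempty_fixed_point_of_prime_not_dvd_card (M ⧸ N') hidx
  obtain ⟨y0, rfl⟩ := QuotientGroup.mk_surjective y
  have h1 := hy ⟨h', Subgroup.mem_zpowers h'⟩
  have h2 : ((h' * y0 : M) : M ⧸ N') = (y0 : M ⧸ N') := h1
  rw [eq_comm, QuotientGroup.eq] at h2
  have h3 : (y0 : G)⁻¹ * (h * (y0 : G)) ∈ N := h2
  obtain ⟨a, ha, ν, hν, haν⟩ := Subgroup.mem_sup_of_normal_left.mp y0.2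
  refine ⟨a, ha, ?_⟩
  rw [← haν] at h3
  have h4 := N.mul_mem (N.mul_mem hν h3) (N.inv_mem hν)
  have h5 : ν * ((a * ν)⁻¹ * (h * (a * ν))) * ν⁻¹ = a⁻¹ * h * a := by group
  rwa [h5] at h4

/-- The lift of an element of order `p` along the quotient by a subgroup of order prime
to `p`. -/
theorem exists_lift_order {G : Type*} [Group G] [Finite G] (A : Subgroup G) [A.Normal]
    (p : ℕ) [Fact p.Prime] (hA : ¬ p ∣ Nat.card A) (q : G ⧸ A) (hq : orderOf q = p) :
    ∃ g : G, (g : G ⧸ A) = q ∧ orderOf g = p := by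
  obtain ⟨g₀, rfl⟩ := QuotientGroup.mk_surjective q
  have hp : p.Prime := Fact.out
  have hco : Nat.Coprime p (Nat.card A) := (Nat.Prime.coprime_iff_not_dvd hp).mpr hA
  obtain ⟨t, ht1, ht2⟩ := Nat.chineseRemainder hco 1 0
  have hmk : ∀ k : ℕ, ((g₀ ^ k : G) : G ⧸ A) = (g₀ : G ⧸ A) ^ k := fun k => rfl
  have hgA : g₀ ^ p ∈ A := by
    rw [← QuotientGroup.eq_one_iff, hmk, ← hq, pow_orderOf_eq_one]
  have hgm : (g₀ ^ p) ^ Nat.card A = 1 := by
    have h1 : (⟨g₀ ^ p, hgA⟩ : A) ^ Nat.card A = 1 := pow_card_eq_one'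
    have h2 := congrArg (fun z : A => (z : G)) h1
    exact h2
  have hmkt : ((g₀ ^ t : G) : G ⧸ A) = (g₀ : G ⧸ A) := by
    rw [hmk]
    have h1 : (g₀ : G ⧸ A) ^ t = (g₀ : G ⧸ A) ^ 1 := by
      rw [pow_eq_pow_iff_modEq, hq]
      exact ht1
    rw [h1, pow_one]
  refine ⟨g₀ ^ t, hmkt, ?_⟩
  apply orderOf_eq_prime
  · obtain ⟨s, hs⟩ : Nat.card A ∣ t := (Nat.modEq_zero_iff_dvd).mp ht2
    rw [← pow_mul, mul_comm, pow_mul, hs, pow_mul, hgm, one_pow]
  · intro h1
    rw [h1] at hmkt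
    have h2 : (g₀ : G ⧸ A) = 1 := by rw [← hmkt]; rfl
    rw [h2, orderOf_one] at hq
    exact hp.one_lt.ne hq

/-- The count in one coset of `A`. -/
theorem odd_count_coset {G : Type*} [Group G] [Finite G] (hG : Odd (Nat.card G))
    (A N : Subgroup G) [A.Normal] (hA : ∀ a ∈ A, ∀ b ∈ A, a * b = b * a)
    (h : G) (a₀ : G) (ha₀ : a₀ ∈ A) (hmem : a₀⁻¹ * h * a₀ ∈ N) :
    Odd (Nat.card {a : A // (a : G)⁻¹ * h * a ∈ N}) := by
  set h₀ := a₀⁻¹ * h * a₀ with hh₀
  let S : Subgroup G :=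
    { carrier := {a | a ∈ A ∧ h₀⁻¹ * a⁻¹ * h₀ * a ∈ N}
      one_mem' := ⟨A.one_mem, by simp [N.one_mem]⟩
      mul_mem' := by
        rintro a b ⟨ha, ha'⟩ ⟨hb, hb'⟩
        refine ⟨A.mul_mem ha hb, ?_⟩
        have e1 : h₀⁻¹ * b⁻¹ * h₀ ∈ A := by
          have := ‹A.Normal›.conj_mem b⁻¹ (A.inv_mem hb) h₀⁻¹
          simpa using this
        have e2 : h₀⁻¹ * a⁻¹ * h₀ ∈ A := by
          have := ‹A.Normal›.conj_mem a⁻¹ (A.inv_mem ha) h₀⁻¹
          simpa using this
        have e3 : h₀⁻¹ * (a * b)⁻¹ * h₀ * (a * b) =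
            (h₀⁻¹ * a⁻¹ * h₀ * a) * (h₀⁻¹ * b⁻¹ * h₀ * b) := by
          have c1 : h₀⁻¹ * (a * b)⁻¹ * h₀ * (a * b) =
              (h₀⁻¹ * b⁻¹ * h₀) * ((h₀⁻¹ * a⁻¹ * h₀) * a) * b := by group
          have c2 : (h₀⁻¹ * b⁻¹ * h₀) * ((h₀⁻¹ * a⁻¹ * h₀) * a) =
              ((h₀⁻¹ * a⁻¹ * h₀) * a) * (h₀⁻¹ * b⁻¹ * h₀) :=
            hA _ e1 _ (A.mul_mem e2 ha)
          rw [c1, c2]; group
        have e6 := N.mul_mem ha' hb'
        rw [← e3] at e6
        exact e6
      inv_mem' := by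
        rintro a ⟨ha, ha'⟩
        refine ⟨A.inv_mem ha, ?_⟩
        have e2 : h₀⁻¹ * a⁻¹ * h₀ ∈ A := by
          have := ‹A.Normal›.conj_mem a⁻¹ (A.inv_mem ha) h₀⁻¹
          simpa using this
        have e4 : h₀⁻¹ * a * h₀ ∈ A := by
          have := ‹A.Normal›.conj_mem a ha h₀⁻¹
          simpa using this
        have e5 : h₀⁻¹ * a⁻¹⁻¹ * h₀ * a⁻¹ = (h₀⁻¹ * a⁻¹ * h₀ * a)⁻¹ := by
          have c1 : (h₀⁻¹ * a⁻¹ * h₀ * a)⁻¹ = a⁻¹ * (h₀⁻¹ * a * h₀) := by group
          rw [c1, inv_inv]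
          exact hA _ e4 _ (A.inv_mem ha)
        have e6 := N.inv_mem ha'
        rw [← e5] at e6
        exact e6 }
  have hSodd : Odd (Nat.card S) := by
    obtain ⟨c, hc⟩ := S.card_subgroup_dvd_card
    rw [hc] at hG
    exact (Nat.odd_mul.mp hG).1
  have hcard : Nat.card {a : A // (a : G)⁻¹ * h * a ∈ N} = Nat.card S := by
    apply Nat.card_congr
    have key : ∀ a : G, (a₀ * a)⁻¹ * h * (a₀ * a) ∈ N ↔ h₀⁻¹ * a⁻¹ * h₀ * a ∈ N := by
      intro a
      have e : (a₀ * a)⁻¹ * h * (a₀ * a) = h₀ * (h₀⁻¹ * a⁻¹ * h₀ * a) := by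
        rw [hh₀]; group
      rw [e]
      exact N.mul_mem_cancel_left hmem
    refine
      { toFun := fun a => ⟨a₀⁻¹ * (a.1 : G), A.mul_mem (A.inv_mem ha₀) a.1.2, ?_⟩
        invFun := fun s => ⟨⟨a₀ * s.1, A.mul_mem ha₀ s.2.1⟩, ?_⟩
        left_inv := ?_
        right_inv := ?_ }
    · rw [← key]
      have : a₀ * (a₀⁻¹ * (a.1 : G)) = (a.1 : G) := by group
      rw [this]; exact a.2
    · exact (key _).mpr s.2.2
    · intro a
      apply Subtype.ext; apply Subtype.ext
      simp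
    · intro s
      apply Subtype.ext
      simp
  rw [hcard]
  exact hSodd

/-- The parity statement. -/
theorem exists_odd_count : ∀ (m : ℕ) (G : Type u) [Group G] [Finite G] [Group.IsSolvable G],
    Nat.card G = m → Odd (Nat.card G) → ∀ (N : Subgroup G) (p : ℕ) [Fact p.Prime],
    p ∣ Nat.card G → ¬ p ∣ N.index →
    ∃ g : G, orderOf g = p ∧ Odd (Nat.card {x : G // x⁻¹ * g * x ∈ N}) := by
  intro m
  induction m using Nat.strong_induction_on with
  | _ m ih =>
  intro G _ _ _ hm hG N p _ hp hN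
  classical
  have hpp : p.Prime := Fact.out
  have : Nontrivial G := by
    rw [← Finite.one_lt_card_iff_nontrivial]
    exact lt_of_lt_of_le hpp.one_lt (Nat.le_of_dvd Nat.card_pos hp)
  obtain ⟨A, hAn, hA0, hA⟩ := exists_abelian_normal (G := G)
  have := hAn
  by_cases hpA : p ∣ Nat.card A
  · -- a normal subgroup of exponent `p`
    obtain ⟨a, ha⟩ := exists_prime_orderOf_dvd_card' (G := A) p hpA
    let S : Subgroup G :=
      { carrier := {x | x ∈ A ∧ x ^ p = 1}
        one_mem' := ⟨A.one_mem, one_pow p⟩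
        mul_mem' := by
          rintro x y ⟨hx, hx'⟩ ⟨hy, hy'⟩
          refine ⟨A.mul_mem hx hy, ?_⟩
          have hc : Commute x y := hA x hx y hy
          rw [hc.mul_pow, hx', hy', one_mul]
        inv_mem' := by
          rintro x ⟨hx, hx'⟩
          exact ⟨A.inv_mem hx, by rw [inv_pow, hx', inv_one]⟩ }
    have hSn : ∀ x ∈ S, ∀ g : G, g * x * g⁻¹ ∈ S := by
      rintro x ⟨hx, hx'⟩ g
      refine ⟨hAn.conj_mem x hx g, ?_⟩
      rw [conj_pow, hx']; simp
    have hSp : IsPGroup p S := by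
      intro x
      refine ⟨1, ?_⟩
      rw [pow_one]
      apply Subtype.ext
      exact x.2.2
    have hidx : ¬ p ∣ Nat.card (G ⧸ N) := hN
    obtain ⟨y, hy⟩ := hSp.nonempty_fixed_point_of_prime_not_dvd_card (G ⧸ N) hidx
    obtain ⟨y0, rfl⟩ := QuotientGroup.mk_surjective y
    have hSN : ∀ x ∈ S, x ∈ N := by
      intro x hx
      have h1 : y0 * x * y0⁻¹ ∈ S := hSn x hx y0
      have h2 := hy ⟨_, h1⟩
      have h3 : (((y0 * x * y0⁻¹) * y0 : G) : G ⧸ N) = (y0 : G ⧸ N) := h2
      rw [eq_comm, QuotientGroup.eq] at h3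
      have h4 : y0⁻¹ * (y0 * x * y0⁻¹ * y0) = x := by group
      rwa [h4] at h3
    have ha' : orderOf (a : G) = p := by rw [← ha]; exact Subgroup.orderOf_coe a
    refine ⟨a, ha', ?_⟩
    have haS : (a : G) ∈ S := ⟨a.2, by rw [← ha']; exact pow_orderOf_eq_one _⟩
    have hall : ∀ x : G, x⁻¹ * (a : G) * x ∈ N := by
      intro x
      apply hSN
      have := hSn a haS x⁻¹
      simpa using this
    have : Nat.card {x : G // x⁻¹ * (a : G) * x ∈ N} = Nat.card G :=
      Nat.card_congr (Equiv.subtypeUnivEquiv hall)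
    rw [this]; exact hG
  · -- pass to the quotient by `A`
    have hcard := A.card_eq_card_quotient_mul_card_subgroup
    have hAcard : 1 < Nat.card A := A.one_lt_card_iff_ne_bot.mpr hA0
    have hlt : Nat.card (G ⧸ A) < m := by
      rw [← hm, hcard]
      have : 0 < Nat.card (G ⧸ A) := Nat.card_pos
      nlinarith
    have hoddQ : Odd (Nat.card (G ⧸ A)) := by
      rw [hcard] at hG
      exact (Nat.odd_mul.mp hG).1
    have hpQ : p ∣ Nat.card (G ⧸ A) := by
      rw [hcard] at hp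
      exact (hpp.dvd_mul.mp hp).resolve_right hpA
    have hidxQ : ¬ p ∣ (N.map (QuotientGroup.mk' A)).index := by
      intro hd
      exact hN (hd.trans (N.index_map_dvd (QuotientGroup.mk'_surjective A)))
    obtain ⟨q, hq, hqodd⟩ := ih _ hlt (G ⧸ A) rfl hoddQ (N.map (QuotientGroup.mk' A)) p hpQ hidxQ
    obtain ⟨g, hgq, hg⟩ := exists_lift_order A p hpA q hq
    refine ⟨g, hg, ?_⟩
    let P : G → Prop := fun x => x⁻¹ * g * x ∈ N
    let c : G ⧸ A → ℕ := fun q' => Nat.card {x : G // (x : G ⧸ A) = q' ∧ P x}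
    have hfib : ∀ q' : G ⧸ A, (Odd (c q') ↔ q'⁻¹ * q * q' ∈ N.map (QuotientGroup.mk' A)) := by
      intro q'
      obtain ⟨x0, rfl⟩ := QuotientGroup.mk_surjective q'
      have hcard2 : c (x0 : G ⧸ A) =
          Nat.card {a : A // (a : G)⁻¹ * (x0⁻¹ * g * x0) * a ∈ N} := by
        apply Nat.card_congr
        refine
          { toFun := fun x => ⟨⟨x0⁻¹ * x.1, ?_⟩, ?_⟩
            invFun := fun a => ⟨x0 * (a.1 : G), ?_, ?_⟩
            left_inv := ?_
            right_inv := ?_ }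
        · exact QuotientGroup.eq.mp x.2.1.symm
        · have h1 : (x0⁻¹ * x.1)⁻¹ * (x0⁻¹ * g * x0) * (x0⁻¹ * x.1) = x.1⁻¹ * g * x.1 := by
            group
          simp only
          rw [h1]
          exact x.2.2
        · rw [eq_comm, QuotientGroup.eq]
          have h1 : x0⁻¹ * (x0 * (a.1 : G)) = a.1 := by group
          rw [h1]
          exact a.1.2
        · have h1 : (x0 * (a.1 : G))⁻¹ * g * (x0 * (a.1 : G)) =
              (a.1 : G)⁻¹ * (x0⁻¹ * g * x0) * a.1 := by group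
          change (x0 * (a.1 : G))⁻¹ * g * (x0 * (a.1 : G)) ∈ N
          rw [h1]
          exact a.2
        · intro x
          apply Subtype.ext
          simp
        · intro a
          apply Subtype.ext; apply Subtype.ext
          simp
      rw [hcard2]
      have hmkx : ((x0⁻¹ * g * x0 : G) : G ⧸ A) = (x0 : G ⧸ A)⁻¹ * q * (x0 : G ⧸ A) := by
        rw [← hgq]; rfl
      constructor
      · intro hodd
        obtain ⟨a, ha⟩ : ∃ a : A, (a : G)⁻¹ * (x0⁻¹ * g * x0) * a ∈ N := by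
          by_contra hcon
          push Not at hcon
          have : IsEmpty {a : A // (a : G)⁻¹ * (x0⁻¹ * g * x0) * a ∈ N} :=
            ⟨fun a => hcon a.1 a.2⟩
          rw [Nat.card_of_isEmpty] at hodd
          exact absurd hodd (by decide)
        rw [← hmkx]
        refine ⟨_, ha, ?_⟩
        have ha1 : ((a : G) : G ⧸ A) = 1 := (QuotientGroup.eq_one_iff _).mpr a.2
        change ((a : G) : G ⧸ A)⁻¹ * ((x0⁻¹ * g * x0 : G) : G ⧸ A) * ((a : G) : G ⧸ A) = _
        rw [ha1]; simp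
      · intro hmem
        rw [← hmkx] at hmem
        obtain ⟨ν, hν, hν2⟩ := hmem
        have hin : x0⁻¹ * g * x0 ∈ A ⊔ N := by
          have h1 : ν⁻¹ * (x0⁻¹ * g * x0) ∈ A := QuotientGroup.eq.mp hν2
          have h2 : x0⁻¹ * g * x0 = ν * (ν⁻¹ * (x0⁻¹ * g * x0)) := by group
          rw [h2]
          exact (A ⊔ N).mul_mem (Subgroup.mem_sup_right hν) (Subgroup.mem_sup_left h1)
        have hord : orderOf (x0⁻¹ * g * x0) = p := by
          rw [← hg]
          have h1 := orderOf_injective (MulAut.conj x0⁻¹).toMonoidHom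
            (MulAut.conj x0⁻¹).injective g
          simpa using h1
        obtain ⟨a₀, ha₀, ha₀'⟩ := exists_conj_mem A N p hN _ hord hin
        exact odd_count_coset hG A N hA _ a₀ ha₀ ha₀'
    have : Fintype G := Fintype.ofFinite G
    have : Fintype (G ⧸ A) := Fintype.ofFinite _
    have hsum : Nat.card {x : G // P x} = ∑ q' : G ⧸ A, c q' := by
      have h1 := Finset.card_eq_sum_card_fiberwise (s := Finset.univ.filter P)
        (t := (Finset.univ : Finset (G ⧸ A))) (f := fun x : G => (x : G ⧸ A))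
        (fun x _ => Finset.mem_coe.mpr (Finset.mem_univ _))
      rw [Nat.card_eq_fintype_card, Fintype.card_subtype, h1]
      refine Finset.sum_congr rfl fun q' _ => ?_
      simp only [c]
      rw [Nat.card_eq_fintype_card, Fintype.card_subtype, Finset.filter_filter]
      congr 1
      ext x
      simp only [Finset.mem_filter, Finset.mem_univ, true_and]
      exact and_comm
    change Odd (Nat.card {x : G // P x})
    rw [hsum, Finset.odd_sum_iff_odd_card_odd]
    have h2 : (Finset.univ.filter fun q' : G ⧸ A => Odd (c q')) =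
        Finset.univ.filter fun q' : G ⧸ A => q'⁻¹ * q * q' ∈ N.map (QuotientGroup.mk' A) := by
      ext q'
      simp only [Finset.mem_filter, Finset.mem_univ, true_and]
      exact hfib q'
    rw [h2]
    rw [Nat.card_eq_fintype_card, Fintype.card_subtype] at hqodd
    exact hqodd

end Pool.Agent.LibH97.AffDiff
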