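import Mathlib

/-!
Alternating matrices of odd size have determinant zero, and the rank of an alternating
matrix over a field is even (any characteristic).
-/

namespace Pool.Agent.LibH97.AffDiff

open Matrix

/-- The universal alternating matrix of size `m`. -/
noncomputable def univAlt (m : ℕ) : Matrix (Fin m) (Fin m) (MvPolynomial (Fin m × Fin m) ℤ) :=
  fun i j => if i < j then MvPolynomial.X (i, j) else if j < i then - MvPolynomial.X (j, i) else 0

theorem univAlt_transpose (m : ℕ) : (univAlt m)ᵀ = - univAlt m := by
  ext1 i j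
  show univAlt m j i = - univAlt m i j
  unfold univAlt
  rcases lt_trichotomy i j with h | h | h
  · rw [if_neg (not_lt.mpr h.le), if_pos h, if_pos h]
  · subst h; simp
  · rw [if_pos h, if_neg (not_lt.mpr h.le), if_pos h, neg_neg]

theorem det_univAlt (m : ℕ) (hm : Odd m) : (univAlt m).det = 0 := by
  have h1 : (univAlt m).det = - (univAlt m).det := by
    conv_lhs => rw [← det_transpose, univAlt_transpose, det_neg]
    simp [hm.neg_one_pow]
  exact self_eq_neg.mp h1

theorem det_fin_eq_zero {R : Type*} [CommRing R] (m : ℕ) (hm : Odd m)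
    (A : Matrix (Fin m) (Fin m) R) (hskew : ∀ i j, A i j = - A j i)
    (hdiag : ∀ i, A i i = 0) : A.det = 0 := by
  have hA : A = (univAlt m).map
      (MvPolynomial.eval₂Hom (Int.castRingHom R) (fun p : Fin m × Fin m => A p.1 p.2)) := by
    ext i j
    simp only [map_apply, univAlt]
    rcases lt_trichotomy i j with h | h | h
    · simp [h]
    · subst h; simp [hdiag]
    · simp only [not_lt.mpr h.le, if_false, h, if_true, map_neg, MvPolynomial.coe_eval₂Hom,
        MvPolynomial.eval₂_X]
      exact hskew i j
  rw [hA, ← RingHom.mapMatrix_apply, ← RingHom.map_det, det_univAlt m hm, map_zero]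

/-- An alternating matrix of odd size over a commutative ring has determinant zero. -/
theorem det_eq_zero_of_alternating {ι R : Type*} [Fintype ι] [DecidableEq ι] [CommRing R]
    (hodd : Odd (Fintype.card ι)) (A : Matrix ι ι R) (hskew : ∀ i j, A i j = - A j i)
    (hdiag : ∀ i, A i i = 0) : A.det = 0 := by
  have e := Fintype.equivFin ι
  rw [← det_submatrix_equiv_self e.symm A]
  exact det_fin_eq_zero _ hodd _ (fun i j => hskew _ _) (fun i => hdiag _)

/-- The rank of an alternating matrix over a field is even. -/
theorem even_rank_of_alternating {ι K : Type*} [Fintype ι] [DecidableEq ι] [Field K]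
    (A : Matrix ι ι K) (hskew : ∀ i j, A i j = - A j i)
    (hdiag : ∀ i, A i i = 0) : Even A.rank := by
  classical
  obtain ⟨U, hU⟩ := Submodule.exists_isCompl (LinearMap.ker A.mulVecLin)
  have hrank : A.rank = Module.finrank K U := by
    have h1 := LinearMap.finrank_range_add_finrank_ker A.mulVecLin
    have h2 := Submodule.finrank_add_eq_of_isCompl hU
    unfold Matrix.rank
    omega
  rw [hrank]
  by_contra hnot
  rw [Nat.not_even_iff_odd] at hnot
  set r := Module.finrank K U with hr
  let b : Module.Basis (Fin r) K U := Module.finBasis K U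
  let B : Matrix (Fin r) (Fin r) K := fun s t => (b s : ι → K) ⬝ᵥ A.mulVec (b t : ι → K)
  have hskew' : ∀ x y : ι → K, x ⬝ᵥ A.mulVec y = - (y ⬝ᵥ A.mulVec x) := by
    intro x y
    have hAt : Aᵀ = -A := by
      ext i j
      simpa using hskew j i
    rw [dotProduct_mulVec, ← mulVec_transpose, hAt, dotProduct_comm, neg_mulVec, dotProduct_neg]
  have halt : ∀ x : ι → K, x ⬝ᵥ A.mulVec x = 0 := by
    intro x
    simp only [dotProduct, mulVec, Finset.mul_sum]
    rw [← Finset.sum_product']
    refine Finset.sum_involution (fun p _ => (p.2, p.1)) ?_ ?_ ?_ ?_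
    · rintro ⟨i, j⟩ _
      simp only
      rw [hskew i j]
      ring
    · rintro ⟨i, j⟩ _ hne heq
      simp only [Prod.mk.injEq] at heq
      apply hne
      simp [heq.1, hdiag]
    · intro p _; simp
    · intro p _; simp
  have hdet : B.det = 0 := by
    apply det_eq_zero_of_alternating
    · simpa using hnot
    · intro i j; exact hskew' _ _
    · intro i; exact halt _
  obtain ⟨v, hv, hBv⟩ := Matrix.exists_mulVec_eq_zero_iff.mpr hdet
  set u : ι → K := ∑ t, v t • (b t : ι → K) with hu
  have huU : u ∈ U := Submodule.sum_mem _ (fun t _ => Submodule.smul_mem _ _ (b t).2)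
  have hbu : ∀ s, (b s : ι → K) ⬝ᵥ A.mulVec u = 0 := by
    intro s
    have := congrFun hBv s
    simp only [mulVec, dotProduct, Pi.zero_apply] at this
    rw [hu, mulVec_sum, dotProduct_sum]
    calc ∑ t, (b s : ι → K) ⬝ᵥ A.mulVec (v t • (b t : ι → K))
        = ∑ t, B s t * v t := by
          refine Finset.sum_congr rfl fun t _ => ?_
          rw [mulVec_smul, dotProduct_smul, smul_eq_mul, mul_comm]
      _ = 0 := this
  have hUu : ∀ w ∈ U, w ⬝ᵥ A.mulVec u = 0 := by
    intro w hw
    have hw' : w = ∑ s, (b.repr ⟨w, hw⟩ s) • (b s : ι → K) := by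
      have h := b.sum_repr ⟨w, hw⟩
      have h2 := congrArg (Subtype.val) h
      simp only [Submodule.coe_sum, Submodule.coe_smul] at h2
      exact h2.symm
    rw [hw', sum_dotProduct]
    refine Finset.sum_eq_zero fun s _ => ?_
    rw [smul_dotProduct, hbu, smul_zero]
  have hall : ∀ w : ι → K, w ⬝ᵥ A.mulVec u = 0 := by
    intro w
    obtain ⟨z, hz, y, hy, rfl⟩ : ∃ z ∈ LinearMap.ker A.mulVecLin, ∃ y ∈ U, z + y = w := by
      have : w ∈ LinearMap.ker A.mulVecLin ⊔ U := by rw [hU.sup_eq_top]; trivial
      exact Submodule.mem_sup.mp this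
    rw [add_dotProduct, hUu y hy, add_zero, hskew']
    have hz' : A.mulVec z = 0 := by simpa using hz
    rw [hz']; simp
  have hAu : A.mulVec u = 0 := by
    funext i
    have := hall (Pi.single i 1)
    simpa using this
  have hu0 : u = 0 := by
    have h1 : u ∈ LinearMap.ker A.mulVecLin ⊓ U := ⟨by simpa using hAu, huU⟩
    rw [hU.inf_eq_bot] at h1
    simpa using h1
  apply hv
  have hsum : ∑ t, v t • b t = 0 := by
    apply Subtype.ext
    simp only [Submodule.coe_sum, Submodule.coe_smul, Submodule.coe_zero]
    exact hu0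
  have := Fintype.linearIndependent_iff.mp b.linearIndependent v hsum
  funext t
  exact this t

end Pool.Agent.LibH97.AffDiff
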