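import Mathlib

/-!
Arithmetic of the equation `X ^ 2 + p Y ^ 2 = Z ^ 2` with `p = 3 mod 4` prime: quadratic
reciprocity forces the residue class of `X` modulo `4` to be tied to that modulo `p`.
-/

namespace Pool.Agent.LibH97.AffDiff

open NumberTheorySymbols ZMod

theorem inert_dvd {p l : ℕ} (hl0 : (l : ℤ) ≠ 0)
    (h1 : ∀ a b : ℤ, (l : ℤ) ∣ a ^ 2 - p * b ^ 2 → (l : ℤ) ∣ a ∧ (l : ℤ) ∣ b)
    (h2 : ∀ a b : ℤ, (l : ℤ) ∣ a ^ 2 - (-p) * b ^ 2 → (l : ℤ) ∣ a ∧ (l : ℤ) ∣ b) (v : ℕ) :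
    ∀ X Y Z : ℤ, X ^ 2 + p * Y ^ 2 = Z ^ 2 → ((l : ℤ) ^ v ∣ X ↔ (l : ℤ) ^ v ∣ Z) := by
  induction v with
  | zero => intro X Y Z _; simp
  | succ v ih =>
    intro X Y Z h
    have key : (l : ℤ) ∣ X ∨ (l : ℤ) ∣ Z → (l : ℤ) ∣ X ∧ (l : ℤ) ∣ Y ∧ (l : ℤ) ∣ Z := by
      rintro (hX | hZ)
      · have h3 : (l : ℤ) ∣ Z ^ 2 - p * Y ^ 2 := by
          have : Z ^ 2 - p * Y ^ 2 = X * X := by linear_combination -h
          rw [this]
          exact dvd_mul_of_dvd_left hX _
        obtain ⟨h4, h5⟩ := h1 _ _ h3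
        exact ⟨hX, h5, h4⟩
      · have h3 : (l : ℤ) ∣ X ^ 2 - (-p) * Y ^ 2 := by
          have : X ^ 2 - (-p) * Y ^ 2 = Z * Z := by linear_combination h
          rw [this]
          exact dvd_mul_of_dvd_left hZ _
        obtain ⟨h4, h5⟩ := h2 _ _ h3
        exact ⟨h4, h5, hZ⟩
    have hdvd : ∀ W : ℤ, (l : ℤ) ^ (v + 1) ∣ W → (l : ℤ) ∣ W := fun W hW =>
      (dvd_pow_self _ (Nat.succ_ne_zero v)).trans hW
    have main : (l : ℤ) ∣ X ∧ (l : ℤ) ∣ Y ∧ (l : ℤ) ∣ Z →
        ((l : ℤ) ^ (v + 1) ∣ X ↔ (l : ℤ) ^ (v + 1) ∣ Z) := by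
      rintro ⟨⟨X', rfl⟩, ⟨Y', rfl⟩, ⟨Z', rfl⟩⟩
      have h3 : X' ^ 2 + p * Y' ^ 2 = Z' ^ 2 := by
        have h4 : (l : ℤ) ^ 2 * (X' ^ 2 + p * Y' ^ 2) = (l : ℤ) ^ 2 * Z' ^ 2 := by
          linear_combination h
        exact mul_left_cancel₀ (pow_ne_zero 2 hl0) h4
      rw [pow_succ', mul_dvd_mul_iff_left hl0, mul_dvd_mul_iff_left hl0]
      exact ih X' Y' Z' h3
    constructor
    · intro hX
      exact (main (key (Or.inl (hdvd _ hX)))).mp hX
    · intro hZ
      exact (main (key (Or.inr (hdvd _ hZ)))).mpr hZ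

/-- If all prime power contributions to a Jacobi symbol are trivial, it is trivial. -/
theorem jacobi_eq_one (a : ℤ) (m : ℕ) : m ≠ 0 →
    (∀ l, l.Prime → l ∣ m → J(a | l) ^ (m.factorization l) = 1) → J(a | m) = 1 := by
  induction m using Nat.recOnPrimeCoprime with
  | zero => intro h; exact absurd rfl h
  | prime_pow q k hq =>
    intro _ h
    rw [jacobiSym.pow_right]
    rcases Nat.eq_zero_or_pos k with rfl | hk
    · simp
    · have := h q hq (dvd_pow_self q hk.ne')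
      rwa [Nat.Prime.factorization_pow hq, Finsupp.single_eq_same] at this
  | coprime m₁ m₂ h₁ h₂ hc ih₁ ih₂ =>
    intro _ h
    have hm₁ : m₁ ≠ 0 := by omega
    have hm₂ : m₂ ≠ 0 := by omega
    rw [jacobiSym.mul_right' a hm₁ hm₂, ih₁ hm₁, ih₂ hm₂, one_mul]
    · intro l hl hlm
      have h3 := h l hl (dvd_mul_of_dvd_right hlm _)
      rw [Nat.factorization_mul hm₁ hm₂, Finsupp.add_apply] at h3
      have h4 : m₁.factorization l = 0 := by
        apply Nat.factorization_eq_zero_of_not_dvd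
        intro h5
        have := Nat.dvd_gcd h5 hlm
        rw [Nat.Coprime.gcd_eq_one hc] at this
        exact hl.one_lt.ne' (Nat.dvd_one.mp this)
      rwa [h4, zero_add] at h3
    · intro l hl hlm
      have h3 := h l hl (dvd_mul_of_dvd_left hlm _)
      rw [Nat.factorization_mul hm₁ hm₂, Finsupp.add_apply] at h3
      have h4 : m₂.factorization l = 0 := by
        apply Nat.factorization_eq_zero_of_not_dvd
        intro h5
        have := Nat.dvd_gcd hlm h5
        rw [Nat.Coprime.gcd_eq_one hc] at this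
        exact hl.one_lt.ne' (Nat.dvd_one.mp this)
      rwa [h4, add_zero] at h3

theorem arith_jacobi {p : ℕ} [hpf : Fact p.Prime] (hp : p % 4 = 3) (n k : ℕ) (hk : Even k)
    (hn0 : n ≠ 0)
    (hl : ∀ l : ℕ, l.Prime → l ∣ n → l % 4 = 3 → ¬ IsSquare (l : ZMod p))
    (c : ℕ) (hc : c = 1 ∨ c = 2) (X Y : ℤ) (hX : X % 2 = 1) (hpX : ¬ (p : ℤ) ∣ X)
    (h : X ^ 2 + p * Y ^ 2 = ((c : ℤ) * (n : ℤ) ^ k) ^ 2) : J(p | X.natAbs) = 1 := by
  have hX0 : X ≠ 0 := by rintro rfl; omega
  have hXn : X.natAbs ≠ 0 := Int.natAbs_ne_zero.mpr hX0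
  apply jacobi_eq_one _ _ hXn
  intro l hlp hlX
  have hlXZ : (l : ℤ) ∣ X := Int.natCast_dvd.mpr hlX
  have : Fact l.Prime := ⟨hlp⟩
  have hl2 : l ≠ 2 := by
    rintro rfl
    have : (2 : ℤ) ∣ X := hlXZ
    omega
  have hlodd : l % 2 = 1 := by
    rcases hlp.eq_two_or_odd with h' | h'
    · exact absurd h' hl2
    · exact h'
  have hlne : l ≠ p := by
    rintro rfl
    exact hpX hlXZ
  have hcop : Int.gcd (p : ℤ) l = 1 := by
    rw [Int.gcd_natCast_natCast]
    exact (Nat.coprime_primes hpf.out hlp).mpr hlne.symm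
  rcases jacobiSym.eq_one_or_neg_one hcop with hJ | hJ
  · rw [hJ, one_pow]
  · -- `l` divides `n`
    have hZ : (l : ℤ) ∣ (c : ℤ) * (n : ℤ) ^ k := by
      have h3 : (l : ℤ) ∣ ((c : ℤ) * (n : ℤ) ^ k) ^ 2 - p * Y ^ 2 := by
        have : ((c : ℤ) * (n : ℤ) ^ k) ^ 2 - p * Y ^ 2 = X * X := by linear_combination -h
        rw [this]
        exact dvd_mul_of_dvd_left hlXZ _
      exact (jacobiSym.prime_dvd_of_eq_neg_one hJ h3).1
    have hlc : ¬ l ∣ c := by
      rcases hc with rfl | rfl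
      · exact hlp.one_lt.ne' ∘ Nat.dvd_one.mp
      · intro h'
        exact hl2 ((Nat.prime_dvd_prime_iff_eq hlp Nat.prime_two).mp h')
    have hln : l ∣ n := by
      have h3 : l ∣ c * n ^ k := by exact_mod_cast hZ
      rcases (Nat.Prime.dvd_mul hlp).mp h3 with h' | h'
      · exact absurd h' hlc
      · exact hlp.dvd_of_dvd_pow h'
    have hl4 : l % 4 = 1 := by
      by_contra hne
      have hl3 : l % 4 = 3 := by omega
      have h3 := jacobiSym.quadratic_reciprocity_three_mod_four hp hl3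
      rw [hJ] at h3
      have h4 : J(l | p) = 1 := by omega
      exact hl l hlp hln hl3 (by
        have := ZMod.isSquare_of_jacobiSym_eq_one h4
        simpa using this)
    have hJ' : J(-(p : ℤ) | l) = -1 := by
      rw [jacobiSym.neg _ (Nat.odd_iff.mpr hlodd), hJ, ZMod.χ₄_nat_one_mod_four hl4]
      norm_num
    have hiff := inert_dvd (p := p) (l := l) (by exact_mod_cast hlp.ne_zero)
      (fun a b hab => jacobiSym.prime_dvd_of_eq_neg_one hJ hab)
      (fun a b hab => jacobiSym.prime_dvd_of_eq_neg_one hJ' hab)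
    have hfac : X.natAbs.factorization l = (c * n ^ k).factorization l := by
      have hcn : c * n ^ k ≠ 0 := by
        apply mul_ne_zero
        · rcases hc with rfl | rfl <;> norm_num
        · exact pow_ne_zero _ hn0
      apply le_antisymm
      · rw [← hlp.pow_dvd_iff_le_factorization hcn]
        have h3 := (hiff (X.natAbs.factorization l) X Y _ h).mp (by
          have := Nat.ordProj_dvd X.natAbs l
          have h5 : ((l ^ (X.natAbs.factorization l) : ℕ) : ℤ) ∣ X := Int.natCast_dvd.mpr this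
          exact_mod_cast h5)
        exact_mod_cast h3
      · rw [← hlp.pow_dvd_iff_le_factorization hXn]
        have h3 := (hiff ((c * n ^ k).factorization l) X Y _ h).mpr (by
          have := Nat.ordProj_dvd (c * n ^ k) l
          exact_mod_cast this)
        have h5 : ((l ^ ((c * n ^ k).factorization l) : ℕ) : ℤ) ∣ X := by exact_mod_cast h3
        exact Int.natCast_dvd.mp h5
    have hev : Even (X.natAbs.factorization l) := by
      have hc0 : c ≠ 0 := by rcases hc with rfl | rfl <;> norm_num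
      rw [hfac, Nat.factorization_mul hc0 (pow_ne_zero _ hn0), Finsupp.add_apply,
        Nat.factorization_eq_zero_of_not_dvd hlc, zero_add, Nat.factorization_pow,
        Finsupp.smul_apply, smul_eq_mul]
      exact hk.mul_right _
    rw [hJ]
    exact hev.neg_one_pow

theorem sign_contra_one {p : ℕ} (hp : p % 4 = 3) (X : ℤ) (hX : X % 4 = 1)
    (hpX : (p : ℤ) ∣ X + 1) (hJ : J(p | X.natAbs) = 1) : False := by
  have hpo : Odd p := Nat.odd_iff.mpr (by omega)
  rcases lt_or_ge 0 X with h0 | h0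
  · have hm : X.natAbs % 4 = 1 := by omega
    have h1 := jacobiSym.quadratic_reciprocity_one_mod_four hm hpo
    rw [hJ] at h1
    have h2 : J((X.natAbs : ℤ) | p) = J(-1 | p) := by
      apply jacobiSym.mod_left'
      rw [Int.natAbs_of_nonneg h0.le]
      apply Int.ModEq.symm
      rw [Int.modEq_iff_dvd]
      have : X - -1 = X + 1 := by ring
      rw [this]; exact hpX
    rw [h2, jacobiSym.at_neg_one hpo, ZMod.χ₄_nat_three_mod_four hp] at h1
    omega
  · have hm : X.natAbs % 4 = 3 := by omega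
    have h1 := jacobiSym.quadratic_reciprocity_three_mod_four hm hp
    rw [hJ] at h1
    have h2 : J((X.natAbs : ℤ) | p) = J(1 | p) := by
      apply jacobiSym.mod_left'
      rw [Int.ofNat_natAbs_of_nonpos h0]
      apply Int.ModEq.symm
      rw [Int.modEq_iff_dvd]
      have : -X - 1 = -(X + 1) := by ring
      rw [this]; exact (dvd_neg).mpr hpX
    rw [h2, jacobiSym.one_left] at h1
    omega

theorem sign_contra_two {p : ℕ} (hp : p % 8 = 3) (X : ℤ) (hX : X % 4 = 3)
    (hpX : (p : ℤ) ∣ X + 2) (hJ : J(p | X.natAbs) = 1) : False := by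
  have hp4 : p % 4 = 3 := by omega
  have hpo : Odd p := Nat.odd_iff.mpr (by omega)
  have h8 : J(2 | p) = -1 := by
    rw [jacobiSym.at_two hpo, ZMod.χ₈_nat_eq_if_mod_eight]
    rw [hp]
    have : p % 2 = 1 := by omega
    simp [this]
  rcases lt_or_ge 0 X with h0 | h0
  · have hm : X.natAbs % 4 = 3 := by omega
    have h1 := jacobiSym.quadratic_reciprocity_three_mod_four hm hp4
    rw [hJ] at h1
    have h2 : J((X.natAbs : ℤ) | p) = J(-2 | p) := by
      apply jacobiSym.mod_left'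
      rw [Int.natAbs_of_nonneg h0.le]
      apply Int.ModEq.symm
      rw [Int.modEq_iff_dvd]
      have : X - -2 = X + 2 := by ring
      rw [this]; exact hpX
    rw [h2, jacobiSym.neg _ hpo, h8, ZMod.χ₄_nat_three_mod_four hp4] at h1
    omega
  · have hm : X.natAbs % 4 = 1 := by omega
    have h1 := jacobiSym.quadratic_reciprocity_one_mod_four hm hpo
    rw [hJ] at h1
    have h2 : J((X.natAbs : ℤ) | p) = J(2 | p) := by
      apply jacobiSym.mod_left'
      rw [Int.ofNat_natAbs_of_nonpos h0]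
      apply Int.ModEq.symm
      rw [Int.modEq_iff_dvd]
      have : -X - 2 = -(X + 2) := by ring
      rw [this]; exact (dvd_neg).mpr hpX
    rw [h2, h8] at h1
    omega

theorem sq_even {a : ℤ} (h : a % 2 = 0) : ∃ t, a ^ 2 = 4 * t := by
  obtain ⟨b, rfl⟩ : ∃ b, a = 2 * b := ⟨a / 2, by omega⟩
  exact ⟨b ^ 2, by ring⟩

theorem sq_odd {a : ℤ} (h : a % 2 = 1) : ∃ t, a ^ 2 = 8 * t + 1 := by
  obtain ⟨b, rfl⟩ : ∃ b, a = 2 * b + 1 := ⟨a / 2, by omega⟩
  obtain ⟨c, hc⟩ : ∃ c, b * (b + 1) = 2 * c := by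
    obtain ⟨c, hc⟩ := Int.even_mul_succ_self b
    exact ⟨c, by rw [hc]; ring⟩
  exact ⟨c, by linear_combination 4 * hc⟩

theorem arith_contra {p : ℕ} [hpf : Fact p.Prime] (hp : p % 4 = 3) (n k : ℕ) (hk : Even k)
    (hn : n % 2 = 1)
    (hl : ∀ l : ℕ, l.Prime → l ∣ n → l % 4 = 3 → ¬ IsSquare (l : ZMod p))
    (x y e f u v : ℤ) (h1 : x ^ 2 + p * y ^ 2 = 4 * ((n : ℤ) ^ k) ^ 2) (h2 : (p : ℤ) ∣ x + 2)
    (h3 : 2 * x = e ^ 2 - p * f ^ 2 + 8 * u) (h4 : y = e * f + 4 * v) (h5 : (2 : ℤ) ∣ e - f)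
    (h6 : (2 : ℤ) ∣ u - v) : False := by
  have hn0 : n ≠ 0 := by rintro rfl; omega
  have hp2 : 2 < p := by
    have := hpf.out.two_le
    rcases Nat.lt_or_ge 2 p with h | h
    · exact h
    · have : p = 2 := le_antisymm h this
      omega
  have hpZ : Prime (p : ℤ) := Nat.prime_iff_prime_int.mp hpf.out
  have hpnd : ∀ m : ℕ, 0 < m → m < p → ¬ (p : ℤ) ∣ (m : ℤ) := by
    intro m hm hmp hd
    have := Nat.le_of_dvd hm (by exact_mod_cast hd)
    omega
  obtain ⟨q, hq⟩ : ∃ q : ℤ, (p : ℤ) = 4 * q + 3 := ⟨p / 4, by omega⟩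
  have hzodd : ((n : ℤ) ^ k) % 2 = 1 := by
    have : Odd ((n : ℤ) ^ k) := Odd.pow (by rw [Int.odd_iff]; omega)
    exact Int.odd_iff.mp this
  obtain ⟨t, ht⟩ := sq_odd hzodd
  rcases Int.emod_two_eq_zero_or_one e with he | he
  · -- both even
    have hf : f % 2 = 0 := by omega
    obtain ⟨e', rfl⟩ : ∃ b, e = 2 * b := ⟨e / 2, by omega⟩
    obtain ⟨f', rfl⟩ : ∃ b, f = 2 * b := ⟨f / 2, by omega⟩
    obtain ⟨w, hw⟩ : ∃ w, w = e' * f' + v := ⟨_, rfl⟩
    obtain ⟨X, hX⟩ : ∃ X, X = e' ^ 2 - p * f' ^ 2 + 2 * u := ⟨_, rfl⟩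
    have hxX : x = 2 * X := by
      have : 2 * x = 2 * (2 * X) := by rw [h3, hX]; ring
      exact mul_left_cancel₀ (by norm_num) this
    have hy : y = 4 * w := by rw [h4, hw]; ring
    have hXY : X ^ 2 + p * (2 * w) ^ 2 = ((n : ℤ) ^ k) ^ 2 := by
      have h7 : 4 * (X ^ 2 + p * (2 * w) ^ 2) = 4 * ((n : ℤ) ^ k) ^ 2 := by
        rw [← h1, hxX, hy]; ring
      exact mul_left_cancel₀ (by norm_num) h7
    have hXodd : X % 2 = 1 := by
      rcases Int.emod_two_eq_zero_or_one X with h | h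
      · exfalso
        obtain ⟨s, hs⟩ := sq_even h
        have h7 : 4 * s + 4 * (p * w ^ 2) = 8 * t + 1 := by
          rw [← hs, ← ht, ← hXY]; ring
        omega
      · exact h
    obtain ⟨s, hs⟩ := sq_odd hXodd
    have hwev : w % 2 = 0 := by
      rcases Int.emod_two_eq_zero_or_one w with h | h
      · exact h
      · exfalso
        obtain ⟨r, hr⟩ := sq_odd h
        have h7 : (8 * s + 1) + 4 * (p * w ^ 2) = 8 * t + 1 := by
          rw [← hs, ← ht, ← hXY]; ring
        have h8 : (p : ℤ) * w ^ 2 = 8 * (p * r) + 4 * q + 3 := by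
          rw [hr]; linear_combination hq
        rw [h8] at h7
        omega
    have hX4 : X % 4 = 1 := by
      rcases Int.emod_two_eq_zero_or_one e' with ha | ha <;>
        rcases Int.emod_two_eq_zero_or_one f' with hb | hb
      · exfalso
        obtain ⟨a, ha'⟩ := sq_even ha
        obtain ⟨b, hb'⟩ := sq_even hb
        have h7 : X = 4 * a - 4 * (p * b) + 2 * u := by rw [hX, ha', hb']; ring
        omega
      · obtain ⟨a, ha'⟩ := sq_even ha
        obtain ⟨b, hb'⟩ := sq_odd hb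
        obtain ⟨g, hg⟩ : ∃ g, e' * f' = 2 * g := by
          obtain ⟨e'', rfl⟩ : ∃ b, e' = 2 * b := ⟨e' / 2, by omega⟩
          exact ⟨e'' * f', by ring⟩
        have h7 : X = 4 * a - 8 * (p * b) - (4 * q + 3) + 2 * u := by
          rw [hX, ha', hb', ← hq]; ring
        omega
      · obtain ⟨a, ha'⟩ := sq_odd ha
        obtain ⟨b, hb'⟩ := sq_even hb
        obtain ⟨g, hg⟩ : ∃ g, e' * f' = 2 * g := by
          obtain ⟨f'', rfl⟩ : ∃ b, f' = 2 * b := ⟨f' / 2, by omega⟩
          exact ⟨e' * f'', by ring⟩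
        have h7 : X = 8 * a + 1 - 4 * (p * b) + 2 * u := by
          rw [hX, ha', hb']; ring
        omega
      · exfalso
        obtain ⟨a, ha'⟩ := sq_odd ha
        obtain ⟨b, hb'⟩ := sq_odd hb
        have h7 : X = 8 * a + 1 - 8 * (p * b) - (4 * q + 3) + 2 * u := by
          rw [hX, ha', hb', ← hq]; ring
        omega
    have hpX : (p : ℤ) ∣ X + 1 := by
      have h7 : (p : ℤ) ∣ 2 * (X + 1) := by
        have : x + 2 = 2 * (X + 1) := by rw [hxX]; ring
        rwa [this] at h2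
      rcases hpZ.dvd_or_dvd h7 with h | h
      · exact absurd h (by simpa using hpnd 2 (by norm_num) hp2)
      · exact h
    have hpX' : ¬ (p : ℤ) ∣ X := by
      intro h
      have h7 := dvd_sub hpX h
      have : X + 1 - X = 1 := by ring
      rw [this] at h7
      exact hpnd 1 (by norm_num) (by omega) (by simpa using h7)
    have hJ := arith_jacobi hp n k hk hn0 hl 1 (Or.inl rfl) X (2 * w) hXodd hpX'
      (by rw [hXY]; push_cast; ring)
    exact sign_contra_one hp X hX4 hpX hJ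
  · -- both odd
    have hf : f % 2 = 1 := by omega
    obtain ⟨a, ha⟩ := sq_odd he
    obtain ⟨b, hb⟩ := sq_odd hf
    have hyodd : y % 2 = 1 := by
      have h7 : Odd (e * f) := (Int.odd_iff.mpr he).mul (Int.odd_iff.mpr hf)
      have h8 := Int.odd_iff.mp h7
      omega
    have h9 : 2 * x = 8 * a + 1 - 8 * (p * b) - (4 * q + 3) + 8 * u := by
      rw [h3, ha, hb, ← hq]; ring
    have hxodd : x % 2 = 1 := by omega
    obtain ⟨d, hd⟩ := sq_odd hyodd
    obtain ⟨s, hs⟩ := sq_odd hxodd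
    have h10 : (8 * s + 1) + (8 * (p * d) + (4 * q + 3)) = 4 * (8 * t + 1) := by
      rw [← hs, ← ht, ← h1, hd, ← hq]; ring
    have hp8 : p % 8 = 3 := by omega
    have hx4 : x % 4 = 3 := by omega
    have hpx' : ¬ (p : ℤ) ∣ x := by
      intro h
      have h7 := dvd_sub h2 h
      have : x + 2 - x = 2 := by ring
      rw [this] at h7
      exact hpnd 2 (by norm_num) hp2 (by simpa using h7)
    have hJ := arith_jacobi hp n k hk hn0 hl 2 (Or.inr rfl) x y hxodd hpx'
      (by rw [h1]; push_cast; ring)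
    exact sign_contra_two hp8 x hx4 h2 hJ

end Pool.Agent.LibH97.AffDiff
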