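import Mathlib
import Pool.Agent.Lib_helper97.AffDiff.AltRank

/-!
The core of the argument: there is no matrix of order `n + 1`, `n = 2 mod 4`, with entries in a
finite group `H` off the diagonal such that for two different rows `i, i'` the quotients
`m i k * (m i' k)⁻¹`, `k ≠ i, i'`, run exactly once through `H`, as soon as `H` has a
nontrivial homomorphism to the units of a perfect field of characteristic two.
-/

namespace Pool.Agent.LibH97.AffDiff

open Matrix Finset

/-- In the Witt vectors over a perfect field of characteristic two, an element whose reduction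
vanishes is divisible by two. -/
theorem exists_two_mul {k : Type*} [Field k] [CharP k 2] [PerfectRing k 2]
    (a : WittVector 2 k) (ha : WittVector.constantCoeff a = 0) : ∃ b, a = 2 * b := by
  rcases eq_or_ne a 0 with rfl | h0
  · exact ⟨0, by simp⟩
  obtain ⟨m, b, hb, hab⟩ := WittVector.exists_eq_pow_p_mul a h0
  rcases m with _ | m
  · exfalso
    apply hb
    rw [pow_zero, one_mul] at hab
    rw [← hab]
    exact ha
  · refine ⟨(2 : WittVector 2 k) ^ m * b, ?_⟩
    rw [hab, pow_succ]
    push_cast
    ring

/-- The linear algebra: two matrices over the Witt vectors, both symmetric with zero diagonal,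
whose product is `2 * u` times the identity with `u` odd, have even size. -/
theorem even_card_of_mul_eq {ι k : Type*} [Fintype ι] [DecidableEq ι] [Field k] [CharP k 2]
    [PerfectRing k 2] (B B' : Matrix ι ι (WittVector 2 k)) (u : ℕ) (hu : Odd u)
    (hB : ∀ i j, B i j = B j i) (hB' : ∀ i j, B' i j = B' j i)
    (hd : ∀ i, B i i = 0) (hd' : ∀ i, B' i i = 0)
    (hmul : B * B' = (2 * u : WittVector 2 k) • (1 : Matrix ι ι (WittVector 2 k)))
    (hmul' : B' * B = (2 * u : WittVector 2 k) • (1 : Matrix ι ι (WittVector 2 k))) :
    Even (Fintype.card ι) := by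
  classical
  set π : WittVector 2 k →+* k := WittVector.constantCoeff with hπ
  set A : Matrix ι ι k := B.map π with hA
  set A' : Matrix ι ι k := B'.map π with hA'
  have h2k : (2 : k) = 0 := CharTwo.two_eq_zero
  have hneg : ∀ x : k, -x = x := fun x => CharTwo.neg_eq x
  have h2W : (2 : WittVector 2 k) ≠ 0 := by
    have := WittVector.p_nonzero 2 k
    exact_mod_cast this
  have huk : (u : k) = 1 := by
    obtain ⟨v, rfl⟩ := hu
    push_cast
    rw [h2k]; ring
  have hAA' : A * A' = 0 := by
    rw [hA, hA', ← RingHom.mapMatrix_apply, ← RingHom.mapMatrix_apply, ← map_mul, hmul]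
    ext i j
    rw [RingHom.mapMatrix_apply, map_apply, Matrix.smul_apply, smul_eq_mul, map_mul, map_mul]
    have : π 2 = 0 := by rw [map_ofNat, h2k]
    rw [this]; simp
  have hker : LinearMap.ker A.mulVecLin = LinearMap.range A'.mulVecLin := by
    apply le_antisymm
    · intro x hx
      have hx' : A.mulVec x = 0 := by simpa using hx
      obtain ⟨X, hX⟩ : ∃ X : ι → WittVector 2 k, ∀ i, π (X i) = x i :=
        ⟨fun i => WittVector.teichmuller 2 (x i), fun i => by
          simp [hπ, WittVector.constantCoeff, WittVector.teichmuller_coeff_zero]⟩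
      have h1 : ∀ i, ∃ y, B.mulVec X i = 2 * y := by
        intro i
        apply exists_two_mul
        have h2 := congrFun hx' i
        simp only [mulVec, dotProduct, hA, map_apply, Pi.zero_apply] at h2
        rw [← hπ]
        simp only [mulVec, dotProduct, map_sum, map_mul, hX]
        exact h2
      choose Y hY using h1
      have hBX : B.mulVec X = (2 : WittVector 2 k) • Y := by
        funext i; rw [hY]; rfl
      have h3 : B'.mulVec (B.mulVec X) = (2 * u : WittVector 2 k) • X := by
        rw [mulVec_mulVec, hmul', smul_mulVec, one_mulVec]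
      rw [hBX, mulVec_smul] at h3
      have h4 : ∀ i, B'.mulVec Y i = (u : WittVector 2 k) * X i := by
        intro i
        have h5 := congrFun h3 i
        simp only [Pi.smul_apply, smul_eq_mul] at h5
        apply mul_left_cancel₀ h2W
        rw [h5]; ring
      refine ⟨fun i => π (Y i), ?_⟩
      funext i
      have h6 := congrArg π (h4 i)
      rw [map_mul, map_natCast, huk, one_mul, hX] at h6
      rw [← h6]
      simp [mulVec, dotProduct, hA', map_sum]
    · rintro x ⟨y, rfl⟩
      simp only [LinearMap.mem_ker, mulVecLin_apply, mulVec_mulVec, hAA', zero_mulVec]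
  have h1 := LinearMap.finrank_range_add_finrank_ker A.mulVecLin
  rw [hker, Module.finrank_fintype_fun_eq_card] at h1
  have e1 : Even A.rank := by
    apply even_rank_of_alternating
    · intro i j; rw [hneg]; simp only [hA, map_apply]; rw [hB]
    · intro i; simp only [hA, map_apply]; rw [hd, map_zero]
  have e2 : Even A'.rank := by
    apply even_rank_of_alternating
    · intro i j; rw [hneg]; simp only [hA', map_apply]; rw [hB']
    · intro i; simp only [hA', map_apply]; rw [hd', map_zero]
  rw [← h1]
  exact e1.add e2

/-- The combinatorial core. -/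
theorem core {Q H k : Type*} [Fintype Q] [DecidableEq Q] [Group H] [Fintype H]
    [Field k] [CharP k 2] [PerfectRing k 2] (φ : H →* kˣ) (hφ : φ ≠ 1) (m : Q → Q → H)
    (hm : ∀ i i', i ≠ i' → ∀ h : H, ∃! j, (j ≠ i ∧ j ≠ i') ∧ m i j * (m i' j)⁻¹ = h)
    (n : ℕ) (hQ : Fintype.card Q = n + 1) (hn : n % 4 = 2) : False := by
  classical
  -- transfer of sums and products
  have htrans : ∀ i i', i ≠ i' → ∀ {M : Type _} [AddCommMonoid M] (f : H → M),
      ∑ j ∈ (univ.erase i).erase i', f (m i j * (m i' j)⁻¹) = ∑ h, f h := by
    intro i i' hii M _ f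
    refine Finset.sum_bij (fun j _ => m i j * (m i' j)⁻¹) (fun _ _ => mem_univ _) ?_ ?_ ?_
    · intro a ha b hb hab
      simp only [mem_erase, mem_univ, and_true, ne_eq] at ha hb
      obtain ⟨j, -, huniq⟩ := hm i i' hii (m i a * (m i' a)⁻¹)
      rw [huniq a ⟨⟨ha.2, ha.1⟩, rfl⟩, huniq b ⟨⟨hb.2, hb.1⟩, hab.symm⟩]
    · intro h _
      obtain ⟨j, ⟨⟨h1, h2⟩, h3⟩, -⟩ := hm i i' hii h
      exact ⟨j, by simp [h1, h2], h3⟩
    · intro j _; rfl
  have htrans' : ∀ i i', i ≠ i' → ∀ (f : H → kˣ),
      ∏ j ∈ (univ.erase i).erase i', f (m i j * (m i' j)⁻¹) = ∏ h, f h := by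
    intro i i' hii f
    have := htrans i i' hii (M := Additive kˣ) (fun h => Additive.ofMul (f h))
    exact this
  -- the product of all values of the character
  have hprod : ∏ h, φ h = 1 := by
    have h1 : ∏ h, φ h = ∏ h, φ h⁻¹ := (Equiv.prod_comp (Equiv.inv H) (fun h => φ h)).symm
    have h2 : (∏ h, φ h) * (∏ h, φ h) = 1 := by
      nth_rewrite 2 [h1]
      rw [← Finset.prod_mul_distrib]
      refine Finset.prod_eq_one fun h _ => ?_
      rw [← map_mul]; simp
    set P := ∏ h, φ h with hP
    apply Units.ext
    have h3 : ((P : k) - 1) * ((P : k) - 1) = 0 := by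
      have h4 : (P : k) * (P : k) = 1 := by
        have := congrArg (Units.val) h2
        simpa using this
      have h2k : (2 : k) = 0 := CharTwo.two_eq_zero
      calc ((P : k) - 1) * ((P : k) - 1) = (P : k) * P + 1 - 2 * P := by ring
        _ = 1 + 1 - 0 * P := by rw [h4, h2k]
        _ = 2 := by ring
        _ = 0 := h2k
    have h5 : (P : k) - 1 = 0 := by
      rcases mul_eq_zero.mp h3 with h | h <;> exact h
    rw [Units.val_one]
    exact sub_eq_zero.mp h5
  -- row products
  let r : Q → kˣ := fun i => ∏ j ∈ univ.erase i, φ (m i j)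
  have hr : ∀ i i', i ≠ i' → r i = φ (m i i') * ∏ j ∈ (univ.erase i).erase i', φ (m i j) := by
    intro i i' hii
    have hmem : i' ∈ univ.erase i := by simp [Ne.symm hii]
    exact (Finset.mul_prod_erase (univ.erase i) (fun j => φ (m i j)) hmem).symm
  have hsym : ∀ i i', i ≠ i' → φ (m i i') / r i = φ (m i' i) / r i' := by
    intro i i' hii
    have h1 := htrans' i i' hii (fun h => φ h)
    rw [hprod] at h1
    have h2 : ∏ j ∈ (univ.erase i).erase i', φ (m i j) =
        ∏ j ∈ (univ.erase i').erase i, φ (m i' j) := by
      have h3 : (univ.erase i').erase i = (univ.erase i).erase i' := by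
        ext j; simp [and_comm]
      rw [h3]
      have h4 : ∏ j ∈ (univ.erase i).erase i', φ (m i j * (m i' j)⁻¹) =
          (∏ j ∈ (univ.erase i).erase i', φ (m i j)) /
          (∏ j ∈ (univ.erase i).erase i', φ (m i' j)) := by
        rw [← Finset.prod_div_distrib]
        refine Finset.prod_congr rfl fun j _ => ?_
        rw [map_mul, map_inv, div_eq_mul_inv]
      rw [h4] at h1
      exact div_eq_one.mp h1
    rw [hr i i' hii, hr i' i hii.symm, h2]
    apply Units.ext
    push_cast
    have e1 : ((φ (m i i') : kˣ) : k) ≠ 0 := Units.ne_zero _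
    have e2 : ((φ (m i' i) : kˣ) : k) ≠ 0 := Units.ne_zero _
    have e3 : (∏ j ∈ (univ.erase i').erase i, ((φ (m i' j) : kˣ) : k)) ≠ 0 :=
      Finset.prod_ne_zero_iff.mpr fun j _ => Units.ne_zero _
    field_simp
  -- the lifted matrices
  let b : Q → Q → kˣ := fun i j => φ (m i j) / r i
  let T : k →* WittVector 2 k := WittVector.teichmuller 2
  let B : Matrix Q Q (WittVector 2 k) := fun i j => if i = j then 0 else T (b i j : k)
  let B' : Matrix Q Q (WittVector 2 k) := fun i j => if i = j then 0 else T ((b i j)⁻¹ : kˣ)
  have hbsym : ∀ i j, i ≠ j → b i j = b j i := fun i j hij => hsym i j hij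
  have hB : ∀ i j, B i j = B j i := by
    intro i j
    simp only [B]
    by_cases hij : i = j
    · simp [hij]
    · rw [if_neg hij, if_neg (Ne.symm hij), hbsym i j hij]
  have hB' : ∀ i j, B' i j = B' j i := by
    intro i j
    simp only [B']
    by_cases hij : i = j
    · simp [hij]
    · rw [if_neg hij, if_neg (Ne.symm hij), hbsym i j hij]
  have hT0 : ∑ h : H, T (φ h : k) = 0 := by
    let g : H →* WittVector 2 k := (T.comp (Units.coeHom k)).comp φ
    have hg : g ≠ 1 := by
      intro hg
      apply hφ
      ext h
      have h1 : T (φ h : k) = 1 := by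
        have := DFunLike.congr_fun hg h
        simpa [g] using this
      have h2 := congrArg (WittVector.constantCoeff) h1
      rw [map_one] at h2
      have h3 : WittVector.constantCoeff (T (φ h : k)) = (φ h : k) := by
        simp [T, WittVector.constantCoeff, WittVector.teichmuller_coeff_zero]
      rw [h3] at h2
      rw [h2]; simp
    exact sum_hom_units_eq_zero g hg
  have hBB' : B * B' = (n : WittVector 2 k) • (1 : Matrix Q Q (WittVector 2 k)) := by
    ext1 i i'
    rw [Matrix.mul_apply, Matrix.smul_apply, smul_eq_mul]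
    have hterm : ∀ j, B i j * B' j i' = B i j * B' i' j := fun j => by rw [hB' j i']
    rw [Finset.sum_congr rfl fun j _ => hterm j]
    by_cases hii : i = i'
    · subst hii
      rw [one_apply_eq, mul_one]
      rw [← Finset.add_sum_erase univ _ (mem_univ i)]
      have h0 : B i i * B' i i = 0 := by simp [B]
      rw [h0, zero_add]
      have h1 : ∀ j ∈ univ.erase i, B i j * B' i j = 1 := by
        intro j hj
        have hij : i ≠ j := (Finset.ne_of_mem_erase hj).symm
        simp only [B, B', if_neg hij]
        rw [← map_mul]; simp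
      rw [Finset.sum_congr rfl h1, Finset.sum_const, Finset.card_erase_of_mem (mem_univ i),
        Finset.card_univ, hQ]
      simp
    · rw [one_apply_ne hii, mul_zero]
      have hmem : i' ∈ univ.erase i := by simp [Ne.symm hii]
      rw [← Finset.add_sum_erase univ _ (mem_univ i), ← Finset.add_sum_erase _ _ hmem]
      have h0 : B i i * B' i' i = 0 := by simp [B]
      have h0' : B i i' * B' i' i' = 0 := by simp [B']
      rw [h0, h0', zero_add, zero_add]
      have h1 : ∀ j ∈ (univ.erase i).erase i', B i j * B' i' j =
          T ((r i' / r i : kˣ) : k) * T (φ (m i j * (m i' j)⁻¹) : k) := by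
        intro j hj
        simp only [mem_erase, mem_univ, and_true, ne_eq] at hj
        have hij : i ≠ j := fun h => hj.2 h.symm
        have hij' : i' ≠ j := fun h => hj.1 h.symm
        simp only [B, B', if_neg hij, if_neg hij']
        rw [← map_mul, ← map_mul, ← Units.val_mul, ← Units.val_mul]
        congr 1
        simp only [b, map_mul, map_inv]
        push_cast
        have e1 : ((φ (m i j) : kˣ) : k) ≠ 0 := Units.ne_zero _
        have e2 : ((φ (m i' j) : kˣ) : k) ≠ 0 := Units.ne_zero _
        have e3 : ((r i : kˣ) : k) ≠ 0 := Units.ne_zero _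
        have e4 : ((r i' : kˣ) : k) ≠ 0 := Units.ne_zero _
        field_simp
      rw [Finset.sum_congr rfl h1, ← Finset.mul_sum,
        htrans i i' hii (fun h => T (φ h : k)), hT0, mul_zero]
  have hB'B : B' * B = (n : WittVector 2 k) • (1 : Matrix Q Q (WittVector 2 k)) := by
    have h1 := congrArg Matrix.transpose hBB'
    rw [Matrix.transpose_mul, Matrix.transpose_smul, Matrix.transpose_one] at h1
    have h2 : B'ᵀ = B' := by ext1 i j; exact hB' j i
    have h3 : Bᵀ = B := by ext1 i j; exact hB j i
    rw [h2, h3] at h1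
    exact h1
  obtain ⟨u, hu, hnu⟩ : ∃ u, Odd u ∧ n = 2 * u := ⟨n / 2, by
    rw [Nat.odd_iff]; omega, by omega⟩
  have heven := even_card_of_mul_eq B B' u hu hB hB' (fun i => by simp [B]) (fun i => by simp [B'])
    (by rw [hBB', hnu]; push_cast; rfl) (by rw [hB'B, hnu]; push_cast; rfl)
  rw [hQ, Nat.even_iff] at heven
  omega

end Pool.Agent.LibH97.AffDiff
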