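import Mathlib
import Pool.Agent.Lib_helper97.AffDiff.AltRank

/-!
The determinant of a skew-symmetric matrix over a field of characteristic different from two is
a square, hence the determinant of an alternating matrix over a commutative ring is a square.
The determinant of a symmetric matrix of size `4 t` with zero diagonal over a commutative ring
is of the form `π ^ 2 + 4 ρ`.
-/

universe u v

namespace Pool.Agent.LibH97.AffDiff

open Matrix

/-- Splitting off two indices. -/
noncomputable def splitTwo {ι : Type u} [DecidableEq ι] (i j : ι) (hij : i ≠ j) :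
    Fin 2 ⊕ {x : ι // x ≠ i ∧ x ≠ j} ≃ ι :=
  Equiv.ofBijective (Sum.elim (fun t : Fin 2 => if t = 0 then i else j) Subtype.val) (by
    constructor
    · rintro (a | a) (b | b) h
      · fin_cases a <;> fin_cases b <;> simp_all
      · exfalso
        fin_cases a
        · exact b.2.1 (by simpa using h.symm)
        · exact b.2.2 (by simpa using h.symm)
      · exfalso
        fin_cases b
        · exact a.2.1 (by simpa using h)
        · exact a.2.2 (by simpa using h)
      · congr 1
        exact Subtype.ext (by simpa using h)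
    · intro x
      by_cases h1 : x = i
      · exact ⟨Sum.inl 0, by simp [h1]⟩
      by_cases h2 : x = j
      · exact ⟨Sum.inl 1, by simp [h2]⟩
      · exact ⟨Sum.inr ⟨x, h1, h2⟩, rfl⟩)

theorem det_skew_isSquare (K : Type v) [Field K] (h2 : (2 : K) ≠ 0) :
    ∀ (m : ℕ) (ι : Type u) [Fintype ι] [DecidableEq ι], Fintype.card ι = m →
    ∀ A : Matrix ι ι K, Aᵀ = -A → ∃ s, A.det = s * s := by
  intro m
  induction m using Nat.strong_induction_on with
  | _ m ih =>
  intro ι _ _ hm A hA
  have hskew : ∀ i j, A j i = - A i j := fun i j => by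
    have := congrFun (congrFun hA i) j
    simpa using this
  have hdiag : ∀ i, A i i = 0 := by
    intro i
    have h := hskew i i
    have h' : (2 : K) * A i i = 0 := by linear_combination h
    exact (mul_eq_zero.mp h').resolve_left h2
  by_cases hA0 : A = 0
  · rcases isEmpty_or_nonempty ι with he | he
    · exact ⟨1, by rw [Matrix.det_isEmpty, one_mul]⟩
    · exact ⟨0, by rw [hA0, Matrix.det_zero, zero_mul]⟩
  · obtain ⟨i, j, hij⟩ : ∃ i j, A i j ≠ 0 := by
      by_contra hcon
      push Not at hcon
      exact hA0 (by ext i j; exact hcon i j)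
    have hne : i ≠ j := by
      rintro rfl
      exact hij (hdiag i)
    let e := splitTwo i j hne
    have hdet : (A.submatrix e e).det = A.det := det_submatrix_equiv_self e A
    set A' := A.submatrix e e with hA'
    set P := A'.toBlocks₁₁ with hP
    set B := A'.toBlocks₁₂ with hB
    set C := A'.toBlocks₂₁ with hC
    set D := A'.toBlocks₂₂ with hD
    have hblocks : A' = fromBlocks P B C D := (fromBlocks_toBlocks A').symm
    have hPT : Pᵀ = -P := by
      ext a b
      exact hskew _ _
    have hCB : Cᵀ = -B := by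
      ext a b
      exact hskew _ _
    have hDT : Dᵀ = -D := by
      ext a b
      exact hskew _ _
    have hPdet : P.det = A i j * A i j := by
      rw [det_fin_two]
      have p00 : P 0 0 = 0 := hdiag _
      have p01 : P 0 1 = A i j := rfl
      have p10 : P 1 0 = - A i j := hskew i j
      rw [p00, p01, p10]; ring
    have hPu : IsUnit P.det := by
      rw [hPdet]
      exact (mul_ne_zero hij hij).isUnit
    let _ := P.invertibleOfIsUnitDet hPu
    have hcard : Fintype.card {x : ι // x ≠ i ∧ x ≠ j} < m := by
      have h1 := Fintype.card_congr e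
      rw [Fintype.card_sum, Fintype.card_fin, hm] at h1
      omega
    obtain ⟨s, hs⟩ := ih _ hcard {x : ι // x ≠ i ∧ x ≠ j} rfl (D - C * ⅟P * B) (by
      have hinvT : (⅟P)ᵀ = -⅟P := by
        rw [invOf_eq_nonsing_inv, transpose_nonsing_inv, hPT]
        have h3 : (-P) * (-P⁻¹) = 1 := by
          rw [neg_mul_neg, mul_nonsing_inv P hPu]
        exact inv_eq_right_inv h3
      have hBT : Bᵀ = -C := by
        have h3 := congrArg Matrix.transpose hCB
        rw [transpose_transpose, transpose_neg] at h3
        rw [h3, neg_neg]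
      rw [transpose_sub, transpose_mul, transpose_mul, hDT, hBT, hCB, hinvT]
      simp only [Matrix.neg_mul, Matrix.mul_neg, neg_neg, Matrix.mul_assoc]
      abel)
    refine ⟨A i j * s, ?_⟩
    rw [← hdet, hblocks, det_fromBlocks₁₁, hPdet, hs]
    ring

/-- The determinant of the universal alternating matrix is a square. -/
theorem det_univAlt_isSquare (m : ℕ) : ∃ s, (univAlt m).det = s * s := by
  let U := MvPolynomial (Fin m × Fin m) ℤ
  let K := FractionRing U
  have h2 : (2 : K) ≠ 0 := two_ne_zero
  obtain ⟨s, hs⟩ := det_skew_isSquare K h2 m (Fin m) (Fintype.card_fin m)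
    ((univAlt m).map (algebraMap U K)) (by
      rw [← transpose_map, univAlt_transpose]
      ext i j
      simp)
  have hs' : algebraMap U K (univAlt m).det = s * s := by
    rw [RingHom.map_det]; exact hs
  obtain ⟨y, hy⟩ := IsIntegrallyClosed.exists_algebraMap_eq_of_isIntegral_pow (R := U) (K := K)
    (x := s) (n := 2) (by norm_num) (by
      rw [pow_two, ← hs']
      exact isIntegral_algebraMap)
  refine ⟨y, ?_⟩
  apply IsFractionRing.injective U K
  rw [hs', map_mul, hy]

theorem eq_map_univAlt {R : Type*} [CommRing R] (m : ℕ)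
    (A : Matrix (Fin m) (Fin m) R) (hskew : ∀ i j, A i j = - A j i)
    (hdiag : ∀ i, A i i = 0) : A = (univAlt m).map
      (MvPolynomial.eval₂Hom (Int.castRingHom R) (fun p : Fin m × Fin m => A p.1 p.2)) := by
  ext i j
  simp only [map_apply, univAlt]
  rcases lt_trichotomy i j with h | h | h
  · simp [h]
  · subst h; simp [hdiag]
  · simp only [not_lt.mpr h.le, if_false, h, if_true, map_neg, MvPolynomial.coe_eval₂Hom,
      MvPolynomial.eval₂_X]
    exact hskew i j

/-- The determinant of an alternating matrix over a commutative ring is a square. -/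
theorem det_alternating_isSquare {ι R : Type*} [Fintype ι] [DecidableEq ι] [CommRing R]
    (A : Matrix ι ι R) (hskew : ∀ i j, A i j = - A j i) (hdiag : ∀ i, A i i = 0) :
    ∃ s, A.det = s * s := by
  have e := Fintype.equivFin ι
  obtain ⟨s, hs⟩ := det_univAlt_isSquare (Fintype.card ι)
  have h1 := eq_map_univAlt _ (A.submatrix e.symm e.symm) (fun i j => hskew _ _)
    (fun i => hdiag _)
  generalize MvPolynomial.eval₂Hom (Int.castRingHom R)
    (fun p : Fin (Fintype.card ι) × Fin (Fintype.card ι) =>
      A.submatrix e.symm e.symm p.1 p.2) = f at h1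
  refine ⟨f s, ?_⟩
  rw [← det_submatrix_equiv_self e.symm A, h1, ← map_mul, ← hs, RingHom.map_det]
  rfl

/-- rows in `s` from `A`, the others from `B` -/
def pw {ι R : Type*} [DecidableEq ι] (s : Finset ι) (A B : Matrix ι ι R) : Matrix ι ι R :=
  Matrix.of fun i j => if i ∈ s then A i j else B i j

theorem det_add_eq_sum_pw {ι R : Type*} [Fintype ι] [DecidableEq ι] [CommRing R]
    (A B : Matrix ι ι R) : (A + B).det = ∑ s : Finset ι, (pw s A B).det := by
  have h1 := (Matrix.detRowAlternating (n := ι) (R := R)).toMultilinearMap.map_add_univ A B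
  refine Eq.trans h1 ?_
  refine Finset.sum_congr rfl fun s _ => ?_
  change Matrix.det _ = _
  congr 1
  funext i
  funext j
  by_cases hi : i ∈ s
  · simp [pw, Finset.piecewise, hi]
  · simp [pw, Finset.piecewise, hi]

/-- Expansion of the determinant of `A + X B`. -/
theorem det_add_X_smul {ι R : Type*} [Fintype ι] [DecidableEq ι] [CommRing R]
    (A B : Matrix ι ι R) :
    (A.map (Polynomial.C : R →+* Polynomial R) +
      (Polynomial.X : Polynomial R) • B.map (Polynomial.C : R →+* Polynomial R)).det =
    ∑ s : Finset ι, Polynomial.monomial (sᶜ.card) (pw s A B).det := by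
  rw [det_add_eq_sum_pw]
  refine Finset.sum_congr rfl fun s _ => ?_
  have h3 : pw s (A.map (Polynomial.C : R →+* Polynomial R))
        ((Polynomial.X : Polynomial R) • B.map (Polynomial.C : R →+* Polynomial R)) =
      Matrix.of fun i j => (if i ∈ s then (1 : Polynomial R) else Polynomial.X) *
        ((pw s A B).map (Polynomial.C : R →+* Polynomial R)) i j := by
    ext1 i j
    by_cases hi : i ∈ s
    · simp [pw, hi]
    · simp [pw, hi]
  have h4 := Matrix.det_mul_column (fun i => if i ∈ s then (1 : Polynomial R) else Polynomial.X)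
    ((pw s A B).map (Polynomial.C : R →+* Polynomial R))
  have h5 : ((pw s A B).map (Polynomial.C : R →+* Polynomial R)).det =
      Polynomial.C (pw s A B).det := by
    rw [RingHom.map_det]
    rfl
  have h6 : ∏ i, (if i ∈ s then (1 : Polynomial R) else Polynomial.X) =
      Polynomial.X ^ (sᶜ.card) := by
    rw [Finset.prod_ite, Finset.prod_const_one, one_mul, Finset.prod_const]
    congr 2
    ext i
    simp
  rw [h3]
  refine h4.trans ?_
  rw [h5, h6, mul_comm, Polynomial.C_mul_X_pow_eq_monomial]

/-- sum of the mixed determinants with exactly `k` rows taken from the second matrix -/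
noncomputable def mixed {ι R : Type*} [Fintype ι] [DecidableEq ι] [CommRing R]
    (A B : Matrix ι ι R) (k : ℕ) : R :=
  ∑ s : Finset ι with sᶜ.card = k, (pw s A B).det

theorem coeff_det_add_X_smul {ι R : Type*} [Fintype ι] [DecidableEq ι] [CommRing R]
    (A B : Matrix ι ι R) (k : ℕ) :
    (A.map (Polynomial.C : R →+* Polynomial R) +
      (Polynomial.X : Polynomial R) • B.map (Polynomial.C : R →+* Polynomial R)).det.coeff k =
    mixed A B k := by
  rw [det_add_X_smul, Polynomial.finsetSum_coeff, mixed, Finset.sum_filter]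
  refine Finset.sum_congr rfl fun s _ => ?_
  rw [Polynomial.coeff_monomial]

theorem mixed_transpose {ι R : Type*} [Fintype ι] [DecidableEq ι] [CommRing R]
    (A B : Matrix ι ι R) (k : ℕ) : mixed Aᵀ Bᵀ k = mixed A B k := by
  rw [← coeff_det_add_X_smul, ← coeff_det_add_X_smul, ← det_transpose (A.map _ + _)]
  rfl

theorem mixed_swap {ι R : Type*} [Fintype ι] [DecidableEq ι] [CommRing R]
    (A B : Matrix ι ι R) (k l : ℕ) (h : k + l = Fintype.card ι) : mixed A B k = mixed B A l := by
  unfold mixed
  refine Finset.sum_bij' (fun s _ => sᶜ) (fun s _ => sᶜ) ?_ ?_ ?_ ?_ ?_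
  · intro s hs
    simp only [Finset.mem_filter, Finset.mem_univ, true_and] at hs ⊢
    have := Finset.card_compl sᶜ
    omega
  · intro s hs
    simp only [Finset.mem_filter, Finset.mem_univ, true_and] at hs ⊢
    have := Finset.card_compl sᶜ
    omega
  · intro s _; simp
  · intro s _; simp
  · intro s _
    congr 1
    ext i j
    by_cases hi : i ∈ s
    · simp [pw, hi]
    · simp [pw, hi]

theorem mixed_eq_zero {ι R : Type*} [Fintype ι] [DecidableEq ι] [CommRing R]
    (A B : Matrix ι ι R) (k : ℕ) (h : Fintype.card ι < k) : mixed A B k = 0 := by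
  unfold mixed
  rw [Finset.sum_eq_zero]
  intro s hs
  simp only [Finset.mem_filter, Finset.mem_univ, true_and] at hs
  have := Finset.card_le_univ sᶜ
  omega

theorem det_add_smul {ι R : Type*} [Fintype ι] [DecidableEq ι] [CommRing R]
    (A B : Matrix ι ι R) (x : R) :
    (A + x • B).det = ∑ k ∈ Finset.range (Fintype.card ι + 1), mixed A B k * x ^ k := by
  have h1 : ((A.map (Polynomial.C : R →+* Polynomial R) +
      (Polynomial.X : Polynomial R) • B.map (Polynomial.C : R →+* Polynomial R)).det).eval x =
      (A + x • B).det := by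
    rw [← Polynomial.coe_evalRingHom, RingHom.map_det]
    congr 1
    ext i j
    simp
    ring
  rw [← h1, Polynomial.eval_eq_sum_range' (n := Fintype.card ι + 1)]
  · refine Finset.sum_congr rfl fun k _ => ?_
    rw [coeff_det_add_X_smul]
  · rw [Nat.lt_succ_iff, Polynomial.natDegree_le_iff_coeff_eq_zero]
    intro k hk
    rw [coeff_det_add_X_smul, mixed_eq_zero A B k hk]

theorem sum_odd_part {R : Type*} [CommRing R] (c : ℕ → R) (n : ℕ) :
    ∑ k ∈ Finset.range (2 * n + 1), c k * 1 ^ k =
      ∑ k ∈ Finset.range (2 * n + 1), c k * (-1) ^ k + 2 * ∑ j ∈ Finset.range n, c (2 * j + 1) := by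
  induction n with
  | zero => simp
  | succ n ih =>
    have e : 2 * (n + 1) + 1 = 2 * n + 1 + 1 + 1 := by ring
    rw [e, Finset.sum_range_succ, Finset.sum_range_succ, ih, Finset.sum_range_succ (n := 2*n+1+1),
      Finset.sum_range_succ (n := 2 * n+1), Finset.sum_range_succ (n := n)]
    have e1 : (-1 : R) ^ (2 * n + 1) = -1 := Odd.neg_one_pow ⟨n, rfl⟩
    have e2 : (-1 : R) ^ (2 * n + 1 + 1) = 1 := Even.neg_one_pow ⟨n + 1, by ring⟩
    rw [e1, e2]
    ring

theorem sum_reflect_two {R : Type*} [CommRing R] (d : ℕ → R) (t : ℕ)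
    (hd : ∀ j < 2 * t, d j = d (2 * t - 1 - j)) :
    ∑ j ∈ Finset.range (2 * t), d j = 2 * ∑ j ∈ Finset.range t, d j := by
  rw [two_mul, Finset.sum_range_add, two_mul]
  congr 1
  rw [← Finset.sum_range_reflect]
  refine Finset.sum_congr rfl fun j hj => ?_
  rw [Finset.mem_range] at hj
  rw [hd _ (by omega)]
  congr 1
  omega

/-- For a square matrix of size `4 t`, `det (V + Vᵀ)` and `det (V - Vᵀ)` agree modulo `4`. -/
theorem det_add_transpose {ι R : Type*} [Fintype ι] [DecidableEq ι] [CommRing R]
    (V : Matrix ι ι R) (t : ℕ) (ht : Fintype.card ι = 4 * t) :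
    ∃ ρ : R, (V + Vᵀ).det = (V - Vᵀ).det + 4 * ρ := by
  refine ⟨∑ j ∈ Finset.range t, mixed V Vᵀ (2 * j + 1), ?_⟩
  have h1 := det_add_smul V Vᵀ 1
  have h2 := det_add_smul V Vᵀ (-1)
  rw [one_smul] at h1
  rw [neg_one_smul, ← sub_eq_add_neg] at h2
  rw [h1, h2, ht]
  have e : 4 * t = 2 * (2 * t) := by ring
  rw [e, sum_odd_part]
  congr 1
  rw [sum_reflect_two]
  · ring
  · intro j hj
    have h3 : mixed V Vᵀ (2 * j + 1) = mixed Vᵀ V (2 * j + 1) := by
      have := mixed_transpose V Vᵀ (2 * j + 1)
      rw [transpose_transpose] at this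
      exact this.symm
    rw [h3]
    exact mixed_swap _ _ _ _ (by omega)

/-- The determinant of a symmetric matrix of size `4 t` with zero diagonal over a commutative ring
is of the form `π ^ 2 + 4 ρ`. -/
theorem det_symm_zero_diag {ι R : Type*} [Fintype ι] [DecidableEq ι] [CommRing R]
    (S : Matrix ι ι R) (hS : ∀ i j, S i j = S j i) (h0 : ∀ i, S i i = 0) (t : ℕ)
    (ht : Fintype.card ι = 4 * t) :
    ∃ π ρ : R, S.det = π * π + 4 * ρ := by
  have e := Fintype.equivFin ι
  let V : Matrix ι ι R := Matrix.of fun i j => if e i < e j then S i j else 0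
  have h1 : S = V + Vᵀ := by
    ext i j
    simp only [V, Matrix.add_apply, transpose_apply, of_apply]
    rcases lt_trichotomy (e i) (e j) with h | h | h
    · rw [if_pos h, if_neg h.not_gt, add_zero]
    · have : i = j := e.injective h
      subst this
      simp [h0]
    · rw [if_pos h, if_neg h.not_gt, zero_add, hS]
  obtain ⟨ρ, hρ⟩ := det_add_transpose V t ht
  obtain ⟨s, hs⟩ := det_alternating_isSquare (V - Vᵀ)
    (fun i j => by simp only [Matrix.sub_apply, transpose_apply]; ring)
    (fun i => by simp only [Matrix.sub_apply, transpose_apply, sub_self])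
  exact ⟨s, ρ, by rw [h1, hρ, hs]⟩

end Pool.Agent.LibH97.AffDiff
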