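import Mathlib

/-!
The integral group ring of the cyclic group of prime order `p = 3 mod 4`, its elements invariant
under multiplication of the exponents by squares, and their values at the characters.
-/

namespace Pool.Agent.LibH97.AffDiff

open AddMonoidAlgebra

variable {p : ℕ} [Fact p.Prime]

/-- multiplication of the exponents by `s` -/
noncomputable def dil (s : ZMod p) :
    AddMonoidAlgebra ℤ (ZMod p) →+* AddMonoidAlgebra ℤ (ZMod p) :=
  AddMonoidAlgebra.mapDomainRingHom ℤ (AddMonoidHom.mulLeft s)

theorem dil_single (s a : ZMod p) (r : ℤ) : dil s (single a r) = single (s * a) r := by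
  simp [dil]

theorem dil_dil (s t : ZMod p) (T : AddMonoidAlgebra ℤ (ZMod p)) :
    dil s (dil t T) = dil (s * t) T := by
  induction T using AddMonoidAlgebra.induction_linear with
  | zero => simp
  | add f g hf hg => simp only [map_add, hf, hg]
  | single a r => simp only [dil_single, mul_assoc]

theorem coeff_dil {s : ZMod p} (hs : s ≠ 0) (T : AddMonoidAlgebra ℤ (ZMod p)) (x : ZMod p) :
    (dil s T).coeff (s * x) = T.coeff x := by
  induction T using AddMonoidAlgebra.induction_linear with
  | zero => simp
  | add f g hf hg => simp only [map_add, coeff_add, Finsupp.add_apply, hf, hg]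
  | single a r =>
    rw [dil_single]
    simp [Finsupp.single_apply, hs]

/-- evaluation at a character -/
noncomputable def ev {R : Type*} [CommRing R] (ψ : AddChar (ZMod p) R) :
    AddMonoidAlgebra ℤ (ZMod p) →+* R :=
  AddMonoidAlgebra.liftNCRingHom (Int.castRingHom R) ψ.toMonoidHom (fun _ _ => Commute.all _ _)

theorem ev_single {R : Type*} [CommRing R] (ψ : AddChar (ZMod p) R) (a : ZMod p) (r : ℤ) :
    ev ψ (single a r) = r * ψ a := by
  simp [ev]

theorem ev_apply {R : Type*} [CommRing R] (ψ : AddChar (ZMod p) R)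
    (T : AddMonoidAlgebra ℤ (ZMod p)) : ev ψ T = ∑ x, (T.coeff x : R) * ψ x := by
  induction T using AddMonoidAlgebra.induction_linear with
  | zero => simp
  | add f g hf hg =>
    simp only [map_add, coeff_add, Finsupp.add_apply, hf, hg, Int.cast_add, add_mul,
      Finset.sum_add_distrib]
  | single a r =>
    rw [ev_single, Finset.sum_eq_single a]
    · simp
    · intro b _ hb
      simp [Finsupp.single_apply, Ne.symm hb]
    · simp

theorem ev_dil {R : Type*} [CommRing R] (ψ : AddChar (ZMod p) R) (s : ZMod p)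
    (T : AddMonoidAlgebra ℤ (ZMod p)) : ev ψ (dil s T) = ev (ψ.mulShift s) T := by
  induction T using AddMonoidAlgebra.induction_linear with
  | zero => simp
  | add f g hf hg => simp only [map_add, hf, hg]
  | single a r => rw [dil_single, ev_single, ev_single, AddChar.mulShift_apply]

/-- invariance under squares -/
def SqInv (T : AddMonoidAlgebra ℤ (ZMod p)) : Prop :=
  ∀ s : ZMod p, s ≠ 0 → IsSquare s → dil s T = T

theorem SqInv.coeff {T : AddMonoidAlgebra ℤ (ZMod p)} (hT : SqInv T) (hp : p % 4 = 3)
    (x : ZMod p) (hx : x ≠ 0) :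
    2 * T.coeff x = T.coeff 1 + T.coeff (-1) +
      quadraticChar (ZMod p) x * (T.coeff 1 - T.coeff (-1)) := by
  have key : ∀ s : ZMod p, s ≠ 0 → IsSquare s → ∀ y, T.coeff (s * y) = T.coeff y := by
    intro s hs hsq y
    have h1 := coeff_dil hs T y
    rwa [hT s hs hsq] at h1
  rcases quadraticChar_dichotomy hx with h | h
  · have h1 := key x hx ((quadraticChar_one_iff_isSquare hx).mp h) 1
    rw [mul_one] at h1
    rw [h1, h]; ring
  · have hm1 : quadraticChar (ZMod p) (-1) = -1 := by
      rw [quadraticChar_neg_one_iff_not_isSquare, FiniteField.isSquare_neg_one_iff, ZMod.card]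
      simp [hp]
    have hnx : -x ≠ 0 := neg_ne_zero.mpr hx
    have h2 : quadraticChar (ZMod p) (-x) = 1 := by
      rw [← neg_one_mul, map_mul, hm1, h]; norm_num
    have h1 := key (-x) hnx ((quadraticChar_one_iff_isSquare hnx).mp h2) (-1)
    rw [mul_neg_one, neg_neg] at h1
    rw [h1, h]; ring

theorem two_sum {T : AddMonoidAlgebra ℤ (ZMod p)} (hT : SqInv T) (hp : p % 4 = 3)
    {R : Type*} [CommRing R] (F : ZMod p → R) :
    2 * ∑ x, (T.coeff x : R) * F x = (2 * T.coeff 0 - T.coeff 1 - T.coeff (-1) : ℤ) * F 0 +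
      (T.coeff 1 + T.coeff (-1) : ℤ) * ∑ x, F x +
      (T.coeff 1 - T.coeff (-1) : ℤ) * ∑ x, (quadraticChar (ZMod p) x : R) * F x := by
  have h0 : ((2 * T.coeff 0 - T.coeff 1 - T.coeff (-1) : ℤ) : R) * F 0 =
      ∑ x : ZMod p, if x = 0 then
        ((2 * T.coeff 0 - T.coeff 1 - T.coeff (-1) : ℤ) : R) * F x else 0 := by
    rw [Finset.sum_ite_eq' Finset.univ (0 : ZMod p)]
    simp
  rw [h0, Finset.mul_sum, Finset.mul_sum, Finset.mul_sum, ← Finset.sum_add_distrib,
    ← Finset.sum_add_distrib]
  refine Finset.sum_congr rfl fun x _ => ?_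
  by_cases hx : x = 0
  · subst hx
    simp only [if_true, MulChar.map_zero]
    push_cast
    ring
  · rw [if_neg hx]
    have h1 := hT.coeff hp x hx
    have h2 := congrArg (Int.cast : ℤ → R) h1
    push_cast at h2 ⊢
    linear_combination F x * h2

end Pool.Agent.LibH97.AffDiff
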