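import Mathlib
import Pool.Agent.Lib_helper97.AffDiff.GroupRing

/-!
The norm to the quadratic subfield of an element `π ^ 2 + 4 ρ` of the integral group ring of the
cyclic group of prime order `p = 3 mod 4`.
-/

namespace Pool.Agent.LibH97.AffDiff

open AddMonoidAlgebra

variable {p : ℕ} [Fact p.Prime]

/-- the nonzero squares modulo `p` -/
def sqs (p : ℕ) [Fact p.Prime] : Finset (ZMod p) :=
  Finset.univ.filter (fun s => quadraticChar (ZMod p) s = 1)

theorem mem_sqs (s : ZMod p) : s ∈ sqs p ↔ s ≠ 0 ∧ IsSquare s := by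
  simp only [sqs, Finset.mem_filter, Finset.mem_univ, true_and]
  constructor
  · intro h
    have h0 : s ≠ 0 := by
      rintro rfl
      rw [MulChar.map_zero] at h
      exact absurd h (by norm_num)
    exact ⟨h0, (quadraticChar_one_iff_isSquare h0).mp h⟩
  · rintro ⟨h0, h⟩
    exact (quadraticChar_one_iff_isSquare h0).mpr h

theorem ringChar_ne_two (hp : p % 4 = 3) : ringChar (ZMod p) ≠ 2 := by
  rw [ZMod.ringChar_zmod_n]; omega

theorem two_mul_card_sqs (hp : p % 4 = 3) : 2 * (sqs p).card + 1 = p := by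
  have h1 : ∑ x : ZMod p, ((1 : ℤ) + quadraticChar (ZMod p) x) = p := by
    rw [Finset.sum_add_distrib, quadraticChar_sum_zero (ringChar_ne_two hp)]
    simp
  have h2 : ∑ x : ZMod p, ((1 : ℤ) + quadraticChar (ZMod p) x) =
      ∑ x : ZMod p, ((if quadraticChar (ZMod p) x = 1 then (2 : ℤ) else 0) +
        if x = 0 then 1 else 0) := by
    refine Finset.sum_congr rfl fun x _ => ?_
    by_cases hx : x = 0
    · subst hx
      simp
    · rcases quadraticChar_dichotomy hx with h | h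
      · rw [h, if_pos rfl, if_neg hx]; norm_num
      · rw [h, if_neg (by norm_num), if_neg hx]; norm_num
  rw [h2, Finset.sum_add_distrib, Finset.sum_ite_eq' Finset.univ (0 : ZMod p),
    ← Finset.sum_filter, Finset.sum_const] at h1
  simp only [Finset.mem_univ, if_true] at h1
  have h3 : ((sqs p).card : ℤ) * 2 + 1 = p := by
    rw [← h1]; simp [sqs]
  omega

/-- the norm to the invariants -/
noncomputable def nrm (T : AddMonoidAlgebra ℤ (ZMod p)) : AddMonoidAlgebra ℤ (ZMod p) :=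
  ∏ s ∈ sqs p, dil s T

theorem sqInv_nrm (T : AddMonoidAlgebra ℤ (ZMod p)) : SqInv (nrm T) := by
  intro t ht hsq
  unfold nrm
  rw [map_prod]
  refine Finset.prod_bij' (fun s _ => t * s) (fun s _ => t⁻¹ * s) ?_ ?_ ?_ ?_ ?_
  · intro s hs
    rw [mem_sqs] at hs ⊢
    exact ⟨mul_ne_zero ht hs.1, hsq.mul hs.2⟩
  · intro s hs
    rw [mem_sqs] at hs ⊢
    exact ⟨mul_ne_zero (inv_ne_zero ht) hs.1, hsq.inv.mul hs.2⟩
  · intro s _
    rw [← mul_assoc, inv_mul_cancel₀ ht, one_mul]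
  · intro s _
    rw [← mul_assoc, mul_inv_cancel₀ ht, one_mul]
  · intro s _
    rw [dil_dil]

theorem prod_sq_add {ι R : Type*} [CommRing R] [DecidableEq ι] (S : Finset ι) (a b : ι → R) :
    ∃ P, ∏ s ∈ S, (a s * a s + 4 * b s) = (∏ s ∈ S, a s) * (∏ s ∈ S, a s) + 4 * P := by
  induction S using Finset.induction_on with
  | empty => exact ⟨0, by simp⟩
  | insert i S hi ih =>
    obtain ⟨P, hP⟩ := ih
    rw [Finset.prod_insert hi, Finset.prod_insert hi, hP]
    exact ⟨a i * a i * P + b i * ((∏ s ∈ S, a s) * (∏ s ∈ S, a s)) + 4 * (b i * P), by ring⟩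

theorem four_mul_inj {X Y : AddMonoidAlgebra ℤ (ZMod p)} (h : 4 * X = 4 * Y) : X = Y := by
  have h1 : (4 : ℤ) • X = (4 : ℤ) • Y := by
    rw [zsmul_eq_mul, zsmul_eq_mul]
    exact_mod_cast h
  apply AddMonoidAlgebra.coeff_injective
  ext x
  have h2 := congrArg (fun T => T.coeff x) h1
  simp only [AddMonoidAlgebra.coeff_smul, Finsupp.smul_apply, smul_eq_mul] at h2
  omega

theorem nrm_sq_add (Y π ρ : AddMonoidAlgebra ℤ (ZMod p)) (h : Y = π * π + 4 * ρ) :
    ∃ P, SqInv P ∧ nrm Y = nrm π * nrm π + 4 * P := by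
  obtain ⟨P, hP⟩ := prod_sq_add (sqs p) (fun s => dil s π) (fun s => dil s ρ)
  have h1 : nrm Y = nrm π * nrm π + 4 * P := by
    unfold nrm
    rw [← hP]
    refine Finset.prod_congr rfl fun s _ => ?_
    rw [h, map_add, map_mul, map_mul, map_ofNat]
  refine ⟨P, ?_, h1⟩
  intro t ht hsq
  apply four_mul_inj
  have h2 := sqInv_nrm Y t ht hsq
  rw [h1, map_add, map_mul, map_mul, sqInv_nrm π t ht hsq, map_ofNat] at h2
  exact add_left_cancel h2

/-- twice the rational part -/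
noncomputable def xx (T : AddMonoidAlgebra ℤ (ZMod p)) : ℤ :=
  2 * T.coeff 0 - T.coeff 1 - T.coeff (-1)

/-- twice the irrational part -/
noncomputable def yy (T : AddMonoidAlgebra ℤ (ZMod p)) : ℤ := T.coeff 1 - T.coeff (-1)

theorem two_dvd_xx_sub_yy (T : AddMonoidAlgebra ℤ (ZMod p)) : (2 : ℤ) ∣ xx T - yy T := by
  unfold xx yy
  exact ⟨T.coeff 0 - T.coeff 1, by ring⟩

/-- the Gauss sum -/
noncomputable def gs (p : ℕ) [Fact p.Prime] : ℂ :=
  ∑ x : ZMod p, (quadraticChar (ZMod p) x : ℂ) * ZMod.stdAddChar x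

theorem gs_sq (hp : p % 4 = 3) : gs p * gs p = -(p : ℂ) := by
  have hne : quadraticChar (ZMod p) ≠ 1 := quadraticChar_ne_one (ringChar_ne_two hp)
  have h1 := gaussSum_sq (χ := (quadraticChar (ZMod p)).ringHomComp (Int.castRingHom ℂ))
    ((MulChar.ringHomComp_ne_one_iff (RingHom.injective_int _)).mpr hne)
    ((quadraticChar_isQuadratic (ZMod p)).comp _) (ψ := ZMod.stdAddChar)
    (ZMod.isPrimitive_stdAddChar p)
  have hm1 : quadraticChar (ZMod p) (-1) = -1 := by
    rw [quadraticChar_neg_one_iff_not_isSquare, FiniteField.isSquare_neg_one_iff, ZMod.card]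
    simp [hp]
  rw [MulChar.ringHomComp_apply, hm1, ZMod.card] at h1
  rw [← pow_two]
  refine Eq.trans ?_ (h1.trans ?_)
  · rfl
  · simp

theorem gs_re (hp : p % 4 = 3) : (gs p).re = 0 ∧ (gs p).im ≠ 0 := by
  have h := gs_sq (p := p) hp
  have hre := congrArg Complex.re h
  have him := congrArg Complex.im h
  simp only [Complex.mul_re, Complex.mul_im, Complex.neg_re, Complex.neg_im, Complex.natCast_re,
    Complex.natCast_im] at hre him
  have hp0 : (0 : ℝ) < p := by exact_mod_cast (Fact.out : p.Prime).pos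
  have hprod : (gs p).re * (gs p).im = 0 := by nlinarith
  rcases mul_eq_zero.mp hprod with h0 | h0
  · refine ⟨h0, ?_⟩
    intro h1
    rw [h0, h1] at hre
    nlinarith
  · exfalso
    rw [h0] at hre
    nlinarith [mul_self_nonneg (gs p).re]

theorem gs_indep (hp : p % 4 = 3) (x y x' y' : ℤ) (h : (x : ℂ) + y * gs p = x' + y' * gs p) :
    x = x' ∧ y = y' := by
  obtain ⟨h0, h1⟩ := gs_re (p := p) hp
  have hre := congrArg Complex.re h
  have him := congrArg Complex.im h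
  simp only [Complex.add_re, Complex.add_im, Complex.mul_re, Complex.mul_im, Complex.intCast_re,
    Complex.intCast_im, h0, mul_zero, zero_mul, sub_zero, add_zero, zero_add] at hre him
  exact ⟨by exact_mod_cast hre, by exact_mod_cast mul_right_cancel₀ h1 him⟩

theorem two_ev {T : AddMonoidAlgebra ℤ (ZMod p)} (hT : SqInv T) (hp : p % 4 = 3) :
    2 * ev ZMod.stdAddChar T = (xx T : ℂ) + yy T * gs p := by
  have h1 := two_sum hT hp (fun x => (ZMod.stdAddChar x : ℂ))
  have h2 : ∑ x : ZMod p, (ZMod.stdAddChar x : ℂ) = 0 := by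
    apply AddChar.sum_eq_zero_of_ne_one
    intro h
    have h3 := ZMod.isPrimitive_stdAddChar p (a := (1 : ZMod p)) one_ne_zero
    apply h3
    rw [AddChar.mulShift_one]
    exact h
  rw [h2, mul_zero, add_zero, AddChar.map_zero_eq_one, mul_one] at h1
  rw [ev_apply, h1]
  rfl

theorem dvd_xx_sub {T : AddMonoidAlgebra ℤ (ZMod p)} (hT : SqInv T) (hp : p % 4 = 3) :
    (p : ℤ) ∣ xx T - 2 * ev (1 : AddChar (ZMod p) ℤ) T := by
  have h1 := two_sum hT hp (fun _ => (1 : ℤ))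
  have h2 : ∑ x : ZMod p, (quadraticChar (ZMod p) x : ℤ) * (1 : ℤ) = 0 := by
    simp only [mul_one]
    exact quadraticChar_sum_zero (ringChar_ne_two hp)
  have h3 : ∑ _x : ZMod p, (1 : ℤ) = p := by simp
  have h4 : ev (1 : AddChar (ZMod p) ℤ) T = ∑ x, (T.coeff x : ℤ) * 1 := by
    rw [ev_apply]
    refine Finset.sum_congr rfl fun x _ => ?_
    simp
  have h5 : 2 * ∑ x, (T.coeff x : ℤ) * 1 = xx T + (T.coeff 1 + T.coeff (-1)) * p := by
    refine Eq.trans h1 ?_
    rw [h3]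
    have h6 : ∑ x : ZMod p, ((quadraticChar (ZMod p) x : ℤ) : ℤ) * (1 : ℤ) = 0 := h2
    simp only [Int.cast_id] at *
    rw [h6]
    unfold xx
    ring
  rw [h4, h5]
  exact ⟨-(T.coeff 1 + T.coeff (-1)), by ring⟩

theorem relations (hp : p % 4 = 3) (Y π ρ : AddMonoidAlgebra ℤ (ZMod p))
    (hY : Y = π * π + 4 * ρ) (c : ℕ)
    (hc : ∀ s : ZMod p, s ≠ 0 → ev (ZMod.stdAddChar.mulShift s) Y *
      (starRingEnd ℂ) (ev (ZMod.stdAddChar.mulShift s) Y) = c)
    (a : ℤ) (ha : ev (1 : AddChar (ZMod p) ℤ) Y = a) :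
    ∃ x y e f u v : ℤ, x ^ 2 + p * y ^ 2 = 4 * (c : ℤ) ^ (sqs p).card ∧
      (p : ℤ) ∣ x - 2 * a ^ (sqs p).card ∧ 2 * x = e ^ 2 - p * f ^ 2 + 8 * u ∧
      y = e * f + 4 * v ∧ (2 : ℤ) ∣ e - f ∧ (2 : ℤ) ∣ u - v := by
  obtain ⟨P, hPinv, hP⟩ := nrm_sq_add Y π ρ hY
  have hg2 := gs_sq (p := p) hp
  refine ⟨xx (nrm Y), yy (nrm Y), xx (nrm π), yy (nrm π), xx P, yy P, ?_, ?_, ?_⟩
  · -- absolute value
    have h1 := two_ev (sqInv_nrm Y) hp
    have h2 : ev ZMod.stdAddChar (nrm Y) * (starRingEnd ℂ) (ev ZMod.stdAddChar (nrm Y)) =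
        (c : ℂ) ^ (sqs p).card := by
      unfold nrm
      rw [map_prod, map_prod, ← Finset.prod_mul_distrib, ← Finset.prod_const]
      refine Finset.prod_congr rfl fun s hs => ?_
      rw [ev_dil]
      exact hc s ((mem_sqs s).mp hs).1
    have hconj : (starRingEnd ℂ) (gs p) = - gs p := by
      obtain ⟨h0, -⟩ := gs_re (p := p) hp
      apply Complex.ext
      · simp [h0]
      · simp
    have h3 := congrArg (starRingEnd ℂ) h1
    rw [map_mul, map_add, map_mul, hconj, map_ofNat, map_intCast,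
      map_intCast] at h3
    have h4 : ((xx (nrm Y) : ℂ)) ^ 2 + p * (yy (nrm Y) : ℂ) ^ 2 = 4 * (c : ℂ) ^ (sqs p).card := by
      rw [← h2]
      linear_combination (-2 * (starRingEnd ℂ) (ev ZMod.stdAddChar (nrm Y))) * h1
        - ((xx (nrm Y) : ℂ) + (yy (nrm Y) : ℂ) * gs p) * h3 + (yy (nrm Y) : ℂ) ^ 2 * hg2
    exact_mod_cast h4
  · have h1 := dvd_xx_sub (sqInv_nrm Y) hp
    have h2 : ev (1 : AddChar (ZMod p) ℤ) (nrm Y) = a ^ (sqs p).card := by
      unfold nrm
      rw [map_prod, ← Finset.prod_const]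
      refine Finset.prod_congr rfl fun s _ => ?_
      rw [ev_dil, ← ha]
      congr 1
    rwa [h2] at h1
  · have h1 := two_ev (sqInv_nrm Y) hp
    have h2 := two_ev (sqInv_nrm π) hp
    have h3 := two_ev hPinv hp
    have h4 := congrArg (ev (ZMod.stdAddChar (N := p))) hP
    rw [map_add, map_mul, map_mul, map_ofNat] at h4
    have h5 : ((2 * xx (nrm Y) : ℤ) : ℂ) + ((2 * yy (nrm Y) : ℤ) : ℂ) * gs p =
        ((xx (nrm π) ^ 2 - p * yy (nrm π) ^ 2 + 8 * xx P : ℤ) : ℂ) +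
        ((2 * (xx (nrm π) * yy (nrm π)) + 8 * yy P : ℤ) : ℂ) * gs p := by
      push_cast
      linear_combination (-2 : ℂ) * h1 + 4 * h4 +
        (2 * ev ZMod.stdAddChar (nrm π) + ((xx (nrm π) : ℂ) + yy (nrm π) * gs p)) * h2 +
        8 * h3 + (yy (nrm π) : ℂ) ^ 2 * hg2
    obtain ⟨h6, h7⟩ := gs_indep hp _ _ _ _ h5
    refine ⟨h6, ?_, two_dvd_xx_sub_yy _, two_dvd_xx_sub_yy _⟩
    have h8 : 2 * yy (nrm Y) = 2 * (xx (nrm π) * yy (nrm π) + 4 * yy P) := by
      rw [h7]; ring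
    exact mul_left_cancel₀ (by norm_num) h8

end Pool.Agent.LibH97.AffDiff
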