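import Mathlib
import Pool.Agent.Lib_helper97.AffDiff.Pfaff
import Pool.Agent.Lib_helper97.AffDiff.Relations
import Pool.Agent.Lib_helper97.AffDiff.Arith

/-!
The core of the argument for orders `n = 3 mod 4`.
-/

namespace Pool.Agent.LibH97.AffDiff

open Matrix Finset AddMonoidAlgebra

theorem det_all_one_sub_one {Q : Type*} [Fintype Q] [DecidableEq Q] (n : ℕ)
    (hQ : Fintype.card Q = n + 1) (hn : n % 2 = 1) :
    (Matrix.of fun i j : Q => if i = j then (0 : ℤ) else 1).det = -n := by
  have h1 : (Matrix.of fun i j : Q => if i = j then (0 : ℤ) else 1) =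
      -(1 + replicateCol Unit (fun _ : Q => (-1 : ℤ)) * replicateRow Unit (fun _ : Q => (1 : ℤ))) := by
    ext i j
    by_cases hij : i = j
    · subst hij
      simp [Matrix.mul_apply]
    · simp [Matrix.mul_apply, hij]
  have heven : Even (Fintype.card Q) := by
    rw [hQ, Nat.even_iff]; omega
  rw [h1, det_neg, det_one_add_replicateCol_mul_replicateRow, heven.neg_one_pow]
  simp [dotProduct, hQ]

/-- The combinatorial core for `n = 3 mod 4`. -/
theorem core_three {Q H : Type*} [Fintype Q] [DecidableEq Q] [Group H] [Fintype H] {p : ℕ}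
    [Fact p.Prime] (hp : p % 4 = 3) (φ : H →* Multiplicative (ZMod p)) (hφ : φ ≠ 1) (m : Q → Q → H)
    (hm : ∀ i i', i ≠ i' → ∀ h : H, ∃! j, (j ≠ i ∧ j ≠ i') ∧ m i j * (m i' j)⁻¹ = h)
    (n : ℕ) (hQ : Fintype.card Q = n + 1) (hn : n % 4 = 3) (hpn : p ∣ n - 1)
    (hl : ∀ l : ℕ, l.Prime → l ∣ n → l % 4 = 3 → ¬ IsSquare (l : ZMod p)) : False := by
  classical
  -- transfer of sums
  have htrans : ∀ i i', i ≠ i' → ∀ {M : Type _} [AddCommMonoid M] (f : H → M),
      ∑ j ∈ (univ.erase i).erase i', f (m i j * (m i' j)⁻¹) = ∑ h, f h := by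
    intro i i' hii M _ f
    refine Finset.sum_bij (fun j _ => m i j * (m i' j)⁻¹) (fun _ _ => mem_univ _) ?_ ?_ ?_
    · intro a ha b hb hab
      simp only [mem_erase, mem_univ, and_true, ne_eq] at ha hb
      obtain ⟨j, -, huniq⟩ := hm i i' hii (m i a * (m i' a)⁻¹)
      rw [huniq a ⟨⟨ha.2, ha.1⟩, rfl⟩, huniq b ⟨⟨hb.2, hb.1⟩, hab.symm⟩]
    · intro h _
      obtain ⟨j, ⟨⟨h1, h2⟩, h3⟩, -⟩ := hm i i' hii h
      exact ⟨j, by simp [h1, h2], h3⟩
    · intro j _; rfl
  let α : H → ZMod p := fun h => Multiplicative.toAdd (φ h)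
  have hα_mul : ∀ g h, α (g * h) = α g + α h := fun g h => by simp [α]
  have hα_inv : ∀ g, α g⁻¹ = -α g := fun g => by simp [α]
  have hsum0 : ∑ h, α h = 0 := by
    have h1 : ∑ h, α h = ∑ h, α h⁻¹ := (Equiv.sum_comp (Equiv.inv H) (fun h => α h)).symm
    have h2 : 2 * ∑ h, α h = 0 := by
      rw [two_mul]
      nth_rewrite 2 [h1]
      rw [← Finset.sum_add_distrib]
      refine Finset.sum_eq_zero fun h _ => ?_
      rw [hα_inv]; ring
    have h3 : (2 : ZMod p) ≠ 0 := by
      intro h
      have h4 : ((2 : ℕ) : ZMod p) = 0 := by exact_mod_cast h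
      rw [ZMod.natCast_eq_zero_iff] at h4
      have := Nat.le_of_dvd (by norm_num) h4
      interval_cases p <;> omega
    exact (mul_eq_zero.mp h2).resolve_left h3
  -- row sums
  let r : Q → ZMod p := fun i => ∑ j ∈ univ.erase i, α (m i j)
  let b : Q → Q → ZMod p := fun i j => α (m i j) - r i
  have hsym : ∀ i i', i ≠ i' → b i i' = b i' i := by
    intro i i' hii
    have h1 := htrans i i' hii α
    rw [hsum0] at h1
    have e1 : r i = α (m i i') + ∑ j ∈ (univ.erase i).erase i', α (m i j) :=
      (Finset.add_sum_erase (univ.erase i) (fun j => α (m i j)) (by simp [Ne.symm hii])).symm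
    have e2 : r i' = α (m i' i) + ∑ j ∈ (univ.erase i').erase i, α (m i' j) :=
      (Finset.add_sum_erase (univ.erase i') (fun j => α (m i' j)) (by simp [hii])).symm
    have h3 : (univ.erase i').erase i = (univ.erase i).erase i' := by
      ext j; simp [and_comm]
    rw [h3] at e2
    have h4 : ∑ j ∈ (univ.erase i).erase i', α (m i j * (m i' j)⁻¹) =
        ∑ j ∈ (univ.erase i).erase i', α (m i j) -
        ∑ j ∈ (univ.erase i).erase i', α (m i' j) := by
      rw [← Finset.sum_sub_distrib]
      refine Finset.sum_congr rfl fun j _ => ?_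
      rw [hα_mul, hα_inv]; ring
    rw [h4] at h1
    simp only [b]
    linear_combination -h1 - e1 + e2
  -- the matrix over the group ring
  let M : Matrix Q Q (AddMonoidAlgebra ℤ (ZMod p)) :=
    Matrix.of fun i j => if i = j then 0 else single (b i j) 1
  have hM : ∀ i j, M i j = M j i := by
    intro i j
    simp only [M, Matrix.of_apply]
    by_cases hij : i = j
    · simp [hij]
    · rw [if_neg hij, if_neg (Ne.symm hij), hsym i j hij]
  obtain ⟨t, ht⟩ : ∃ t, Fintype.card Q = 4 * t := ⟨(n + 1) / 4, by rw [hQ]; omega⟩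
  obtain ⟨π, ρ, hY⟩ := det_symm_zero_diag M hM (fun i => by simp [M]) t ht
  -- orthogonality
  have horth : ∀ s : ZMod p, s ≠ 0 → ev (ZMod.stdAddChar.mulShift s) M.det *
      (starRingEnd ℂ) (ev (ZMod.stdAddChar.mulShift s) M.det) = ((n ^ (n + 1) : ℕ) : ℂ) := by
    intro s hs
    let ψ : AddChar (ZMod p) ℂ := ZMod.stdAddChar.mulShift s
    have hψ0 : ∑ h : H, ψ (α h) = 0 := by
      let g : H →* ℂ := ψ.toMonoidHom.comp φ
      have hg : g ≠ 1 := by
        intro hg
        apply hφ
        ext h
        have h1 : ψ (α h) = 1 := DFunLike.congr_fun hg h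
        have h2 : s * α h = 0 := by
          apply ZMod.injective_stdAddChar (N := p)
          rw [AddChar.map_zero_eq_one]
          exact h1
        have h3 : α h = 0 := (mul_eq_zero.mp h2).resolve_left hs
        change φ h = 1
        rw [← toAdd_eq_zero]
        exact h3
      exact sum_hom_units_eq_zero g hg
    have hconj : ∀ x, (starRingEnd ℂ) (ψ x) = ψ (-x) := by
      intro x
      have h1 : ringChar (ZMod p) ≠ 0 := by
        rw [ZMod.ringChar_zmod_n]; exact (Fact.out : p.Prime).ne_zero
      rw [AddChar.starComp_apply (Nat.pos_of_ne_zero h1), AddChar.inv_apply]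
    have hψψ : ∀ x, ψ x * ψ (-x) = 1 := by
      intro x
      rw [← AddChar.map_add_eq_mul, add_neg_cancel, AddChar.map_zero_eq_one]
    set B : Matrix Q Q ℂ := M.map (ev ψ) with hB
    have hBapp : ∀ i j, B i j = if i = j then 0 else ψ (b i j) := by
      intro i j
      simp only [hB, map_apply, M, Matrix.of_apply]
      by_cases hij : i = j
      · simp [hij]
      · rw [if_neg hij, if_neg hij, ev_single]; simp
    have hdet : ev ψ M.det = B.det := by rw [RingHom.map_det]; rfl
    have hdetc : (starRingEnd ℂ) (ev ψ M.det) = (B.map (starRingEnd ℂ)).det := by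
      rw [hdet, RingHom.map_det]; rfl
    have hBB : B * (B.map (starRingEnd ℂ))ᵀ = (n : ℂ) • (1 : Matrix Q Q ℂ) := by
      ext1 i i'
      rw [Matrix.mul_apply, Matrix.smul_apply, smul_eq_mul]
      simp only [transpose_apply, map_apply]
      by_cases hii : i = i'
      · subst hii
        rw [one_apply_eq, mul_one, ← Finset.add_sum_erase univ _ (mem_univ i)]
        have h0 : B i i * (starRingEnd ℂ) (B i i) = 0 := by simp [hBapp]
        rw [h0, zero_add]
        have h1 : ∀ j ∈ univ.erase i, B i j * (starRingEnd ℂ) (B i j) = 1 := by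
          intro j hj
          have hij : i ≠ j := (Finset.ne_of_mem_erase hj).symm
          rw [hBapp, if_neg hij, hconj, hψψ]
        rw [Finset.sum_congr rfl h1, Finset.sum_const, Finset.card_erase_of_mem (mem_univ i),
          Finset.card_univ, hQ]
        simp
      · rw [one_apply_ne hii, mul_zero]
        have hmem : i' ∈ univ.erase i := by simp [Ne.symm hii]
        rw [← Finset.add_sum_erase univ _ (mem_univ i), ← Finset.add_sum_erase _ _ hmem]
        have h0 : B i i * (starRingEnd ℂ) (B i' i) = 0 := by simp [hBapp]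
        have h0' : B i i' * (starRingEnd ℂ) (B i' i') = 0 := by simp [hBapp]
        rw [h0, h0', zero_add, zero_add]
        have h1 : ∀ j ∈ (univ.erase i).erase i', B i j * (starRingEnd ℂ) (B i' j) =
            ψ (r i' - r i) * ψ (α (m i j * (m i' j)⁻¹)) := by
          intro j hj
          simp only [mem_erase, mem_univ, and_true, ne_eq] at hj
          have hij : i ≠ j := fun h => hj.2 h.symm
          have hij' : i' ≠ j := fun h => hj.1 h.symm
          rw [hBapp, hBapp, if_neg hij, if_neg hij', hconj, ← AddChar.map_add_eq_mul,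
            ← AddChar.map_add_eq_mul]
          congr 1
          simp only [b, hα_mul, hα_inv]
          ring
        rw [Finset.sum_congr rfl h1, ← Finset.mul_sum, htrans i i' hii (fun h => ψ (α h)), hψ0,
          mul_zero]
    change ev ψ M.det * (starRingEnd ℂ) (ev ψ M.det) = _
    rw [hdetc, hdet, ← det_transpose (B.map (starRingEnd ℂ)), ← det_mul, hBB, det_smul, det_one,
      mul_one, hQ]
    push_cast
    rfl
  have haug : ev (1 : AddChar (ZMod p) ℤ) M.det = -n := by
    rw [← det_all_one_sub_one n hQ (by omega), RingHom.map_det]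
    congr 1
    ext i j
    simp only [RingHom.mapMatrix_apply, map_apply, M, Matrix.of_apply]
    by_cases hij : i = j
    · simp [hij]
    · rw [if_neg hij, if_neg hij, ev_single]; simp
  obtain ⟨x, y, e, f, u, v, h1, h2, h3, h4, h5, h6⟩ :=
    relations hp M.det π ρ hY (n ^ (n + 1)) horth (-n) haug
  have hcard := two_mul_card_sqs (p := p) hp
  set h := (sqs p).card with hh
  have hhodd : Odd h := by rw [Nat.odd_iff]; omega
  have h1' : x ^ 2 + p * y ^ 2 = 4 * ((n : ℤ) ^ (2 * t * h)) ^ 2 := by
    rw [h1]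
    push_cast
    rw [← pow_mul, ← pow_mul, ← hQ, ht]
    congr 2
    ring
  have hn1 : (p : ℤ) ∣ (n : ℤ) ^ h - 1 := by
    have h7 : (p : ℤ) ∣ (n : ℤ) - 1 := by
      have h8 : ((n - 1 : ℕ) : ℤ) = (n : ℤ) - 1 := by
        rw [Nat.cast_sub (by omega)]; simp
      rw [← h8]; exact_mod_cast hpn
    have h9 := sub_dvd_pow_sub_pow (n : ℤ) 1 h
    rw [one_pow] at h9
    exact h7.trans h9
  have h2' : (p : ℤ) ∣ x + 2 := by
    rw [hhodd.neg_pow] at h2
    have h7 := dvd_sub h2 (hn1.mul_left 2)
    have h8 : x - 2 * -(n : ℤ) ^ h - 2 * ((n : ℤ) ^ h - 1) = x + 2 := by ring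
    rwa [h8] at h7
  exact arith_contra hp n (2 * t * h) ((even_two_mul t).mul_right h) (by omega) hl x y e f u v
    h1' h2' h3 h4 h5 h6

end Pool.Agent.LibH97.AffDiff
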