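import Mathlib
import Pool.Agent.Lib_helper97.AffDiff.GroupRing

/-!
The integral group ring of the cyclic group of odd prime order `p`, modulo the sum of all group
elements: Frobenius, self-conjugate primes, and elements of absolute value one.
-/

namespace Pool.Agent.LibH97.AffDiff

open AddMonoidAlgebra

variable {p : ℕ} [Fact p.Prime]

/-- the sum of all group elements -/
noncomputable def nsum (p : ℕ) [Fact p.Prime] : AddMonoidAlgebra ℤ (ZMod p) :=
  ∑ x : ZMod p, single x 1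

theorem coeff_nsum (x : ZMod p) : (nsum p).coeff x = 1 := by
  rw [nsum, AddMonoidAlgebra.coeff_sum, Finsupp.finsetSum_apply, Finset.sum_eq_single x]
  · simp
  · intro b _ hb
    simp [hb]
  · simp

theorem dil_one (T : AddMonoidAlgebra ℤ (ZMod p)) : dil (1 : ZMod p) T = T := by
  induction T using AddMonoidAlgebra.induction_linear with
  | zero => simp
  | add f g hf hg => simp only [map_add, hf, hg]
  | single a r => rw [dil_single, one_mul]

theorem dil_nsum {s : ZMod p} (hs : s ≠ 0) : dil s (nsum p) = nsum p := by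
  unfold nsum
  rw [map_sum]
  refine Fintype.sum_bijective (fun x => s * x) (mulLeft_bijective₀ s hs) _ _ fun x => ?_
  rw [dil_single]

/-- the augmentation -/
noncomputable def aug (p : ℕ) [Fact p.Prime] : AddMonoidAlgebra ℤ (ZMod p) →+* ℤ :=
  ev (1 : AddChar (ZMod p) ℤ)

theorem aug_single (a : ZMod p) (r : ℤ) : aug p (single a r) = r := by
  rw [aug, ev_single]; simp

theorem aug_nsum : aug p (nsum p) = p := by
  unfold nsum
  rw [map_sum]
  simp [aug_single]

theorem aug_dil (s : ZMod p) (T : AddMonoidAlgebra ℤ (ZMod p)) : aug p (dil s T) = aug p T := by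
  rw [aug, ev_dil]
  congr 1

theorem mul_nsum (T : AddMonoidAlgebra ℤ (ZMod p)) : T * nsum p = aug p T • nsum p := by
  induction T using AddMonoidAlgebra.induction_linear with
  | zero => simp
  | add f g hf hg => rw [add_mul, hf, hg, map_add, add_smul]
  | single a r =>
    rw [aug_single]
    unfold nsum
    rw [Finset.mul_sum, Finset.smul_sum]
    refine Fintype.sum_bijective (fun x => a + x) (Equiv.addLeft a).bijective _ _ fun x => ?_
    rw [single_mul_single, smul_single]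
    simp

/-- Frobenius -/
theorem pow_prime_eq (l : ℕ) (hl : l.Prime) (T : AddMonoidAlgebra ℤ (ZMod p)) :
    ∃ U, T ^ l = dil (l : ZMod p) T + (l : AddMonoidAlgebra ℤ (ZMod p)) * U := by
  induction T using AddMonoidAlgebra.induction_linear with
  | zero => exact ⟨0, by simp [hl.ne_zero]⟩
  | add f g hf hg =>
    obtain ⟨U, hU⟩ := hf
    obtain ⟨V, hV⟩ := hg
    obtain ⟨r, hr⟩ := exists_add_pow_prime_eq hl f g
    refine ⟨U + V + f * g * r, ?_⟩
    rw [hr, hU, hV, map_add]; ring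
  | single a r =>
    have : Fact l.Prime := ⟨hl⟩
    obtain ⟨q, hq⟩ : (l : ℤ) ∣ r ^ l - r := by
      rw [← ZMod.intCast_zmod_eq_zero_iff_dvd]
      push_cast
      rw [ZMod.pow_card, sub_self]
    refine ⟨single ((l : ZMod p) * a) q, ?_⟩
    rw [single_pow, dil_single]
    have h1 : (l : AddMonoidAlgebra ℤ (ZMod p)) * single ((l : ZMod p) * a) q =
        single ((l : ZMod p) * a) ((l : ℤ) * q) := by
      rw [← nsmul_eq_mul, smul_single]
      simp
    rw [h1, ← single_add, nsmul_eq_mul]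
    congr 1
    omega

theorem pow_pow_eq (l : ℕ) (hl : l.Prime) (T : AddMonoidAlgebra ℤ (ZMod p)) (j : ℕ) :
    ∃ U, T ^ (l ^ j) = dil ((l : ZMod p) ^ j) T + (l : AddMonoidAlgebra ℤ (ZMod p)) * U := by
  induction j with
  | zero => exact ⟨0, by simp [dil_one]⟩
  | succ j ih =>
    obtain ⟨U, hU⟩ := ih
    obtain ⟨V, hV⟩ := pow_prime_eq l hl (dil ((l : ZMod p) ^ j) T)
    obtain ⟨r, hr⟩ := exists_add_pow_prime_eq hl (dil ((l : ZMod p) ^ j) T)
      ((l : AddMonoidAlgebra ℤ (ZMod p)) * U)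
    have hl1 : ∃ W : AddMonoidAlgebra ℤ (ZMod p),
        ((l : AddMonoidAlgebra ℤ (ZMod p)) * U) ^ l = (l : AddMonoidAlgebra ℤ (ZMod p)) * W := by
      obtain ⟨k, hk⟩ : ∃ k, l = k + 1 := ⟨l - 1, by have := hl.pos; omega⟩
      refine ⟨U * ((l : AddMonoidAlgebra ℤ (ZMod p)) * U) ^ k, ?_⟩
      nth_rewrite 2 [hk]
      rw [pow_succ]
      ring
    obtain ⟨W, hW⟩ := hl1
    refine ⟨V + W + dil ((l : ZMod p) ^ j) T * (l * U) * r, ?_⟩
    rw [pow_succ, pow_mul, hU, hr, hV, hW, dil_dil, pow_succ']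
    ring

/-- the ideal generated by `l` and the sum of all group elements -/
noncomputable def idl (p : ℕ) [Fact p.Prime] (l : ℕ) : Ideal (AddMonoidAlgebra ℤ (ZMod p)) :=
  Ideal.span {(l : AddMonoidAlgebra ℤ (ZMod p)), nsum p}

theorem mul_mem_idl (l : ℕ) (U : AddMonoidAlgebra ℤ (ZMod p)) :
    (l : AddMonoidAlgebra ℤ (ZMod p)) * U ∈ idl p l :=
  Ideal.mul_mem_right _ _ (Ideal.subset_span (by simp))

theorem mem_idl_of_pow {l : ℕ} (hl : l.Prime) (hlp : l ≠ p) (T : AddMonoidAlgebra ℤ (ZMod p))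
    (k : ℕ) (h : T ^ k ∈ idl p l) : T ∈ idl p l := by
  obtain ⟨U, hU⟩ := pow_pow_eq l hl T ((p - 1) * k)
  have hl0 : (l : ZMod p) ≠ 0 := by
    intro h0
    rw [ZMod.natCast_eq_zero_iff] at h0
    exact hlp ((Nat.prime_dvd_prime_iff_eq Fact.out hl).mp h0).symm
  have h1 : (l : ZMod p) ^ ((p - 1) * k) = 1 := by
    rw [pow_mul, ZMod.pow_card_sub_one_eq_one hl0, one_pow]
  rw [h1, dil_one] at hU
  have h2 : k ≤ l ^ ((p - 1) * k) := by
    have h3 : (p - 1) * k < l ^ ((p - 1) * k) := Nat.lt_pow_self hl.one_lt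
    have h4 : 1 * k ≤ (p - 1) * k := Nat.mul_le_mul_right _ (by
      have := (Fact.out : p.Prime).two_le; omega)
    omega
  have h5 : T ^ (l ^ ((p - 1) * k)) ∈ idl p l := by
    have h6 : l ^ ((p - 1) * k) = k + (l ^ ((p - 1) * k) - k) := by omega
    rw [h6, pow_add]
    exact Ideal.mul_mem_right _ _ h
  have h7 : T = T ^ (l ^ ((p - 1) * k)) - (l : AddMonoidAlgebra ℤ (ZMod p)) * U := by
    rw [hU]; ring
  rw [h7]
  exact sub_mem h5 (mul_mem_idl l U)

theorem mem_idl_of_selfConj {l : ℕ} (hl : l.Prime) (hlp : l ≠ p) (j : ℕ)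
    (hj : (l : ZMod p) ^ j = -1) (T : AddMonoidAlgebra ℤ (ZMod p))
    (h : T * dil (-1 : ZMod p) T ∈ idl p l) : T ∈ idl p l := by
  obtain ⟨U, hU⟩ := pow_pow_eq l hl T j
  rw [hj] at hU
  apply mem_idl_of_pow hl hlp T (l ^ j + 1)
  rw [pow_succ, hU]
  have h1 : (dil (-1 : ZMod p) T + (l : AddMonoidAlgebra ℤ (ZMod p)) * U) * T =
      T * dil (-1 : ZMod p) T + (l : AddMonoidAlgebra ℤ (ZMod p)) * (U * T) := by ring
  rw [h1]
  exact add_mem h (mul_mem_idl l _)

/-- the multiples of the sum of all group elements -/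
noncomputable def idn (p : ℕ) [Fact p.Prime] : Ideal (AddMonoidAlgebra ℤ (ZMod p)) := Ideal.span {nsum p}

theorem mem_idn {T : AddMonoidAlgebra ℤ (ZMod p)} : T ∈ idn p ↔ ∃ c : ℤ, T = c • nsum p := by
  rw [idn, Ideal.mem_span_singleton']
  constructor
  · rintro ⟨a, rfl⟩
    exact ⟨aug p a, mul_nsum a⟩
  · rintro ⟨c, rfl⟩
    exact ⟨(c : AddMonoidAlgebra ℤ (ZMod p)), by rw [zsmul_eq_mul]⟩

theorem idn_le_idl (l : ℕ) : idn p ≤ idl p l := by
  unfold idn idl
  exact Ideal.span_mono (by simp)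

theorem mem_idl_iff {l : ℕ} {T : AddMonoidAlgebra ℤ (ZMod p)} :
    T ∈ idl p l ↔ ∃ U, T - (l : AddMonoidAlgebra ℤ (ZMod p)) * U ∈ idn p := by
  constructor
  · intro h
    rw [idl, Ideal.mem_span_pair] at h
    obtain ⟨a, b, rfl⟩ := h
    refine ⟨a, ?_⟩
    have : a * (l : AddMonoidAlgebra ℤ (ZMod p)) + b * nsum p - l * a = b * nsum p := by ring
    rw [this]
    exact Ideal.mul_mem_left _ _ (Ideal.subset_span rfl)
  · rintro ⟨U, hU⟩
    have : T = (T - (l : AddMonoidAlgebra ℤ (ZMod p)) * U) + l * U := by ring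
    rw [this]
    exact add_mem (idn_le_idl l hU) (mul_mem_idl l U)

/-- coefficient of `T T*` at zero -/
theorem coeff_mul_conj (T : AddMonoidAlgebra ℤ (ZMod p)) :
    (T * dil (-1 : ZMod p) T).coeff 0 = ∑ x, T.coeff x ^ 2 := by
  have key : ∀ S : AddMonoidAlgebra ℤ (ZMod p), (S * dil (-1 : ZMod p) T).coeff 0 =
      ∑ x, S.coeff x * T.coeff x := by
    intro S
    induction S using AddMonoidAlgebra.induction_linear with
    | zero => simp
    | add f g hf hg =>
      rw [add_mul, AddMonoidAlgebra.coeff_add, Finsupp.add_apply, hf, hg, ← Finset.sum_add_distrib]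
      refine Finset.sum_congr rfl fun x _ => ?_
      rw [AddMonoidAlgebra.coeff_add, Finsupp.add_apply]; ring
    | single a r =>
      rw [Finset.sum_eq_single a]
      · have h1 : (dil (-1 : ZMod p) T).coeff (-a) = T.coeff a := by
          have := coeff_dil (neg_ne_zero.mpr one_ne_zero) T a
          rwa [neg_one_mul] at this
        have h2 : (single a r * dil (-1 : ZMod p) T).coeff 0 =
            r * (dil (-1 : ZMod p) T).coeff (-a) := by
          apply AddMonoidAlgebra.coeff_single_mul_eq_mul_coeff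
          intro m _
          exact ⟨fun h => (neg_eq_of_add_eq_zero_right h).symm, fun h => by rw [h, add_neg_cancel]⟩
        rw [h2, h1]
        simp
      · intro b _ hb
        simp [Ne.symm hb]
      · simp
  rw [key]
  refine Finset.sum_congr rfl fun x _ => by ring

/-- An element of absolute value one at all nontrivial characters is trivial. -/
theorem unit_of_mul_conj (U : AddMonoidAlgebra ℤ (ZMod p))
    (h : U * dil (-1 : ZMod p) U - 1 ∈ idn p) :
    ∃ (x : ZMod p) (ε : ℤ), (ε = 1 ∨ ε = -1) ∧ U - single x ε ∈ idn p := by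
  have hpZ : Prime (p : ℤ) := Nat.prime_iff_prime_int.mp Fact.out
  have hm1 : (-1 : ZMod p) ≠ 0 := neg_ne_zero.mpr one_ne_zero
  obtain ⟨c, hc⟩ := mem_idn.mp h
  have h1 := congrArg (aug p) hc
  rw [map_sub, map_mul, aug_dil, map_one, map_zsmul, aug_nsum, smul_eq_mul] at h1
  obtain ⟨ε, k, hε, hk⟩ : ∃ ε k : ℤ, (ε = 1 ∨ ε = -1) ∧ aug p U = ε + k * p := by
    have h2 : (p : ℤ) ∣ (aug p U - 1) * (aug p U + 1) := ⟨c, by linear_combination h1⟩
    rcases hpZ.dvd_or_dvd h2 with ⟨k, hk⟩ | ⟨k, hk⟩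
    · exact ⟨1, k, Or.inl rfl, by linear_combination hk⟩
    · exact ⟨-1, k, Or.inr rfl, by linear_combination hk⟩
  set U' := U - k • nsum p with hU'
  have hdU' : dil (-1 : ZMod p) U' = dil (-1 : ZMod p) U - k • nsum p := by
    rw [hU', map_sub, map_zsmul, dil_nsum hm1]
  have haug' : aug p U' = ε := by
    rw [hU', map_sub, map_zsmul, aug_nsum, hk, smul_eq_mul]; ring
  have hmem : U' * dil (-1 : ZMod p) U' - 1 ∈ idn p := by
    have h3 : U' * dil (-1 : ZMod p) U' - 1 = (U * dil (-1 : ZMod p) U - 1) -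
        (U + dil (-1 : ZMod p) U - k • nsum p) * (k • nsum p) := by
      rw [hdU', hU']; ring
    rw [h3]
    exact sub_mem h (Ideal.mul_mem_left _ _ (mem_idn.mpr ⟨k, rfl⟩))
  obtain ⟨c', hc'⟩ := mem_idn.mp hmem
  have h4 := congrArg (aug p) hc'
  rw [map_sub, map_mul, aug_dil, map_one, map_zsmul, aug_nsum, smul_eq_mul, haug'] at h4
  have hε2 : ε * ε = 1 := by rcases hε with rfl | rfl <;> norm_num
  have hc0 : c' = 0 := by
    rw [hε2, sub_self] at h4
    exact (mul_eq_zero.mp h4.symm).resolve_right hpZ.ne_zero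
  rw [hc0, zero_smul, sub_eq_zero] at hc'
  have h5 : (U' * dil (-1 : ZMod p) U').coeff 0 = (1 : AddMonoidAlgebra ℤ (ZMod p)).coeff 0 := by
    rw [hc']
  rw [coeff_mul_conj] at h5
  have h6 : ((1 : AddMonoidAlgebra ℤ (ZMod p))).coeff 0 = 1 := by
    simp [AddMonoidAlgebra.one_def]
  rw [h6] at h5
  -- exactly one nonzero coefficient
  obtain ⟨x, hx⟩ : ∃ x, U'.coeff x ≠ 0 := by
    by_contra hcon
    push Not at hcon
    rw [Finset.sum_eq_zero (fun x _ => by rw [hcon x]; norm_num)] at h5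
    exact absurd h5 (by norm_num)
  have h7 := Finset.add_sum_erase Finset.univ (fun x => U'.coeff x ^ 2) (Finset.mem_univ x)
  rw [h5] at h7
  have h8 : 1 ≤ U'.coeff x ^ 2 := by
    have := sq_nonneg (U'.coeff x)
    have h9 : U'.coeff x ^ 2 ≠ 0 := pow_ne_zero 2 hx
    omega
  have h10 : 0 ≤ ∑ y ∈ Finset.univ.erase x, U'.coeff y ^ 2 :=
    Finset.sum_nonneg fun y _ => sq_nonneg _
  have h11 : ∑ y ∈ Finset.univ.erase x, U'.coeff y ^ 2 = 0 := by omega
  have h12 : ∀ y, y ≠ x → U'.coeff y = 0 := by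
    intro y hy
    have h13 := (Finset.sum_eq_zero_iff_of_nonneg (fun y _ => sq_nonneg _)).mp h11 y
      (by simp [hy])
    exact pow_eq_zero_iff (two_ne_zero) |>.mp h13
  have h14 : U' = single x (U'.coeff x) := by
    apply AddMonoidAlgebra.coeff_injective
    ext y
    rw [AddMonoidAlgebra.coeff_single, Finsupp.single_apply]
    split_ifs with hxy
    · rw [hxy]
    · exact h12 y (Ne.symm hxy)
  have h15 : U'.coeff x = ε := by
    rw [h14, aug_single] at haug'
    exact haug'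
  refine ⟨x, ε, hε, ?_⟩
  rw [← h15, ← h14, hU']
  have h16 : U - (U - k • nsum p) = k • nsum p := by ring
  rw [h16]
  exact mem_idn.mpr ⟨k, rfl⟩

/-- torsion-freeness modulo the sum of all group elements -/
theorem mem_idn_of_smul {m : ℕ} (hm : m ≠ 0) {T : AddMonoidAlgebra ℤ (ZMod p)}
    (h : (m : AddMonoidAlgebra ℤ (ZMod p)) * T ∈ idn p) : T ∈ idn p := by
  obtain ⟨c, hc⟩ := mem_idn.mp h
  have h1 : ∀ x, (m : ℤ) * T.coeff x = c := by
    intro x
    have h2 := congrArg (fun T => T.coeff x) hc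
    simp only [AddMonoidAlgebra.coeff_smul, Finsupp.smul_apply, coeff_nsum] at h2
    rw [← nsmul_eq_mul, AddMonoidAlgebra.coeff_smul, Finsupp.smul_apply] at h2
    simpa using h2
  refine mem_idn.mpr ⟨T.coeff 0, ?_⟩
  apply AddMonoidAlgebra.coeff_injective
  ext x
  rw [AddMonoidAlgebra.coeff_smul, Finsupp.smul_apply, coeff_nsum, smul_eq_mul, mul_one]
  have h3 := (h1 x).trans (h1 0).symm
  exact mul_left_cancel₀ (by exact_mod_cast hm) h3

theorem one_notMem_idl_two : (1 : AddMonoidAlgebra ℤ (ZMod p)) ∉ idl p 2 := by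
  intro h
  obtain ⟨U, hU⟩ := mem_idl_iff.mp h
  obtain ⟨c, hc⟩ := mem_idn.mp hU
  have key : ∀ x, (1 : AddMonoidAlgebra ℤ (ZMod p)).coeff x - 2 * U.coeff x = c := by
    intro x
    have h2 := congrArg (fun T => T.coeff x) hc
    simp only [AddMonoidAlgebra.coeff_smul, Finsupp.smul_apply, coeff_nsum] at h2
    rw [← nsmul_eq_mul, AddMonoidAlgebra.coeff_sub, Finsupp.sub_apply,
      AddMonoidAlgebra.coeff_smul, Finsupp.smul_apply] at h2
    simpa using h2
  have h0 := key 0
  have h1 := key 1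
  have e0 : ((1 : AddMonoidAlgebra ℤ (ZMod p))).coeff 0 = 1 := by
    simp [AddMonoidAlgebra.one_def]
  have e1 : ((1 : AddMonoidAlgebra ℤ (ZMod p))).coeff 1 = 0 := by
    simp [AddMonoidAlgebra.one_def]
  rw [e0] at h0
  rw [e1] at h1
  omega

end Pool.Agent.LibH97.AffDiff
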