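import Mathlib
import Pool.Agent.Lib_helper97.AffDiff.CoreThree
import Pool.Agent.Lib_helper97.AffDiff.SelfConj

/-!
The core of the argument for orders `n = 3 mod 4` all of whose prime divisors are self-conjugate
modulo an odd prime.
-/

namespace Pool.Agent.LibH97.AffDiff

open Finset AddMonoidAlgebra

theorem divide {p : ℕ} [Fact p.Prime] (m : ℕ) : m ≠ 0 →
    (∀ l : ℕ, l.Prime → l ∣ m → l ≠ p ∧ ∃ j, (l : ZMod p) ^ j = -1) →
    ∀ T W : AddMonoidAlgebra ℤ (ZMod p),
      T * dil (-1 : ZMod p) T - (m : AddMonoidAlgebra ℤ (ZMod p)) ^ 2 * W ∈ idn p →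
      ∃ U, T - (m : AddMonoidAlgebra ℤ (ZMod p)) * U ∈ idn p := by
  induction m using Nat.strong_induction_on with
  | _ m ih =>
  intro hm hs T W hT
  have hm1' : (-1 : ZMod p) ≠ 0 := neg_ne_zero.mpr one_ne_zero
  by_cases hm1 : m = 1
  · subst hm1
    exact ⟨T, by simp⟩
  · have hl := Nat.minFac_prime hm1
    set l := m.minFac with hldef
    obtain ⟨m', hm'⟩ : ∃ m', m = l * m' := Nat.minFac_dvd m
    have hm'0 : m' ≠ 0 := by rintro rfl; simp at hm'; exact hm hm'
    have hlt : m' < m := by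
      have h1 : 1 * m' < l * m' := Nat.mul_lt_mul_of_pos_right hl.one_lt (Nat.pos_of_ne_zero hm'0)
      omega
    obtain ⟨hlp, j, hj⟩ := hs l hl ⟨m', hm'⟩
    have hcast : (m : AddMonoidAlgebra ℤ (ZMod p)) = l * m' := by rw [hm']; push_cast; ring
    have h1 : T * dil (-1 : ZMod p) T ∈ idl p l := by
      have h2 : T * dil (-1 : ZMod p) T =
          (T * dil (-1 : ZMod p) T - (m : AddMonoidAlgebra ℤ (ZMod p)) ^ 2 * W) +
          l * (l * m' ^ 2 * W) := by rw [hcast]; ring
      rw [h2]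
      exact add_mem (idn_le_idl l hT) (mul_mem_idl l _)
    obtain ⟨X, hX⟩ := mem_idl_iff.mp (mem_idl_of_selfConj hl hlp j hj T h1)
    have hXd : dil (-1 : ZMod p) T - l * dil (-1 : ZMod p) X ∈ idn p := by
      obtain ⟨c, hc⟩ := mem_idn.mp hX
      refine mem_idn.mpr ⟨c, ?_⟩
      have h3 := congrArg (dil (-1 : ZMod p)) hc
      rw [map_sub, map_mul, map_natCast, map_zsmul, dil_nsum hm1'] at h3
      exact h3
    have h4 : X * dil (-1 : ZMod p) X - (m' : AddMonoidAlgebra ℤ (ZMod p)) ^ 2 * W ∈ idn p := by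
      apply mem_idn_of_smul (m := l * l) (mul_ne_zero hl.ne_zero hl.ne_zero)
      have h5 : ((l * l : ℕ) : AddMonoidAlgebra ℤ (ZMod p)) *
          (X * dil (-1 : ZMod p) X - (m' : AddMonoidAlgebra ℤ (ZMod p)) ^ 2 * W) =
          (T * dil (-1 : ZMod p) T - (m : AddMonoidAlgebra ℤ (ZMod p)) ^ 2 * W) -
          dil (-1 : ZMod p) T * (T - l * X) -
          (l * X) * (dil (-1 : ZMod p) T - l * dil (-1 : ZMod p) X) := by
        rw [hcast]; push_cast; ring
      rw [h5]
      exact sub_mem (sub_mem hT (Ideal.mul_mem_left _ _ hX)) (Ideal.mul_mem_left _ _ hXd)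
    obtain ⟨U, hU⟩ := ih m' hlt hm'0 (fun q hq hqm => hs q hq (by
      rw [hm']; exact dvd_mul_of_dvd_right hqm _)) X W h4
    refine ⟨U, ?_⟩
    have h6 : T - (m : AddMonoidAlgebra ℤ (ZMod p)) * U = (T - l * X) + l * (X - m' * U) := by
      rw [hcast]; ring
    rw [h6]
    exact add_mem hX (Ideal.mul_mem_left _ _ hU)

/-- The purely algebraic contradiction. -/
theorem self_contra {p : ℕ} [Fact p.Prime] (hp2 : p ≠ 2) (n t : ℕ) (hn : n % 2 = 1)
    (hpn : p ∣ n - 1) (hl : ∀ l : ℕ, l.Prime → l ∣ n → ∃ j, (l : ZMod p) ^ j = -1)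
    (Y π ρ : AddMonoidAlgebra ℤ (ZMod p)) (hY : Y = π * π + 4 * ρ)
    (haug : aug p Y = -n)
    (habs : Y * dil (-1 : ZMod p) Y - (n : AddMonoidAlgebra ℤ (ZMod p)) ^ (4 * t) ∈ idn p) :
    False := by
  have hm1' : (-1 : ZMod p) ≠ 0 := neg_ne_zero.mpr one_ne_zero
  have hn0 : n ≠ 0 := by rintro rfl; omega
  have hp2' : 2 < p := by
    have := (Fact.out : p.Prime).two_le
    omega
  have hpn' : ¬ p ∣ n := by
    intro h
    have h1 := Nat.dvd_sub h hpn
    have h2 : n - (n - 1) = 1 := by omega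
    rw [h2] at h1
    exact (Fact.out : p.Prime).one_lt.ne' (Nat.dvd_one.mp h1)
  set m : ℕ := n ^ (2 * t) with hm
  have hm0 : m ≠ 0 := pow_ne_zero _ hn0
  have hmc : (n : AddMonoidAlgebra ℤ (ZMod p)) ^ (4 * t) =
      (m : AddMonoidAlgebra ℤ (ZMod p)) ^ 2 * 1 := by
    rw [hm]; push_cast; rw [← pow_mul, mul_one]; congr 1; ring
  rw [hmc] at habs
  obtain ⟨U, hU⟩ := divide m hm0 (by
    intro l hlp hlm
    have hln : l ∣ n := hlp.dvd_of_dvd_pow hlm
    exact ⟨by rintro rfl; exact hpn' hln, hl l hlp hln⟩) Y 1 habs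
  have hUd : dil (-1 : ZMod p) Y - m * dil (-1 : ZMod p) U ∈ idn p := by
    obtain ⟨c, hc⟩ := mem_idn.mp hU
    refine mem_idn.mpr ⟨c, ?_⟩
    have h3 := congrArg (dil (-1 : ZMod p)) hc
    rw [map_sub, map_mul, map_natCast, map_zsmul, dil_nsum hm1'] at h3
    exact h3
  have hUU : U * dil (-1 : ZMod p) U - 1 ∈ idn p := by
    apply mem_idn_of_smul (m := m * m) (mul_ne_zero hm0 hm0)
    have h5 : ((m * m : ℕ) : AddMonoidAlgebra ℤ (ZMod p)) * (U * dil (-1 : ZMod p) U - 1) =
        (Y * dil (-1 : ZMod p) Y - (m : AddMonoidAlgebra ℤ (ZMod p)) ^ 2 * 1) -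
        dil (-1 : ZMod p) Y * (Y - m * U) -
        (m * U) * (dil (-1 : ZMod p) Y - m * dil (-1 : ZMod p) U) := by
      push_cast; ring
    rw [h5]
    exact sub_mem (sub_mem habs (Ideal.mul_mem_left _ _ hU)) (Ideal.mul_mem_left _ _ hUd)
  obtain ⟨x, ε, hε, hUx⟩ := unit_of_mul_conj U hUU
  have hYx : Y - m * single x ε ∈ idn p := by
    have : Y - (m : AddMonoidAlgebra ℤ (ZMod p)) * single x ε =
        (Y - m * U) + m * (U - single x ε) := by ring
    rw [this]
    exact add_mem hU (Ideal.mul_mem_left _ _ hUx)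
  have hε1 : ε = -1 := by
    rcases hε with rfl | rfl
    · exfalso
      obtain ⟨c, hc⟩ := mem_idn.mp hYx
      have h3 := congrArg (aug p) hc
      rw [map_sub, map_mul, map_natCast, map_zsmul, aug_nsum, aug_single, haug, smul_eq_mul] at h3
      have h7 : (p : ℤ) ∣ (n : ℤ) - 1 := by
        have h8 : ((n - 1 : ℕ) : ℤ) = (n : ℤ) - 1 := by
          rw [Nat.cast_sub (by omega)]; simp
        rw [← h8]; exact_mod_cast hpn
      have h9 := sub_dvd_pow_sub_pow (n : ℤ) 1 (2 * t)
      rw [one_pow] at h9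
      obtain ⟨a, ha⟩ := h7
      obtain ⟨b, hb⟩ := (Dvd.intro a ha.symm : (p : ℤ) ∣ (n : ℤ) - 1).trans h9
      have hmz : (m : ℤ) = (n : ℤ) ^ (2 * t) := by rw [hm]; push_cast; rfl
      have h10 : (p : ℤ) ∣ 2 := ⟨-a - b - c, by
        rw [hmz] at h3
        linear_combination -ha - hb - h3⟩
      have h11 : p ∣ 2 := by exact_mod_cast h10
      have := Nat.le_of_dvd (by norm_num) h11
      omega
    · rfl
  subst hε1
  -- the square root of `m x`
  obtain ⟨y, hy⟩ : ∃ y : ZMod p, y + y = x := by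
    have h2 : (2 : ZMod p) ≠ 0 := by
      intro h
      have h4 : ((2 : ℕ) : ZMod p) = 0 := by exact_mod_cast h
      rw [ZMod.natCast_eq_zero_iff] at h4
      have := Nat.le_of_dvd (by norm_num) h4
      omega
    exact ⟨x / 2, by field_simp; ring⟩
  obtain ⟨g, hg⟩ : ∃ g : AddMonoidAlgebra ℤ (ZMod p),
      g * g = (m : AddMonoidAlgebra ℤ (ZMod p)) * single x 1 := by
    refine ⟨(n : AddMonoidAlgebra ℤ (ZMod p)) ^ t * single y 1, ?_⟩
    have h1 : (single y 1 : AddMonoidAlgebra ℤ (ZMod p)) * single y 1 = single x 1 := by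
      rw [single_mul_single, hy]; simp
    rw [← h1, hm]; push_cast; ring
  have hneg : (single x (-1) : AddMonoidAlgebra ℤ (ZMod p)) = -single x 1 := by
    rw [eq_neg_iff_add_eq_zero, ← single_add]; simp
  have hsq : π * π + 4 * ρ + g * g ∈ idn p := by
    rw [hneg] at hYx
    have : π * π + 4 * ρ + g * g = Y - (m : AddMonoidAlgebra ℤ (ZMod p)) * -single x 1 := by
      rw [hY, hg]; ring
    rw [this]; exact hYx
  have h2i : (π + g) ^ 2 ∈ idl p 2 := by
    have : (π + g) ^ 2 = (π * π + 4 * ρ + g * g) +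
        ((2 : ℕ) : AddMonoidAlgebra ℤ (ZMod p)) * (π * g - 2 * ρ) := by push_cast; ring
    rw [this]
    exact add_mem (idn_le_idl 2 hsq) (mul_mem_idl 2 _)
  obtain ⟨κ, hκ⟩ := mem_idl_iff.mp (mem_idl_of_pow Nat.prime_two (Ne.symm hp2) _ 2 h2i)
  have hgg : g * g ∈ idl p 2 := by
    have h3 : (g * g) - ((2 : ℕ) : AddMonoidAlgebra ℤ (ZMod p)) * (-(κ * κ - κ * g + ρ)) ∈
        idn p := by
      apply mem_idn_of_smul (m := 2) (by norm_num)
      have h4 : ((2 : ℕ) : AddMonoidAlgebra ℤ (ZMod p)) *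
          ((g * g) - ((2 : ℕ) : AddMonoidAlgebra ℤ (ZMod p)) * (-(κ * κ - κ * g + ρ))) =
          (π * π + 4 * ρ + g * g) -
          (π - g + ((2 : ℕ) : AddMonoidAlgebra ℤ (ZMod p)) * κ) *
            (π + g - ((2 : ℕ) : AddMonoidAlgebra ℤ (ZMod p)) * κ) := by
        push_cast; ring
      rw [h4]
      exact sub_mem hsq (Ideal.mul_mem_left _ _ hκ)
    exact mem_idl_iff.mpr ⟨_, h3⟩
  rw [hg] at hgg
  have h1 : (m : AddMonoidAlgebra ℤ (ZMod p)) ∈ idl p 2 := by
    have h3 := Ideal.mul_mem_right (single (-x) 1) _ hgg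
    have h4 : (m : AddMonoidAlgebra ℤ (ZMod p)) * single x (1 : ℤ) * single (-x) (1 : ℤ) =
        (m : AddMonoidAlgebra ℤ (ZMod p)) := by
      rw [mul_assoc, single_mul_single, add_neg_cancel, mul_one, ← AddMonoidAlgebra.one_def,
        mul_one]
    rwa [h4] at h3
  apply one_notMem_idl_two (p := p)
  obtain ⟨a, ha⟩ : ∃ a, m = 2 * a + 1 := by
    have : Odd m := Odd.pow (Nat.odd_iff.mpr hn)
    exact this
  have h5 : (1 : AddMonoidAlgebra ℤ (ZMod p)) =
      m - ((2 : ℕ) : AddMonoidAlgebra ℤ (ZMod p)) * a := by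
    rw [ha]; push_cast; ring
  rw [h5]
  exact sub_mem h1 (mul_mem_idl 2 _)

section

open Matrix

/-- The combinatorial core for `n = 3 mod 4`, all prime divisors of `n` being self-conjugate. -/
theorem core_self {Q H : Type*} [Fintype Q] [DecidableEq Q] [Group H] [Fintype H] {p : ℕ}
    [Fact p.Prime] (hp2 : p ≠ 2) (φ : H →* Multiplicative (ZMod p)) (hφ : φ ≠ 1) (m : Q → Q → H)
    (hm : ∀ i i', i ≠ i' → ∀ h : H, ∃! j, (j ≠ i ∧ j ≠ i') ∧ m i j * (m i' j)⁻¹ = h)
    (n : ℕ) (hQ : Fintype.card Q = n + 1) (hn : n % 4 = 3) (hpn : p ∣ n - 1)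
    (hl : ∀ l : ℕ, l.Prime → l ∣ n → ∃ j, (l : ZMod p) ^ j = -1) : False := by
  classical
  have hp2' : 2 < p := by
    have := (Fact.out : p.Prime).two_le
    omega
  -- transfer of sums
  have htrans : ∀ i i', i ≠ i' → ∀ {M : Type _} [AddCommMonoid M] (f : H → M),
      ∑ j ∈ (univ.erase i).erase i', f (m i j * (m i' j)⁻¹) = ∑ h, f h := by
    intro i i' hii M _ f
    refine Finset.sum_bij (fun j _ => m i j * (m i' j)⁻¹) (fun _ _ => mem_univ _) ?_ ?_ ?_
    · intro a ha b hb hab
      simp only [mem_erase, mem_univ, and_true, ne_eq] at ha hb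
      obtain ⟨j, -, huniq⟩ := hm i i' hii (m i a * (m i' a)⁻¹)
      rw [huniq a ⟨⟨ha.2, ha.1⟩, rfl⟩, huniq b ⟨⟨hb.2, hb.1⟩, hab.symm⟩]
    · intro h _
      obtain ⟨j, ⟨⟨h1, h2⟩, h3⟩, -⟩ := hm i i' hii h
      exact ⟨j, by simp [h1, h2], h3⟩
    · intro j _; rfl
  let α : H → ZMod p := fun h => Multiplicative.toAdd (φ h)
  have hα_mul : ∀ g h, α (g * h) = α g + α h := fun g h => by simp [α]
  have hα_inv : ∀ g, α g⁻¹ = -α g := fun g => by simp [α]
  have hα_pow : ∀ g (k : ℕ), α (g ^ k) = k * α g := fun g k => by simp [α]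
  have hsurj : ∀ a, ∃ g, α g = a := by
    obtain ⟨g, hg⟩ : ∃ g, α g ≠ 0 := by
      by_contra hcon
      push Not at hcon
      apply hφ
      ext h
      exact hcon h
    intro a
    refine ⟨g ^ (a / α g).val, ?_⟩
    rw [hα_pow, ZMod.natCast_val, ZMod.cast_id, div_mul_cancel₀ _ hg]
  have hsum0 : ∑ h, α h = 0 := by
    have h1 : ∑ h, α h = ∑ h, α h⁻¹ := (Equiv.sum_comp (Equiv.inv H) (fun h => α h)).symm
    have h2 : 2 * ∑ h, α h = 0 := by
      rw [two_mul]
      nth_rewrite 2 [h1]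
      rw [← Finset.sum_add_distrib]
      refine Finset.sum_eq_zero fun h _ => ?_
      rw [hα_inv]; ring
    have h3 : (2 : ZMod p) ≠ 0 := by
      intro h
      have h4 : ((2 : ℕ) : ZMod p) = 0 := by exact_mod_cast h
      rw [ZMod.natCast_eq_zero_iff] at h4
      have := Nat.le_of_dvd (by norm_num) h4
      omega
    exact (mul_eq_zero.mp h2).resolve_left h3
  -- the sum over `H` is a multiple of the sum over the cyclic group
  have hX : ∑ h, (single (α h) 1 : AddMonoidAlgebra ℤ (ZMod p)) ∈ idn p := by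
    set X := ∑ h, (single (α h) 1 : AddMonoidAlgebra ℤ (ZMod p)) with hXdef
    have h1 : ∀ a : ZMod p, X.coeff a = X.coeff 0 := by
      intro a
      obtain ⟨g, rfl⟩ := hsurj a
      have h2 : (X.coeff (α g) : ℤ) = ∑ h, (single (α h) 1 : AddMonoidAlgebra ℤ (ZMod p)).coeff (α g) := by
        rw [hXdef, AddMonoidAlgebra.coeff_sum, Finsupp.finsetSum_apply]
      have h3 : (X.coeff 0 : ℤ) = ∑ h, (single (α h) 1 : AddMonoidAlgebra ℤ (ZMod p)).coeff 0 := by
        rw [hXdef, AddMonoidAlgebra.coeff_sum, Finsupp.finsetSum_apply]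
      rw [h2, h3]
      refine (Fintype.sum_bijective (fun h => g * h) (Group.mulLeft_bijective g) _ _ fun h => ?_).symm
      simp only [AddMonoidAlgebra.coeff_single, Finsupp.single_apply]
      congr 1
      rw [hα_mul]
      simp
    refine mem_idn.mpr ⟨X.coeff 0, ?_⟩
    apply AddMonoidAlgebra.coeff_injective
    ext a
    rw [AddMonoidAlgebra.coeff_smul, Finsupp.smul_apply, coeff_nsum, smul_eq_mul, mul_one]
    exact h1 a
  -- row sums
  let r : Q → ZMod p := fun i => ∑ j ∈ univ.erase i, α (m i j)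
  let b : Q → Q → ZMod p := fun i j => α (m i j) - r i
  have hsym : ∀ i i', i ≠ i' → b i i' = b i' i := by
    intro i i' hii
    have h1 := htrans i i' hii α
    rw [hsum0] at h1
    have e1 : r i = α (m i i') + ∑ j ∈ (univ.erase i).erase i', α (m i j) :=
      (Finset.add_sum_erase (univ.erase i) (fun j => α (m i j)) (by simp [Ne.symm hii])).symm
    have e2 : r i' = α (m i' i) + ∑ j ∈ (univ.erase i').erase i, α (m i' j) :=
      (Finset.add_sum_erase (univ.erase i') (fun j => α (m i' j)) (by simp [hii])).symm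
    have h3 : (univ.erase i').erase i = (univ.erase i).erase i' := by
      ext j; simp [and_comm]
    rw [h3] at e2
    have h4 : ∑ j ∈ (univ.erase i).erase i', α (m i j * (m i' j)⁻¹) =
        ∑ j ∈ (univ.erase i).erase i', α (m i j) -
        ∑ j ∈ (univ.erase i).erase i', α (m i' j) := by
      rw [← Finset.sum_sub_distrib]
      refine Finset.sum_congr rfl fun j _ => ?_
      rw [hα_mul, hα_inv]; ring
    rw [h4] at h1
    simp only [b]
    linear_combination -h1 - e1 + e2
  -- the matrix over the group ring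
  let M : Matrix Q Q (AddMonoidAlgebra ℤ (ZMod p)) :=
    Matrix.of fun i j => if i = j then 0 else AddMonoidAlgebra.single (b i j) 1
  have hM : ∀ i j, M i j = M j i := by
    intro i j
    simp only [M, Matrix.of_apply]
    by_cases hij : i = j
    · simp [hij]
    · rw [if_neg hij, if_neg (Ne.symm hij), hsym i j hij]
  obtain ⟨t, ht⟩ : ∃ t, Fintype.card Q = 4 * t := ⟨(n + 1) / 4, by rw [hQ]; omega⟩
  obtain ⟨π, ρ, hY⟩ := det_symm_zero_diag M hM (fun i => by simp [M]) t ht
  have haug : aug p M.det = -n := by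
    rw [← det_all_one_sub_one n hQ (by omega), RingHom.map_det]
    congr 1
    ext i j
    simp only [RingHom.mapMatrix_apply, map_apply, M, Matrix.of_apply]
    by_cases hij : i = j
    · simp [hij]
    · rw [if_neg hij, if_neg hij, aug_single]
  let mk := Ideal.Quotient.mk (idn p)
  have habs : M.det * dil (-1 : ZMod p) M.det -
      (n : AddMonoidAlgebra ℤ (ZMod p)) ^ (4 * t) ∈ idn p := by
    rw [← Ideal.Quotient.eq_zero_iff_mem, map_sub, sub_eq_zero, map_mul]
    have hdet1 : mk M.det = (M.map mk).det := by rw [RingHom.map_det]; rfl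
    have hdet2 : mk (dil (-1 : ZMod p) M.det) = ((M.map (dil (-1 : ZMod p))).map mk).det := by
      rw [RingHom.map_det, RingHom.map_det]; rfl
    have hBB : (M.map mk) * ((M.map (dil (-1 : ZMod p))).map mk)ᵀ =
        (n : AddMonoidAlgebra ℤ (ZMod p) ⧸ idn p) • (1 : Matrix Q Q _) := by
      ext1 i i'
      rw [Matrix.mul_apply, Matrix.smul_apply, smul_eq_mul]
      simp only [transpose_apply, map_apply]
      by_cases hii : i = i'
      · subst hii
        rw [one_apply_eq, mul_one, ← Finset.add_sum_erase univ _ (mem_univ i)]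
        have h0 : mk (M i i) * mk (dil (-1 : ZMod p) (M i i)) = 0 := by simp [M]
        rw [h0, zero_add]
        have h1 : ∀ j ∈ univ.erase i, mk (M i j) * mk (dil (-1 : ZMod p) (M i j)) = 1 := by
          intro j hj
          have hij : i ≠ j := (Finset.ne_of_mem_erase hj).symm
          simp only [M, Matrix.of_apply]
          rw [if_neg hij, dil_single, ← map_mul, single_mul_single, neg_one_mul, add_neg_cancel,
            mul_one, ← AddMonoidAlgebra.one_def, map_one]
        rw [Finset.sum_congr rfl h1, Finset.sum_const, Finset.card_erase_of_mem (mem_univ i),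
          Finset.card_univ, hQ]
        simp
      · rw [one_apply_ne hii, mul_zero]
        have hmem : i' ∈ univ.erase i := by simp [Ne.symm hii]
        rw [← Finset.add_sum_erase univ _ (mem_univ i), ← Finset.add_sum_erase _ _ hmem]
        have h0 : mk (M i i) * mk (dil (-1 : ZMod p) (M i' i)) = 0 := by simp [M]
        have h0' : mk (M i i') * mk (dil (-1 : ZMod p) (M i' i')) = 0 := by simp [M]
        rw [h0, h0', zero_add, zero_add]
        have h1 : ∀ j ∈ (univ.erase i).erase i', mk (M i j) * mk (dil (-1 : ZMod p) (M i' j)) =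
            mk (AddMonoidAlgebra.single (r i' - r i) 1) *
              mk (AddMonoidAlgebra.single (α (m i j * (m i' j)⁻¹)) 1) := by
          intro j hj
          simp only [mem_erase, mem_univ, and_true, ne_eq] at hj
          have hij : i ≠ j := fun h => hj.2 h.symm
          have hij' : i' ≠ j := fun h => hj.1 h.symm
          simp only [M, Matrix.of_apply]
          rw [if_neg hij, if_neg hij', dil_single, ← map_mul, ← map_mul, single_mul_single,
            single_mul_single]
          congr 2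
          simp only [b, hα_mul, hα_inv]
          ring
        rw [Finset.sum_congr rfl h1, ← Finset.mul_sum,
          htrans i i' hii (fun h => mk (AddMonoidAlgebra.single (α h) 1)), ← map_sum,
          Ideal.Quotient.eq_zero_iff_mem.mpr hX, mul_zero]
    change mk M.det * mk (dil (-1 : ZMod p) M.det) = mk _
    rw [hdet1, hdet2, ← det_transpose ((M.map (dil (-1 : ZMod p))).map mk), ← det_mul, hBB,
      det_smul, det_one, mul_one, ht, map_pow, map_natCast]
  exact self_contra hp2 n t (by omega) hpn hl M.det π ρ hY haug habs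

end

end Pool.Agent.LibH97.AffDiff
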