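import Mathlib

/-!
From an affine difference set relative to a normal subgroup to a matrix over that subgroup, and
nontrivial homomorphisms to a cyclic group of prime order.
-/

namespace Pool.Agent.LibH97.AffDiff

theorem exists_matrix {G : Type*} [Group G] [Finite G] (N : Subgroup G) [N.Normal]
    [Fintype (G ⧸ N)] (n : ℕ) (D : Finset G) (h2 : 2 ≤ n) (card_group : Nat.card G = n ^ 2 - 1)
    (card_subgroup : Nat.card N = n - 1) (card_set : D.card = n)
    (existsUnique_of_notMem : ∀ g : G, g ∉ N → ∃! d : G × G, d.1 ∈ D ∧ d.2 ∈ D ∧ d.1 * d.2⁻¹ = g)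
    (ne_of_mem : ∀ g : G, g ∈ N → g ≠ 1 → ∀ d₁ ∈ D, ∀ d₂ ∈ D, d₁ * d₂⁻¹ ≠ g) :
    Fintype.card (G ⧸ N) = n + 1 ∧ ∃ m : G ⧸ N → G ⧸ N → N,
      ∀ i i', i ≠ i' → ∀ h : N, ∃! j, (j ≠ i ∧ j ≠ i') ∧ m i j * (m i' j)⁻¹ = h := by
  classical
  have : Fintype G := Fintype.ofFinite G
  have : Fintype N := Fintype.ofFinite N
  -- the number of cosets
  have hcardQ : Fintype.card (G ⧸ N) = n + 1 := by
    have h1 := Subgroup.card_eq_card_quotient_mul_card_subgroup N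
    rw [card_group, card_subgroup, Nat.card_eq_fintype_card] at h1
    obtain ⟨a, rfl⟩ : ∃ a, n = a + 2 := ⟨n - 2, by omega⟩
    have h3 : (a + 2) ^ 2 - 1 = (a + 3) * (a + 1) := by
      have : (a + 2) ^ 2 = (a + 3) * (a + 1) + 1 := by ring
      omega
    rw [h3] at h1
    have h4 : a + 2 - 1 = a + 1 := rfl
    rw [h4] at h1
    exact (Nat.eq_of_mul_eq_mul_right (Nat.succ_pos a) h1).symm
  refine ⟨hcardQ, ?_⟩
  let p : G →* G ⧸ N := QuotientGroup.mk' N
  have hp1 : ∀ g, p g = 1 ↔ g ∈ N := fun g => QuotientGroup.eq_one_iff g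
  have hinj : ∀ d₁ ∈ D, ∀ d₂ ∈ D, p d₁ = p d₂ → d₁ = d₂ := by
    intro d₁ h₁ d₂ h₂ h
    by_contra hne
    have hmem : d₁ * d₂⁻¹ ∈ N := by
      rw [← hp1, map_mul, map_inv, h, mul_inv_cancel]
    exact ne_of_mem _ hmem (fun h' => hne (mul_inv_eq_one.mp h')) d₁ h₁ d₂ h₂ rfl
  -- the missed coset
  obtain ⟨c, hc⟩ : ∃ c : G ⧸ N, (Finset.univ \ D.image p) = {c} := by
    rw [← Finset.card_eq_one, Finset.card_sdiff_of_subset (Finset.subset_univ _),
      Finset.card_image_of_injOn (fun a ha b hb h => hinj a ha b hb h), Finset.card_univ,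
      hcardQ, card_set]
    omega
  have hcne : ∀ d ∈ D, p d ≠ c := by
    intro d hd h
    have : c ∈ (Finset.univ \ D.image p) := by rw [hc]; simp
    rw [Finset.mem_sdiff] at this
    exact this.2 (Finset.mem_image.mpr ⟨d, hd, h⟩)
  have hex : ∀ q : G ⧸ N, ∃ d, q ≠ c → d ∈ D ∧ p d = q := by
    intro q
    by_cases hq : q = c
    · exact ⟨1, fun h => absurd hq h⟩
    · have h3 : q ∉ (Finset.univ \ D.image p) := by rw [hc]; simpa using hq
      rw [Finset.mem_sdiff, not_and, not_not] at h3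
      obtain ⟨d, hd, hdq⟩ := Finset.mem_image.mp (h3 (Finset.mem_univ _))
      exact ⟨d, fun _ => ⟨hd, hdq⟩⟩
  choose δ hδ using hex
  obtain ⟨s, hs⟩ : ∃ s : G ⧸ N → G, ∀ q, p (s q) = q :=
    ⟨Function.surjInv (QuotientGroup.mk'_surjective N), Function.surjInv_eq _⟩
  have hne : ∀ i j : G ⧸ N, i ≠ j → i * j⁻¹ * c ≠ c := by
    intro i j hij h
    exact hij (mul_inv_eq_one.mp (mul_eq_right.mp h))
  have hmem : ∀ i j : G ⧸ N, i ≠ j →
      (s i)⁻¹ * δ (i * j⁻¹ * c) * s (c⁻¹ * j) ∈ N := by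
    intro i j hij
    rw [← hp1, map_mul, map_mul, map_inv, hs, hs, (hδ _ (hne i j hij)).2]
    group
  let m : G ⧸ N → G ⧸ N → N := fun i j =>
    if h : i ≠ j then ⟨(s i)⁻¹ * δ (i * j⁻¹ * c) * s (c⁻¹ * j), hmem i j h⟩ else 1
  have hmval : ∀ i j : G ⧸ N, i ≠ j →
      ((m i j : N) : G) = (s i)⁻¹ * δ (i * j⁻¹ * c) * s (c⁻¹ * j) := by
    intro i j hij
    simp only [m, dif_pos hij]
  refine ⟨m, ?_⟩
  intro i i' hii h
  have hg : s i * h * (s i')⁻¹ ∉ N := by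
    rw [← hp1, map_mul, map_mul, map_inv, hs, hs, (hp1 _).mpr h.2, mul_one]
    exact fun h' => hii (mul_inv_eq_one.mp h')
  obtain ⟨⟨d₁, d₂⟩, ⟨h₁, h₂, h₁₂⟩, huniq⟩ := existsUnique_of_notMem _ hg
  simp only at h₁ h₂ h₁₂
  have hp12 : p d₁ = i * i'⁻¹ * p d₂ := by
    have h3 : d₁ = s i * h * (s i')⁻¹ * d₂ := by rw [← h₁₂]; group
    rw [h3, map_mul, map_mul, map_mul, map_inv, hs, hs, (hp1 _).mpr h.2, mul_one]
  have key : ∀ j, j ≠ i → j ≠ i' →
      ((m i j * (m i' j)⁻¹ : N) : G) =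
        (s i)⁻¹ * (δ (i * j⁻¹ * c) * (δ (i' * j⁻¹ * c))⁻¹) * s i' := by
    intro j hj hj'
    rw [Subgroup.coe_mul, Subgroup.coe_inv, hmval i j hj.symm, hmval i' j hj'.symm]
    group
  refine ⟨c * (p d₂)⁻¹ * i', ⟨⟨?_, ?_⟩, ?_⟩, ?_⟩
  · intro hji
    apply hcne d₁ h₁
    rw [hp12]
    have h3 : p d₂ = i' * i⁻¹ * c := by rw [← hji]; group
    rw [h3]; group
  · intro hji
    apply hcne d₂ h₂
    have h3 : c * (p d₂)⁻¹ = 1 := mul_eq_right.mp hji
    exact (mul_inv_eq_one.mp h3).symm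
  · have hj1 : c * (p d₂)⁻¹ * i' ≠ i := by
      intro hji
      apply hcne d₁ h₁
      rw [hp12]
      have h3 : p d₂ = i' * i⁻¹ * c := by rw [← hji]; group
      rw [h3]; group
    have hj2 : c * (p d₂)⁻¹ * i' ≠ i' := by
      intro hji
      apply hcne d₂ h₂
      have h3 : c * (p d₂)⁻¹ = 1 := mul_eq_right.mp hji
      exact (mul_inv_eq_one.mp h3).symm
    apply Subtype.ext
    rw [key _ hj1 hj2]
    have e1 : i * (c * (p d₂)⁻¹ * i')⁻¹ * c = p d₁ := by rw [hp12]; group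
    have e2 : i' * (c * (p d₂)⁻¹ * i')⁻¹ * c = p d₂ := by group
    rw [e1, e2]
    have e3 : δ (p d₁) = d₁ :=
      hinj _ (hδ _ (hcne d₁ h₁)).1 _ h₁ (hδ _ (hcne d₁ h₁)).2
    have e4 : δ (p d₂) = d₂ :=
      hinj _ (hδ _ (hcne d₂ h₂)).1 _ h₂ (hδ _ (hcne d₂ h₂)).2
    rw [e3, e4, h₁₂]
    group
  · rintro j ⟨⟨hj, hj'⟩, hjh⟩
    have h3 := key j hj hj'
    rw [hjh] at h3
    have h4 : δ (i * j⁻¹ * c) * (δ (i' * j⁻¹ * c))⁻¹ = s i * h * (s i')⁻¹ := by
      rw [h3]; group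
    have h5 := huniq (δ (i * j⁻¹ * c), δ (i' * j⁻¹ * c))
      ⟨(hδ _ (hne i j hj.symm)).1, (hδ _ (hne i' j hj'.symm)).1, h4⟩
    have h6 : δ (i' * j⁻¹ * c) = d₂ := congrArg Prod.snd h5
    have h7 : p d₂ = i' * j⁻¹ * c := by rw [← h6]; exact (hδ _ (hne i' j hj'.symm)).2
    rw [h7]; group

theorem exists_functional_aux {C : Type*} [AddCommGroup C] (p : ℕ) [hp : Fact p.Prime]
    [Module (ZMod p) C] (y : C) (hy : y ≠ 0) : ∃ g : C →+ ZMod p, g y ≠ 0 := by
  obtain ⟨g, hg⟩ : ∃ g : Module.Dual (ZMod p) C, g y ≠ 0 := by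
    by_contra hcon
    push Not at hcon
    exact hy ((Module.forall_dual_apply_eq_zero_iff (ZMod p) y).mp hcon)
  exact ⟨g.toAddMonoidHom, hg⟩

theorem exists_functional {C : Type*} [AddCommGroup C] (p : ℕ) [hp : Fact p.Prime]
    (hC : ∀ x : C, p • x = 0) (y : C) (hy : y ≠ 0) : ∃ g : C →+ ZMod p, g y ≠ 0 :=
  @exists_functional_aux C _ p hp (AddCommGroup.zmodModule hC) y hy

/-- A finite commutative group of order divisible by `p` has a nontrivial homomorphism to the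
cyclic group of order `p`. -/
theorem exists_hom_zmod {A : Type*} [CommGroup A] [Finite A] (p : ℕ) [hp : Fact p.Prime]
    (hA : p ∣ Nat.card A) : ∃ φ : A →* Multiplicative (ZMod p), φ ≠ 1 := by
  classical
  let f : Additive A →+ Additive A := nsmulAddMonoidHom p
  have hni : ¬ Function.Injective f := by
    intro hinj
    obtain ⟨x, hx⟩ := exists_prime_orderOf_dvd_card' p hA
    have h1 : f (Additive.ofMul x) = f 0 := by
      simp only [f, nsmulAddMonoidHom_apply, map_zero, ← ofMul_pow]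
      rw [← hx, pow_orderOf_eq_one]
      rfl
    have h2 := hinj h1
    have h3 : x = 1 := h2
    rw [h3, orderOf_one] at hx
    exact hp.out.one_lt.ne hx
  have hns : ¬ Function.Surjective f := fun h => hni (Finite.injective_iff_surjective.mpr h)
  obtain ⟨y, hy⟩ : ∃ y, y ∉ f.range := by
    by_contra hcon
    push Not at hcon
    exact hns hcon
  obtain ⟨g, hg⟩ := exists_functional (C := Additive A ⧸ f.range) p (by
    intro x
    obtain ⟨z, rfl⟩ := QuotientAddGroup.mk_surjective x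
    have h4 : (p • (z : Additive A ⧸ f.range)) = ((f z : Additive A) : Additive A ⧸ f.range) := rfl
    rw [h4, QuotientAddGroup.eq_zero_iff]
    exact ⟨z, rfl⟩) (y : Additive A ⧸ f.range) (fun h => hy ((QuotientAddGroup.eq_zero_iff y).mp h))
  refine ⟨AddMonoidHom.toMultiplicativeRight (g.comp (QuotientAddGroup.mk' f.range)), ?_⟩
  intro h
  apply hg
  have h5 := DFunLike.congr_fun h (Additive.toMul y)
  exact h5

end Pool.Agent.LibH97.AffDiff
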