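import Mathlib
import Pool.Agent.Lib_helper97.AffDiff.CoreThree
import Pool.Agent.Lib_helper97.AffDiff.ToMatrix

/-!
# Affine difference sets of order `n = 3 mod 4` relative to a normal subgroup

If a finite group `G`, abelian or not, contains an affine difference set of order `n = 3 mod 4`
relative to a normal subgroup `N`, and `p = 3 mod 4` is a prime dividing the order of `N / [N, N]`,
then some prime divisor `l = 3 mod 4` of `n` is a quadratic residue modulo `p`.
-/

namespace Pool.Agent.LibH97.AffDiff.RetiredThreeModFour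

/-- `D` is an affine difference set of order `n` in the group `G` relative to the subgroup `N`. -/
structure IsAffineDifferenceSet {G : Type*} [Group G] (n : ℕ) (N : Subgroup G)
    (D : Finset G) : Prop where
  two_le : 2 ≤ n
  card_group : Nat.card G = n ^ 2 - 1
  card_subgroup : Nat.card N = n - 1
  card_set : D.card = n
  existsUnique_of_notMem : ∀ g : G, g ∉ N →
    ∃! d : G × G, d.1 ∈ D ∧ d.2 ∈ D ∧ d.1 * d.2⁻¹ = g
  ne_of_mem : ∀ g : G, g ∈ N → g ≠ 1 → ∀ d₁ ∈ D, ∀ d₂ ∈ D, d₁ * d₂⁻¹ ≠ g

theorem three_mod_four {G : Type*} [Group G] [Finite G] (N : Subgroup G) [N.Normal] (n : ℕ)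
    (D : Finset G) (hD : IsAffineDifferenceSet n N D) (hn : n % 4 = 3)
    (p : ℕ) (hp : p.Prime) (hp4 : p % 4 = 3) (hpN : p ∣ Nat.card (Abelianization N)) :
    ∃ l : ℕ, l.Prime ∧ l ∣ n ∧ l % 4 = 3 ∧ IsSquare (l : ZMod p) := by
  classical
  by_contra hcon
  push Not at hcon
  have : Fact p.Prime := ⟨hp⟩
  have : Fintype N := Fintype.ofFinite N
  have : Fintype (G ⧸ N) := Fintype.ofFinite _
  obtain ⟨hQ, m, hm⟩ := Pool.Agent.LibH97.AffDiff.exists_matrix N n D hD.two_le hD.card_group
    hD.card_subgroup hD.card_set hD.existsUnique_of_notMem hD.ne_of_mem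
  have : Finite (Abelianization N) := Finite.of_surjective _ (QuotientGroup.mk'_surjective _)
  obtain ⟨φ, hφ⟩ := Pool.Agent.LibH97.AffDiff.exists_hom_zmod (A := Abelianization N) p hpN
  have hpn : p ∣ n - 1 := by
    have h4 : Nat.card (Abelianization N) ∣ Nat.card N := Subgroup.card_quotient_dvd_card _
    rw [← hD.card_subgroup]
    exact hpN.trans h4
  refine Pool.Agent.LibH97.AffDiff.core_three hp4 (φ.comp Abelianization.of) ?_ m hm n hQ hn hpn
    hcon
  intro h
  apply hφ
  apply MonoidHom.ext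
  intro x
  obtain ⟨y, rfl⟩ := QuotientGroup.mk_surjective x
  exact DFunLike.congr_fun h y

end Pool.Agent.LibH97.AffDiff.RetiredThreeModFour
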